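import Mathlib
import Pool.Agent.H20.SH.Base
import Pool.Graph.R_seed8.H713R5.QJ.Defs

/-! # Polynomials near a polynomial: closeness of the iterates, areas of pull-backs -/

set_option autoImplicit false

open Topology Filter Metric Set Polynomial MeasureTheory
open Pool.Agent.H713R5.QJ (ev)

namespace Pool.Agent.H20.MZ

/-- `S` has the degree of `T` and coefficients within `r` of those of `T` -/
def Nr (T : ℂ[X]) (r : ℝ) (S : ℂ[X]) : Prop :=
  S.natDegree = T.natDegree ∧ ∀ j : ℕ, ‖S.coeff j - T.coeff j‖ ≤ r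

theorem Nr.mono {T S : ℂ[X]} {r r' : ℝ} (h : Nr T r S) (hr : r ≤ r') : Nr T r' S :=
  ⟨h.1, fun j => (h.2 j).trans hr⟩

theorem Nr.nonneg {T S : ℂ[X]} {r : ℝ} (h : Nr T r S) : 0 ≤ r := (norm_nonneg _).trans (h.2 0)

theorem Nr.self (T : ℂ[X]) {r : ℝ} (hr : 0 ≤ r) : Nr T r T := ⟨rfl, fun j => by simpa using hr⟩

theorem near_ev (T : ℂ[X]) (R : ℝ) : ∃ C : ℝ, 0 < C ∧ ∀ (r : ℝ) (S : ℂ[X]), Nr T r S →
    ∀ z : ℂ, ‖z‖ ≤ R → ‖ev S z - ev T z‖ ≤ C * r := by
  refine ⟨(T.natDegree + 1) * (max 1 R) ^ T.natDegree, by positivity, ?_⟩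
  intro r S hS z hz
  have hr := hS.nonneg
  have h1 : ev S z - ev T z = ∑ i ∈ Finset.range (T.natDegree + 1), (S.coeff i - T.coeff i) * z ^ i := by
    unfold ev
    rw [Polynomial.eval_eq_sum_range, Polynomial.eval_eq_sum_range, hS.1, ← Finset.sum_sub_distrib]
    refine Finset.sum_congr rfl fun i _ => ?_
    ring
  rw [h1]
  calc ‖∑ i ∈ Finset.range (T.natDegree + 1), (S.coeff i - T.coeff i) * z ^ i‖
      ≤ ∑ i ∈ Finset.range (T.natDegree + 1), r * (max 1 R) ^ T.natDegree := by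
        refine (norm_sum_le _ _).trans (Finset.sum_le_sum fun i hi => ?_)
        rw [norm_mul, norm_pow]
        refine mul_le_mul (hS.2 i) ?_ (by positivity) hr
        calc ‖z‖ ^ i ≤ (max 1 R) ^ i := pow_le_pow_left₀ (norm_nonneg _) (hz.trans (le_max_right _ _)) _
          _ ≤ (max 1 R) ^ T.natDegree := by
              apply pow_le_pow_right₀ (le_max_left _ _)
              have := Finset.mem_range.1 hi
              omega
    _ = (T.natDegree + 1) * (max 1 R) ^ T.natDegree * r := by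
        rw [Finset.sum_const, Finset.card_range, nsmul_eq_mul]
        push_cast
        ring

theorem ev_cont (T : ℂ[X]) : Continuous (ev T) := T.continuous

theorem ev_diff (T : ℂ[X]) : Differentiable ℂ (ev T) := T.differentiable

theorem it_diff (T : ℂ[X]) (n : ℕ) : Differentiable ℂ (ev T)^[n] := (ev_diff T).iterate n

theorem it_cont (T : ℂ[X]) (n : ℕ) : Continuous (ev T)^[n] := (it_diff T n).continuous

/-- an entire function is Lipschitz on bounded sets -/
theorem lip (g : ℂ → ℂ) (hg : Differentiable ℂ g) (R : ℝ) : ∃ L : ℝ, 0 < L ∧ ∀ z w : ℂ, ‖z‖ ≤ R →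
    ‖w‖ ≤ R → ‖g z - g w‖ ≤ L * ‖z - w‖ := by
  have hc : Continuous (deriv g) := (hg.contDiff (n := 1)).continuous_deriv le_rfl
  obtain ⟨L, hL⟩ := ((isCompact_closedBall (0 : ℂ) R).image hc).isBounded.exists_norm_le
  refine ⟨max L 1, by positivity, ?_⟩
  intro z w hz hw
  refine (convex_closedBall (0 : ℂ) R).norm_image_sub_le_of_norm_deriv_le (𝕜 := ℂ)
    (fun x _ => hg x) (fun x hx => (hL _ (mem_image_of_mem _ hx)).trans (le_max_left _ _)) ?_ ?_
  · simpa using hw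
  · simpa using hz

theorem near_iter (T : ℂ[X]) (n : ℕ) : ∀ R : ℝ, ∃ C : ℝ, 0 < C ∧ ∀ (r : ℝ) (S : ℂ[X]), r ≤ 1 →
    Nr T r S → ∀ z : ℂ, ‖z‖ ≤ R → ‖(ev S)^[n] z - (ev T)^[n] z‖ ≤ C * r := by
  induction n with
  | zero =>
      intro R
      refine ⟨1, one_pos, fun r S _ hS z _ => ?_⟩
      simpa using hS.nonneg
  | succ n ih =>
      intro R
      obtain ⟨C₀, hC₀, h₀⟩ := near_ev T R
      obtain ⟨L₀, hL₀⟩ := ((isCompact_closedBall (0 : ℂ) R).image (ev_cont T)).isBounded.exists_norm_le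
      obtain ⟨C₁, hC₁, h₁⟩ := ih (max L₀ 0 + C₀)
      obtain ⟨L, hL, h₂⟩ := lip _ (it_diff T n) (max L₀ 0 + C₀)
      refine ⟨C₁ + L * C₀, by positivity, ?_⟩
      intro r S hr hS z hz
      have hr0 := hS.nonneg
      have e1 : ‖ev T z‖ ≤ max L₀ 0 := (hL₀ _ (mem_image_of_mem _ (by simpa using hz))).trans
        (le_max_left _ _)
      have e2 := h₀ r S hS z hz
      have e3 : C₀ * r ≤ C₀ := by nlinarith
      have e4 : ‖ev S z‖ ≤ max L₀ 0 + C₀ := by
        have := norm_sub_norm_le (ev S z) (ev T z)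
        linarith
      rw [Function.iterate_succ_apply, Function.iterate_succ_apply]
      calc ‖(ev S)^[n] (ev S z) - (ev T)^[n] (ev T z)‖
          ≤ ‖(ev S)^[n] (ev S z) - (ev T)^[n] (ev S z)‖ + ‖(ev T)^[n] (ev S z) - (ev T)^[n] (ev T z)‖ :=
            norm_sub_le_norm_sub_add_norm_sub _ _ _
        _ ≤ C₁ * r + L * ‖ev S z - ev T z‖ :=
            add_le_add (h₁ r S hr hS _ e4) (h₂ _ _ e4 (by linarith [hC₀.le]))
        _ ≤ C₁ * r + L * (C₀ * r) := by gcongr
        _ = (C₁ + L * C₀) * r := by ring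

/-- the derivatives of the iterates are close -/
theorem near_iter_deriv (T : ℂ[X]) (n : ℕ) (R : ℝ) : ∃ C : ℝ, 0 < C ∧ ∀ (r : ℝ) (S : ℂ[X]), r ≤ 1 →
    Nr T r S → ∀ z : ℂ, ‖z‖ ≤ R → ‖(ev S)^[n] z - (ev T)^[n] z‖ ≤ C * r ∧
      ‖deriv (ev S)^[n] z - deriv (ev T)^[n] z‖ ≤ C * r := by
  obtain ⟨C, hC, h⟩ := near_iter T n (R + 1)
  refine ⟨C, hC, fun r S hr hS z hz => ⟨h r S hr hS z (by linarith), ?_⟩⟩
  have h1 : deriv (fun w => (ev S)^[n] w - (ev T)^[n] w) z = deriv (ev S)^[n] z - deriv (ev T)^[n] z :=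
    deriv_fun_sub (it_diff S n z) (it_diff T n z)
  rw [← h1]
  have h2 := Complex.norm_deriv_le_of_forall_mem_sphere_norm_le (c := z) (R := 1) (C := C * r)
    (f := fun w => (ev S)^[n] w - (ev T)^[n] w) one_pos
    (((it_diff S n).sub (it_diff T n)).diffContOnCl) (fun w hw => by
      apply h r S hr hS w
      have h3 : ‖w - z‖ = 1 := by simpa [dist_eq_norm] using hw
      have h4 := norm_sub_norm_le w z
      linarith)
  simpa using h2

/-- pull-back of area by a map which expands distances -/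
theorem area_le {g : ℂ → ℂ} (hg : Differentiable ℂ g) {U E : Set ℂ} (hU : IsOpen U) {lam : ℝ}
    (hlam : 0 < lam) (h : ∀ z ∈ U, ∀ w ∈ U, lam * ‖z - w‖ ≤ ‖g z - g w‖) (hE : MeasurableSet E)
    (hEU : E ⊆ U) : volume E ≤ ENNReal.ofReal (lam⁻¹ ^ 2) * volume (g '' E) := by
  have hinj : InjOn g E := by
    intro z hz w hw hzw
    have h1 := h z (hEU hz) w (hEU hw)
    rw [hzw, sub_self, norm_zero] at h1
    have h2 : ‖z - w‖ ≤ 0 := by
      by_contra hc
      push Not at hc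
      nlinarith
    exact sub_eq_zero.1 (norm_le_zero_iff.1 h2)
  have hder : ∀ z ∈ E, lam ≤ ‖deriv g z‖ := by
    intro z hz
    have h1 : Tendsto (fun w => ‖slope g z w‖) (𝓝[≠] z) (𝓝 ‖deriv g z‖) :=
      ((hasDerivAt_iff_tendsto_slope.1 (hg z).hasDerivAt)).norm
    refine ge_of_tendsto h1 ?_
    filter_upwards [self_mem_nhdsWithin, mem_nhdsWithin_of_mem_nhds (hU.mem_nhds (hEU hz))] with w hw hwU
    have hw' : w - z ≠ 0 := sub_ne_zero.2 hw
    rw [slope_def_field, norm_div, le_div_iff₀ (norm_pos_iff.2 hw')]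
    exact h w hwU z (hEU hz)
  have h1 := lintegral_abs_det_fderiv_le_addHaar_image (volume : Measure ℂ) hE
    (f' := fun z => ((ContinuousLinearMap.toSpanSingleton ℂ (deriv g z)).restrictScalars ℝ : ℂ →L[ℝ] ℂ))
    (fun z _ => ((hg z).hasDerivAt.hasFDerivAt.restrictScalars ℝ).hasFDerivWithinAt) hinj
  have h2 : ∀ z : ℂ, ((ContinuousLinearMap.toSpanSingleton ℂ (deriv g z)).restrictScalars ℝ :
      ℂ →L[ℝ] ℂ).det = ‖deriv g z‖ ^ 2 := fun z => Pool.Agent.H713R5.QJ.af_det _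
  have h3 : ENNReal.ofReal (lam ^ 2) * volume E ≤ volume (g '' E) := by
    refine le_trans ?_ h1
    rw [← setLIntegral_const]
    refine setLIntegral_mono' hE fun z hz => ?_
    rw [h2]
    apply ENNReal.ofReal_le_ofReal
    rw [abs_of_nonneg (by positivity)]
    have := hder z hz
    gcongr
  calc volume E = ENNReal.ofReal (lam⁻¹ ^ 2) * (ENNReal.ofReal (lam ^ 2) * volume E) := by
        rw [← mul_assoc, ← ENNReal.ofReal_mul (by positivity), ← mul_pow, inv_mul_cancel₀ hlam.ne',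
          one_pow, ENNReal.ofReal_one, one_mul]
    _ ≤ ENNReal.ofReal (lam⁻¹ ^ 2) * volume (g '' E) := by gcongr

end Pool.Agent.H20.MZ
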