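import Pool.Agent.H20.MZ.Base
import Pool.Graph.R_pool_sql_team_seeded_3997aac3.Q222.XF.KOE

/-! # Inverse branches and the size of their images -/

set_option autoImplicit false

open Topology Filter Metric Set Polynomial MeasureTheory
open Pool.Agent.H713R5.QJ (ev)

namespace Pool.Agent.H20.MZ

/-- Inverse branches of a polynomial on discs without critical values. -/
theorem inv_branch (Q : ℂ[X]) {y : ℂ} {ρ : ℝ}
    (hcv : ∀ z : ℂ, (derivative Q).eval z = 0 → Q.eval z ∉ ball y ρ) {x : ℂ} (hx : Q.eval x ∈ ball y ρ) :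
    ∃ φ : ℂ → ℂ, (∀ w ∈ ball y ρ, Q.eval (φ w) = w) ∧ φ (Q.eval x) = x ∧
      (∀ w ∈ ball y ρ, (derivative Q).eval (φ w) ≠ 0) ∧
      ∀ w ∈ ball y ρ, HasDerivAt φ ((derivative Q).eval (φ w))⁻¹ w := by
  classical
  have hconv : Convex ℝ (ball y ρ) := convex_ball y ρ
  have : ContractibleSpace (ball y ρ) := hconv.contractibleSpace ⟨_, hx⟩
  have : LocallyPathConnectedSpace (ball y ρ) := isOpen_ball.locallyPathConnectedSpace
  let f : C(ball y ρ, ℂ) := ⟨fun w => (w : ℂ), continuous_subtype_val⟩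
  obtain ⟨F, ⟨hF1, hF2⟩, -⟩ := (Polynomial.isCoveringMapOn_eval Q).existsUnique_continuousMap_lifts f
    (a₀ := ⟨_, hx⟩) (e₀ := x) rfl (fun a => by
      rintro ⟨z, hz, hz2⟩
      exact hcv z hz (by
        have hz3 : eval z Q = (a : ℂ) := hz2
        rw [hz3]; exact a.2))
  let φ : ℂ → ℂ := fun w => if h : w ∈ ball y ρ then F ⟨w, h⟩ else 0
  have hφ : ∀ w (h : w ∈ ball y ρ), φ w = F ⟨w, h⟩ := fun w h => dif_pos h
  have h1 : ∀ w ∈ ball y ρ, Q.eval (φ w) = w := by
    intro w hw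
    rw [hφ w hw]
    exact congrFun hF2 ⟨w, hw⟩
  have h2 : ∀ w ∈ ball y ρ, (derivative Q).eval (φ w) ≠ 0 := by
    intro w hw h0
    exact hcv _ h0 (by rw [h1 w hw]; exact hw)
  have h3 : ContinuousOn φ (ball y ρ) := by
    rw [continuousOn_iff_continuous_domRestrict]
    convert F.continuous using 1
    funext w
    exact hφ w w.2
  refine ⟨φ, h1, by rw [hφ _ hx]; exact hF1, h2, ?_⟩
  intro w hw
  have hnb : ball y ρ ∈ 𝓝 w := isOpen_ball.mem_nhds hw
  refine HasDerivAt.of_local_left_inverse (h3.continuousAt hnb) (Q.hasDerivAt (φ w)) (h2 w hw) ?_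
  filter_upwards [hnb] with v hv
  exact h1 v hv

/-- areas of images -/
theorem area_image {g : ℂ → ℂ} (hg : Differentiable ℂ g) {F : Set ℂ} (hF : MeasurableSet F) {Λ : ℝ}
    (h : ∀ z ∈ F, ‖deriv g z‖ ≤ Λ) : volume (g '' F) ≤ ENNReal.ofReal (Λ ^ 2) * volume F := by
  have h1 := addHaar_image_le_lintegral_abs_det_fderiv (volume : Measure ℂ) hF
    (f' := fun z => ((ContinuousLinearMap.toSpanSingleton ℂ (deriv g z)).restrictScalars ℝ : ℂ →L[ℝ] ℂ))
    (fun z _ => ((hg z).hasDerivAt.hasFDerivAt.restrictScalars ℝ).hasFDerivWithinAt)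
  refine h1.trans ?_
  rw [← setLIntegral_const]
  refine setLIntegral_mono' hF fun z hz => ?_
  have h2 : ((ContinuousLinearMap.toSpanSingleton ℂ (deriv g z)).restrictScalars ℝ :
      ℂ →L[ℝ] ℂ).det = ‖deriv g z‖ ^ 2 := Pool.Agent.H713R5.QJ.af_det _
  rw [h2, abs_of_nonneg (by positivity)]
  apply ENNReal.ofReal_le_ofReal
  have := h z hz
  gcongr

/-- The image of the disc under an inverse branch contains a disc. -/
theorem cover {g φ : ℂ → ℂ} (hg : Differentiable ℂ g) {x y : ℂ} {ρ κ : ℝ} (hρ : 0 < ρ) (hκ : 0 < κ)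
    (hxy : φ y = x) (h1 : ∀ w ∈ ball y ρ, g (φ w) = w)
    (h2 : ∀ w ∈ ball y ρ, HasDerivAt φ (deriv g (φ w))⁻¹ w)
    (h3 : ∀ w ∈ ball y ρ, deriv g (φ w) ≠ 0 ∧ κ * ‖deriv g (φ w)‖ ≤ 1) :
    ∀ z ∈ ball x (κ * ρ), g z ∈ ball y ρ ∧ φ (g z) = z := by
  set U : Set ℂ := {z | g z ∈ ball y ρ ∧ φ (g z) = z} with hU
  have hy : y ∈ ball y ρ := mem_ball_self hρ
  have hgx : g x = y := by rw [← hxy]; exact h1 y hy
  have hxU : x ∈ U := ⟨by rw [hgx]; exact hy, by rw [hgx, hxy]⟩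
  have hUo : IsOpen U := by
    rw [isOpen_iff_mem_nhds]
    rintro z ⟨hz1, hz2⟩
    have hd : deriv g z ≠ 0 := by
      have := (h3 _ hz1).1
      rwa [hz2] at this
    have hst : HasStrictDerivAt g (deriv g z) z :=
      ((hg.analyticAt z).hasStrictDerivAt)
    -- near `z` the map `g` is injective
    obtain ⟨V, hV, hinj⟩ : ∃ V ∈ 𝓝 z, InjOn g V := by
      have := hst.hasStrictFDerivAt_equiv hd
      exact ⟨_, (this.toOpenPartialHomeomorph g).open_source.mem_nhds
        this.mem_toOpenPartialHomeomorph_source, (this.toOpenPartialHomeomorph g).injOn⟩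
    have hc : ContinuousAt (fun v => φ (g v)) z := by
      have e : ContinuousAt φ (g z) := (h2 _ hz1).continuousAt
      exact ContinuousAt.comp e hg.continuous.continuousAt
    have hc2 : ∀ᶠ v in 𝓝 z, φ (g v) ∈ V := by
      apply hc.eventually
      simp only [hz2]
      exact hV
    filter_upwards [hc2, hV, hg.continuous.continuousAt.eventually (isOpen_ball.mem_nhds hz1)] with v e1 e2 e3
    exact ⟨e3, hinj e1 e2 (h1 _ e3)⟩
  by_contra hcon
  push Not at hcon
  obtain ⟨z₁, hz₁, hz₁'⟩ := hcon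
  have hne : (Uᶜ : Set ℂ).Nonempty := ⟨z₁, fun h => hz₁' h.1 h.2⟩
  obtain ⟨zs, hzs, hD⟩ := hUo.isClosed_compl.exists_infDist_eq_dist hne x
  set D : ℝ := infDist x Uᶜ with hDdef
  have hDlt : D < κ * ρ := by
    refine lt_of_le_of_lt (infDist_le_dist_of_mem (y := z₁) (fun h => hz₁' h.1 h.2)) ?_
    rw [dist_comm]
    exact hz₁
  have hD0 : 0 < D := by
    rw [hD]
    refine dist_pos.2 ?_
    rintro rfl
    exact hzs hxU
  have hsub : ball x D ⊆ U := by
    intro z hz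
    by_contra hzU
    have : D ≤ dist x z := infDist_le_dist_of_mem hzU
    rw [mem_ball, dist_comm] at hz
    linarith
  have hlip : ∀ z ∈ ball x D, ‖g z - y‖ ≤ κ⁻¹ * ‖z - x‖ := by
    intro z hz
    have h4 := (convex_ball x D).norm_image_sub_le_of_norm_deriv_le (𝕜 := ℂ) (f := g) (C := κ⁻¹)
      (fun v _ => hg v) (fun v hv => by
        obtain ⟨e1, e2⟩ := hsub hv
        have e3 := (h3 _ e1).2
        rw [e2] at e3
        rw [inv_eq_one_div, le_div_iff₀ hκ]
        linarith) (mem_ball_self hD0) hz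
    rwa [hgx] at h4
  have hcl : zs ∈ closure (ball x D) := by
    rw [closure_ball x hD0.ne', mem_closedBall, dist_comm, ← hD]
  have hzs1 : ‖g zs - y‖ ≤ κ⁻¹ * ‖zs - x‖ := by
    have : closure (ball x D) ⊆ {z | ‖g z - y‖ ≤ κ⁻¹ * ‖z - x‖} := by
      apply closure_minimal hlip
      have hgc := hg.continuous
      exact isClosed_le (f := fun z => ‖g z - y‖) (g := fun z => κ⁻¹ * ‖z - x‖) (by fun_prop) (by fun_prop)
    exact this hcl
  have hzs2 : g zs ∈ ball y ρ := by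
    rw [mem_ball, dist_eq_norm]
    refine lt_of_le_of_lt hzs1 ?_
    rw [← dist_eq_norm, dist_comm, ← hD, inv_mul_lt_iff₀ hκ]
    exact hDlt
  have hzs3 : φ (g zs) = zs := by
    have : (𝓝[ball x D] zs).NeBot := mem_closure_iff_nhdsWithin_neBot.1 hcl
    have e1 : Tendsto (fun z => φ (g z)) (𝓝[ball x D] zs) (𝓝 (φ (g zs))) := by
      have e : ContinuousAt φ (g zs) := (h2 _ hzs2).continuousAt
      exact (ContinuousAt.comp e hg.continuous.continuousAt).tendsto.mono_left nhdsWithin_le_nhds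
    have e2 : Tendsto (fun z : ℂ => z) (𝓝[ball x D] zs) (𝓝 zs) := tendsto_id.mono_left nhdsWithin_le_nhds
    refine tendsto_nhds_unique e1 (e2.congr' ?_)
    filter_upwards [self_mem_nhdsWithin] with z hz
    exact (hsub hz).2.symm
  exact hzs ⟨hzs2, hzs3⟩

end Pool.Agent.H20.MZ
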