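import Pool.Agent.H20.MZ.Pas

/-! # Area near a simple critical point -/

set_option autoImplicit false

open Topology Filter Metric Set Polynomial MeasureTheory
open Pool.Agent.H713R5.QJ (ev)

namespace Pool.Agent.H20.MZ

theorem s1 {G : ℝ → ℝ} (hG : ∀ x y, x ≤ y → G x ≤ G y) {a b Q : ℝ} (ha : 0 < a) (hQ : 0 ≤ Q)
    (h : ∀ τ, a ≤ τ → τ ≤ b → G τ ≤ G (τ / 2) + Q * τ ^ 2) :
    ∀ τ, 0 < τ → τ ≤ b → G τ ≤ G a + 4 / 3 * Q * τ ^ 2 := by
  have key : ∀ (n : ℕ) (τ : ℝ), 0 < τ → τ ≤ b → τ ≤ 2 ^ n * a → G τ ≤ G a + 4 / 3 * Q * τ ^ 2 := by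
    intro n
    induction n with
    | zero =>
        intro τ h0 _ h2
        have h3 := hG τ a (by simpa using h2)
        have : 0 ≤ 4 / 3 * Q * τ ^ 2 := by positivity
        linarith
    | succ n ih =>
        intro τ h0 h1 h2
        by_cases hc : τ ≤ a
        · have h3 := hG τ a hc
          have : 0 ≤ 4 / 3 * Q * τ ^ 2 := by positivity
          linarith
        · push Not at hc
          have h3 := ih (τ / 2) (by linarith) (by linarith) (by rw [pow_succ] at h2; linarith)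
          have h4 := h τ hc.le h1
          nlinarith
  intro τ h0 h1
  obtain ⟨n, hn⟩ := pow_unbounded_of_one_lt (τ / a) (by norm_num : (1 : ℝ) < 2)
  exact key n τ h0 h1 (by rw [div_lt_iff₀ ha] at hn; exact hn.le)

theorem s2 {G : ℝ → ℝ} (hG : ∀ x y, x ≤ y → G x ≤ G y) {a b Q : ℝ} (ha : 0 < a) (hQ : 0 ≤ Q)
    (h : ∀ τ, a ≤ τ → τ ≤ b → G τ ≤ G (τ / 2) + Q / τ ^ 2) :
    ∀ τ, a ≤ τ → τ ≤ b → G τ ≤ G a + 4 / 3 * Q / a ^ 2 := by
  have key : ∀ (n : ℕ) (τ : ℝ), a / 2 ≤ τ → τ ≤ b → τ ≤ 2 ^ n * a →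
      G τ ≤ G a + Q * (4 / 3 / a ^ 2 - 1 / 3 / τ ^ 2) := by
    have base : ∀ τ : ℝ, a / 2 ≤ τ → τ ≤ a → G τ ≤ G a + Q * (4 / 3 / a ^ 2 - 1 / 3 / τ ^ 2) := by
      intro τ h0 h1
      have h3 := hG τ a h1
      have h4 : 0 ≤ 4 / 3 / a ^ 2 - 1 / 3 / τ ^ 2 := by
        rw [sub_nonneg, div_le_div_iff₀ (by have : 0 < τ := by linarith
                                            positivity) (by positivity)]
        nlinarith
      have := mul_nonneg hQ h4
      linarith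
    intro n
    induction n with
    | zero =>
        intro τ h0 _ h2
        exact base τ h0 (by simpa using h2)
    | succ n ih =>
        intro τ h0 h1 h2
        by_cases hc : τ ≤ a
        · exact base τ h0 hc
        · push Not at hc
          have hτ : 0 < τ := by linarith
          have h3 := ih (τ / 2) (by linarith) (by linarith) (by rw [pow_succ] at h2; linarith)
          have h4 := h τ hc.le h1
          have e : 1 / 3 / (τ / 2) ^ 2 = 1 / 3 / τ ^ 2 + 1 / τ ^ 2 := by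
            field_simp
            norm_num
          rw [e] at h3
          have e2 : Q / τ ^ 2 = Q * (1 / τ ^ 2) := by ring
          rw [e2] at h4
          nlinarith
  intro τ h0 h1
  obtain ⟨n, hn⟩ := pow_unbounded_of_one_lt (τ / a) (by norm_num : (1 : ℝ) < 2)
  have h2 := key n τ (by linarith) h1 (by rw [div_lt_iff₀ ha] at hn; exact hn.le)
  refine h2.trans ?_
  have hτ : 0 < τ := by linarith
  have h3 : 0 ≤ Q * (1 / 3 / τ ^ 2) := by positivity
  have e : 4 / 3 * Q / a ^ 2 = Q * (4 / 3 / a ^ 2) := by ring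
  rw [e, mul_sub]
  linarith

/-- local behaviour at a simple critical point -/
theorem local_crit (T : ℂ[X]) (c : ℂ) (hc : (derivative T).eval c = 0)
    (hc2 : (derivative (derivative T)).eval c ≠ 0) :
    ∃ σ β M : ℝ, 0 < σ ∧ σ ≤ 1 ∧ 0 < β ∧ 0 < M ∧ ∀ z : ℂ, ‖z - c‖ ≤ σ →
      β * ‖z - c‖ ≤ ‖(derivative T).eval z‖ ∧ ‖ev T z - ev T c‖ ≤ M * ‖z - c‖ ^ 2 := by
  set β : ℝ := ‖(derivative (derivative T)).eval c‖ with hβ
  have hβ0 : 0 < β := norm_pos_iff.2 hc2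
  have h1 : HasDerivAt (fun z => (derivative T).eval z) ((derivative (derivative T)).eval c) c :=
    (derivative T).hasDerivAt c
  have h2 := h1.isLittleO.def (show 0 < β / 2 by positivity)
  obtain ⟨σ, hσ, h3⟩ := Metric.eventually_nhds_iff.1 h2
  obtain ⟨L, hL, h4⟩ := lip (fun z => (derivative T).eval z) (derivative T).differentiable (‖c‖ + 1)
  refine ⟨min (σ / 2) 1, β / 2, L, by positivity, min_le_right _ _, by positivity, hL, ?_⟩
  intro z hz
  have hz1 : ‖z - c‖ ≤ 1 := hz.trans (min_le_right _ _)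
  constructor
  · have h5 := h3 (y := z) (by rw [dist_eq_norm]; linarith [hz.trans (min_le_left _ _)])
    rw [hc, sub_zero, smul_eq_mul] at h5
    have h6 : ‖(z - c) * (derivative (derivative T)).eval c‖ - ‖(derivative T).eval z‖ ≤
        ‖(derivative T).eval z - (z - c) * (derivative (derivative T)).eval c‖ := by
      rw [norm_sub_rev]
      exact norm_sub_norm_le _ _
    rw [norm_mul, ← hβ] at h6
    linarith
  · have h5 := (convex_closedBall c ‖z - c‖).norm_image_sub_le_of_norm_deriv_le (𝕜 := ℂ)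
      (f := ev T) (C := L * ‖z - c‖) (fun x _ => ev_diff T x) (fun x hx => by
        have hx' : ‖x - c‖ ≤ ‖z - c‖ := by simpa [dist_eq_norm] using hx
        have e : deriv (ev T) x = (derivative T).eval x := T.deriv
        rw [e]
        have h6 := h4 x c (by
          have := norm_sub_norm_le x c
          linarith) (by linarith)
        simp only [hc, sub_zero] at h6
        refine h6.trans ?_
        gcongr) (x := c) (y := z) (mem_closedBall_self (norm_nonneg _))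
      (by simp [dist_eq_norm])
    calc ‖ev T z - ev T c‖ ≤ L * ‖z - c‖ * ‖z - c‖ := h5
      _ = _ := by ring

/-- the estimate in an annulus -/
theorem annulus {T : ℂ[X]} (hT : 2 ≤ T.natDegree) {c : ℂ} {σ β M : ℝ}
    (hloc : ∀ z : ℂ, ‖z - c‖ ≤ σ →
      β * ‖z - c‖ ≤ ‖(derivative T).eval z‖ ∧ ‖ev T z - ev T c‖ ≤ M * ‖z - c‖ ^ 2)
    (hβ : 0 < β) (hM : 0 < M) (hσ1 : σ ≤ 1) {C r : ℝ} {S : ℂ[X]} (hS : Nr T r S)
    (hn : ∀ z : ℂ, ‖z‖ ≤ ‖c‖ + 1 → ‖ev S z - ev T z‖ ≤ C * r ∧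
      ‖(derivative S).eval z - (derivative T).eval z‖ ≤ C * r) {K : Set ℂ} (hK : Inv S K) {τ : ℝ}
    (hτ : 0 < τ) (hτσ : τ ≤ σ) (hrτ : 4 * (C * r) ≤ β * τ) :
    ar K (ball c τ) ≤ ar K (ball c (τ / 2)) +
      16 * T.natDegree / (β ^ 2 * τ ^ 2) * ar K (ball (ev T c) (M * τ ^ 2 + C * r)) := by
  set A : Set ℂ := K ∩ (ball c τ \ ball c (τ / 2)) with hA
  have hAm : MeasurableSet A := hK.meas.inter (measurableSet_ball.diff measurableSet_ball)
  have hE : MeasurableSet (K ∩ ball (ev T c) (M * τ ^ 2 + C * r)) := hK.meas.inter measurableSet_ball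
  have hz : ∀ z ∈ A, ‖z‖ ≤ ‖c‖ + 1 ∧ ‖z - c‖ < τ ∧ τ / 2 ≤ ‖z - c‖ := by
    intro z hz
    have h1 : ‖z - c‖ < τ := by simpa [dist_eq_norm] using hz.2.1
    have h2 : τ / 2 ≤ ‖z - c‖ := by simpa [dist_eq_norm] using hz.2.2
    have := norm_sub_norm_le z c
    exact ⟨by linarith, h1, h2⟩
  have hSd : 0 < S.natDegree := by rw [hS.1]; omega
  have hAE : ∀ z ∈ A, ev S z ∈ K ∩ ball (ev T c) (M * τ ^ 2 + C * r) := by
    intro z hzA
    obtain ⟨h1, h2, h3⟩ := hz z hzA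
    refine ⟨hK.maps z hzA.1, ?_⟩
    rw [mem_ball, dist_eq_norm]
    have h4 := (hn z h1).1
    have h5 := (hloc z (h2.le.trans hτσ)).2
    have h6 : M * ‖z - c‖ ^ 2 < M * τ ^ 2 := by
      have : ‖z - c‖ ^ 2 < τ ^ 2 := by
        have := norm_nonneg (z - c)
        nlinarith
      nlinarith
    calc ‖ev S z - ev T c‖ ≤ ‖ev S z - ev T z‖ + ‖ev T z - ev T c‖ :=
          norm_sub_le_norm_sub_add_norm_sub _ _ _
      _ < _ := by linarith
  have hder : ∀ z ∈ A, β * τ / 4 ≤ ‖(derivative S).eval z‖ := by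
    intro z hzA
    obtain ⟨h1, h2, h3⟩ := hz z hzA
    have h4 := (hn z h1).2
    have h5 := (hloc z (h2.le.trans hτσ)).1
    have h6 : ‖(derivative T).eval z‖ - ‖(derivative S).eval z‖ ≤
        ‖(derivative S).eval z - (derivative T).eval z‖ := by
      rw [norm_sub_rev]
      exact norm_sub_norm_le _ _
    nlinarith
  have h1 := Pool.Agent.H20.SH.push hSd hAm hE S.natDegree
    (fun w F hF => Pool.Agent.H20.SH.card_le hSd w F hF) (G := fun _ => 1) measurable_const hAE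
  simp only [one_mul, lintegral_const, Measure.restrict_apply MeasurableSet.univ, univ_inter] at h1
  have h2 : ENNReal.ofReal ((β * τ / 4) ^ 2) * volume A ≤
      ∫⁻ z in A, ENNReal.ofReal (‖(derivative S).eval z‖ ^ 2) := by
    rw [← setLIntegral_const]
    refine setLIntegral_mono' hAm fun z hzA => ENNReal.ofReal_le_ofReal ?_
    have := hder z hzA
    gcongr
  have h3 := h2.trans h1
  have h4 : (β * τ / 4) ^ 2 * ar K (ball c τ \ ball c (τ / 2)) ≤
      T.natDegree * ar K (ball (ev T c) (M * τ ^ 2 + C * r)) := by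
    have h5 := ENNReal.toReal_mono (ENNReal.mul_lt_top (ENNReal.natCast_lt_top _) (hK.lt _)).ne h3
    rw [ENNReal.toReal_mul, ENNReal.toReal_mul, ENNReal.toReal_ofReal (by positivity),
      ENNReal.toReal_natCast, hS.1] at h5
    exact h5
  have h5 : ar K (ball c τ) ≤ ar K (ball c (τ / 2)) + ar K (ball c τ \ ball c (τ / 2)) := by
    refine (hK.mono ?_).trans (hK.union _ _)
    intro z hz
    by_cases h : z ∈ ball c (τ / 2)
    · exact Or.inl h
    · exact Or.inr ⟨hz, h⟩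
  have h6 : ar K (ball c τ \ ball c (τ / 2)) ≤
      16 * T.natDegree / (β ^ 2 * τ ^ 2) * ar K (ball (ev T c) (M * τ ^ 2 + C * r)) := by
    rw [div_mul_eq_mul_div, le_div_iff₀ (by positivity)]
    nlinarith
  linarith

/-- Area near a simple critical point which is mapped into the expanding set. -/
theorem crit_area (T : ℂ[X]) (hT : 2 ≤ T.natDegree) (P : Set ℂ) (hP : P.Finite)
    (hTP : ∀ p ∈ P, ev T p ∈ P) (N : ℕ) (hN : ∀ p ∈ P, 2 ≤ ‖deriv (ev T)^[N] p‖) (c : ℂ)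
    (hc : (derivative T).eval c = 0) (hc2 : (derivative (derivative T)).eval c ≠ 0)
    (hv : ev T c ∈ P) :
    ∃ σ₁ r₁ B : ℝ, 0 < σ₁ ∧ 0 < r₁ ∧ 0 < B ∧ ∀ (r : ℝ) (S : ℂ[X]) (K : Set ℂ), 0 < r → r ≤ r₁ →
      Nr T r S → Inv S K → ar K univ ≤ 1 → B * r ^ 2 ≤ ar K univ → ∀ σ : ℝ, 0 < σ → σ ≤ σ₁ →
        ar K (ball c σ) ≤ B * (σ ^ 2 * ar K univ + r * √(ar K univ)) := by
  obtain ⟨δ, B, C₀, hδ, hB, hC₀, hpas⟩ := passage_area T P hP hTP N hN
  obtain ⟨C₁, hC₁, hnear⟩ := near_iter_deriv T 1 (‖c‖ + 1)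
  obtain ⟨σ, β, M, hσ, hσ1, hβ, hM, hloc⟩ := local_crit T c hc hc2
  set E : ℝ := M + C₁ + C₀ with hE
  have hE0 : 0 < E := by positivity
  set d : ℝ := (T.natDegree : ℝ) with hd
  have hd0 : 0 ≤ d := Nat.cast_nonneg _
  set Q : ℝ := 16 * d / β ^ 2 * B * E ^ 2 with hQ
  have hQ0 : 0 ≤ Q := by positivity
  set σ₁ : ℝ := min σ (δ / (2 * E)) with hσ₁
  have hσ₁0 : 0 < σ₁ := by positivity
  have hσ₁σ : σ₁ ≤ σ := min_le_left _ _
  have hσ₁E : E * σ₁ ≤ δ / 2 := by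
    have h1 : σ₁ ≤ δ / (2 * E) := min_le_right _ _
    rw [le_div_iff₀ (by positivity)] at h1
    linarith
  set W : ℝ := (16 * C₁ ^ 2 / β ^ 2) ^ 2 with hW
  have hW0 : 0 ≤ W := by positivity
  refine ⟨σ₁, min (min 1 (δ / (2 * E))) (min ((β / (4 * C₁)) ^ 2) (σ₁ ^ 2)),
    Real.pi + 4 / 3 * Q + W, hσ₁0, by positivity, by positivity, ?_⟩
  intro r S K hr hrr hS hK hA1 hAr σ' hσ' hσσ
  have hr1 : r ≤ 1 := hrr.trans ((min_le_left _ _).trans (min_le_left _ _))
  have hrδ : r ≤ δ / (2 * E) := hrr.trans ((min_le_left _ _).trans (min_le_right _ _))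
  have hrβ : r ≤ (β / (4 * C₁)) ^ 2 := hrr.trans ((min_le_right _ _).trans (min_le_left _ _))
  have hrσ : r ≤ σ₁ ^ 2 := hrr.trans ((min_le_right _ _).trans (min_le_right _ _))
  have hEr : E * r < δ := by
    rw [le_div_iff₀ (by positivity)] at hrδ
    linarith
  set A : ℝ := ar K univ with hA
  have hA0 : 0 < A := lt_of_lt_of_le (by positivity) hAr
  set q : ℝ := √r with hq
  have hq0 : 0 < q := Real.sqrt_pos.2 hr
  have hq2 : q ^ 2 = r := Real.sq_sqrt hr.le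
  have hqσ : q ≤ σ₁ := by
    rw [hq, ← Real.sqrt_sq hσ₁0.le]
    exact Real.sqrt_le_sqrt hrσ
  have hqβ : 4 * C₁ * q ≤ β := by
    have h1 : q ≤ β / (4 * C₁) := by
      rw [hq, ← Real.sqrt_sq (show 0 ≤ β / (4 * C₁) by positivity)]
      exact Real.sqrt_le_sqrt hrβ
    rw [le_div_iff₀ (by positivity)] at h1
    linarith
  have hn : ∀ z : ℂ, ‖z‖ ≤ ‖c‖ + 1 → ‖ev S z - ev T z‖ ≤ C₁ * r ∧
      ‖(derivative S).eval z - (derivative T).eval z‖ ≤ C₁ * r := by
    intro z hz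
    have h1 := hnear r S hr1 hS z hz
    rw [Function.iterate_one, Function.iterate_one] at h1
    have e : ∀ V : ℂ[X], deriv (ev V) z = (derivative V).eval z := fun V => V.deriv
    rw [e, e] at h1
    exact h1
  have hann : ∀ τ : ℝ, 0 < τ → τ ≤ σ₁ → 4 * (C₁ * r) ≤ β * τ → ar K (ball c τ) ≤ ar K (ball c (τ / 2)) +
      16 * d / (β ^ 2 * τ ^ 2) * ar K (ball (ev T c) (M * τ ^ 2 + C₁ * r)) := fun τ h1 h2 h3 =>
    annulus hT hloc hβ hM hσ1 hS hn hK h1 (h2.trans hσ₁σ) h3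
  have hG : ∀ x y : ℝ, x ≤ y → ar K (ball c x) ≤ ar K (ball c y) := fun x y hxy =>
    hK.mono (ball_subset_ball hxy)
  have hG' : ∀ x y : ℝ, x ≤ y → ar K (ball (ev T c) x) ≤ ar K (ball (ev T c) y) := fun x y hxy =>
    hK.mono (ball_subset_ball hxy)
  -- the outer part
  have hout : ∀ τ, q ≤ τ → τ ≤ σ₁ → ar K (ball c τ) ≤ ar K (ball c (τ / 2)) + Q * A * τ ^ 2 := by
    intro τ h1 h2
    have hτ : 0 < τ := lt_of_lt_of_le hq0 h1
    have hrτ : r ≤ τ ^ 2 := by rw [← hq2]; gcongr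
    have h3 : 4 * (C₁ * r) ≤ β * τ := by
      rw [← hq2]
      calc 4 * (C₁ * q ^ 2) = 4 * C₁ * q * q := by ring
        _ ≤ β * τ := by gcongr
    refine (hann τ hτ h2 h3).trans ?_
    have hτ1 : τ ≤ 1 := h2.trans (hσ₁σ.trans hσ1)
    have h4 : ar K (ball (ev T c) (M * τ ^ 2 + C₁ * r)) ≤ ar K (ball (ev T c) (E * τ ^ 2)) := by
      apply hG'
      rw [hE]
      have := mul_le_mul_of_nonneg_left hrτ hC₁.le
      have : 0 ≤ C₀ * τ ^ 2 := by positivity
      nlinarith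
    have h5 := hpas r S K hr1 hS hK _ hv (E * τ ^ 2) (by
      rw [hE]
      have := mul_le_mul_of_nonneg_left hrτ hC₀.le
      have : 0 ≤ (M + C₁) * τ ^ 2 := by positivity
      nlinarith) (by positivity) (by
      have h6 : τ ^ 2 ≤ σ₁ := by nlinarith
      have h7 : E * τ ^ 2 ≤ E * σ₁ := by gcongr
      linarith)
    have h6 : 16 * d / (β ^ 2 * τ ^ 2) * ar K (ball (ev T c) (M * τ ^ 2 + C₁ * r)) ≤
        16 * d / (β ^ 2 * τ ^ 2) * (B * (E * τ ^ 2) ^ 2 * A) := by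
      apply mul_le_mul_of_nonneg_left (h4.trans h5) (by positivity)
    have e : 16 * d / (β ^ 2 * τ ^ 2) * (B * (E * τ ^ 2) ^ 2 * A) = Q * A * τ ^ 2 := by
      rw [hQ]
      field_simp
    linarith
  -- the inner part
  set t : ℝ := √(r * √A) with ht
  have hsA : 0 < √A := Real.sqrt_pos.2 hA0
  have ht0 : 0 < t := Real.sqrt_pos.2 (by positivity)
  have ht2 : t ^ 2 = r * √A := Real.sq_sqrt (by positivity)
  have htβ : 4 * (C₁ * r) ≤ β * t := by
    have h1 : (16 * C₁ ^ 2 / β ^ 2) * r ≤ √A := by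
      apply Real.le_sqrt_of_sq_le
      have h2 : W * r ^ 2 ≤ A := by
        refine le_trans ?_ hAr
        have : 0 ≤ (Real.pi + 4 / 3 * Q) * r ^ 2 := by positivity
        nlinarith
      calc (16 * C₁ ^ 2 / β ^ 2 * r) ^ 2 = W * r ^ 2 := by rw [hW]; ring
        _ ≤ A := h2
    have h2 : (4 * (C₁ * r)) ^ 2 ≤ (β * t) ^ 2 := by
      rw [mul_pow β t, ht2]
      have h3 := mul_le_mul_of_nonneg_left h1 (show 0 ≤ β ^ 2 * r by positivity)
      have e : β ^ 2 * r * (16 * C₁ ^ 2 / β ^ 2 * r) = (4 * (C₁ * r)) ^ 2 := by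
        field_simp
        ring
      rw [e] at h3
      linarith
    exact le_of_sq_le_sq h2 (by positivity)
  have hinn : ∀ τ, t ≤ τ → τ ≤ q → ar K (ball c τ) ≤ ar K (ball c (τ / 2)) + Q * A * r ^ 2 / τ ^ 2 := by
    intro τ h1 h2
    have hτ : 0 < τ := lt_of_lt_of_le ht0 h1
    have hrτ : τ ^ 2 ≤ r := by rw [← hq2]; gcongr
    have h3 : 4 * (C₁ * r) ≤ β * τ := htβ.trans (by gcongr)
    refine (hann τ hτ (h2.trans hqσ) h3).trans ?_
    have h4 : ar K (ball (ev T c) (M * τ ^ 2 + C₁ * r)) ≤ ar K (ball (ev T c) (E * r)) := by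
      apply hG'
      rw [hE]
      have := mul_le_mul_of_nonneg_left hrτ hM.le
      have : 0 ≤ C₀ * r := by positivity
      nlinarith
    have h5 := hpas r S K hr1 hS hK _ hv (E * r) (by
      rw [hE]
      have : 0 ≤ (M + C₁) * r := by positivity
      nlinarith) (by positivity) hEr
    have h6 : 16 * d / (β ^ 2 * τ ^ 2) * ar K (ball (ev T c) (M * τ ^ 2 + C₁ * r)) ≤
        16 * d / (β ^ 2 * τ ^ 2) * (B * (E * r) ^ 2 * A) := by
      apply mul_le_mul_of_nonneg_left (h4.trans h5) (by positivity)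
    have e : 16 * d / (β ^ 2 * τ ^ 2) * (B * (E * r) ^ 2 * A) = Q * A * r ^ 2 / τ ^ 2 := by
      rw [hQ]
      field_simp
    linarith
  have htq : t ≤ q := by
    rw [ht, hq]
    apply Real.sqrt_le_sqrt
    have : √A ≤ 1 := Real.sqrt_le_one.2 hA1
    nlinarith
  have h1 := s1 hG hq0 (by positivity) hout σ' hσ' hσσ
  have h2 := s2 hG ht0 (show 0 ≤ Q * A * r ^ 2 by positivity) hinn q htq le_rfl
  have h3 := ar_ball K c ht0.le
  have e : 4 / 3 * (Q * A * r ^ 2) / t ^ 2 = 4 / 3 * Q * (r * √A) := by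
    rw [ht2]
    have hAA : A = √A * √A := (Real.mul_self_sqrt hA0.le).symm
    field_simp
    rw [Real.sq_sqrt hA0.le]
  rw [e] at h2
  rw [ht2] at h3
  have hpi := Real.pi_pos
  have h4 : 0 ≤ r * √A := by positivity
  have h5 : 0 ≤ σ' ^ 2 * A := by positivity
  have h6 := mul_nonneg hW0 h4
  have h7 := mul_nonneg hW0 h5
  have h8 := mul_nonneg hpi.le h5
  have e1 : (Real.pi + 4 / 3 * Q + W) * (σ' ^ 2 * A + r * √A) = Real.pi * (σ' ^ 2 * A) +
      4 / 3 * (Q * A) * σ' ^ 2 + W * (σ' ^ 2 * A) + Real.pi * (r * √A) + 4 / 3 * Q * (r * √A) +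
      W * (r * √A) := by ring
  rw [e1]
  linarith

end Pool.Agent.H20.MZ
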