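import Pool.Agent.H20.MZ.Scale
import Pool.Agent.H20.MZ.Crit

/-! # The area of the invariant sets of the nearby polynomials -/

set_option autoImplicit false

open Topology Filter Metric Set Polynomial MeasureTheory
open Pool.Agent.H713R5.QJ (ev)

namespace Pool.Agent.H20.MZ

theorem exists_upper {s : Set ℂ} (hs : s.Finite) (f : ℂ → ℝ) :
    ∃ M : ℝ, 0 < M ∧ ∀ c ∈ s, f c ≤ M := by
  induction s, hs using Set.Finite.induction_on with
  | empty => exact ⟨1, one_pos, by simp⟩
  | insert _ _ ih =>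
      rename_i a s _ _
      obtain ⟨M, hM, h⟩ := ih
      refine ⟨max M (f a), lt_max_of_lt_left hM, ?_⟩
      rintro c (rfl | hc)
      · exact le_max_right _ _
      · exact (h c hc).trans (le_max_left _ _)

/-- differences of the iterates -/
theorem diff_iter (T : ℂ[X]) (n : ℕ) (x : ℂ) {s : ℝ} : ∃ C : ℝ, 0 < C ∧
    ∀ (r : ℝ) (S : ℂ[X]), r ≤ 1 → Nr T r S → ∀ z ∈ ball x s, ∀ w ∈ ball x s,
      ‖(ev S)^[n] z - (ev T)^[n] z‖ ≤ C * r ∧
      ‖(ev T)^[n] z - (ev T)^[n] w‖ ≤ ‖(ev S)^[n] z - (ev S)^[n] w‖ + C * r * ‖z - w‖ := by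
  obtain ⟨C, hC, h⟩ := near_iter_deriv T n (‖x‖ + s)
  refine ⟨C, hC, ?_⟩
  intro r S hr hS z hz w hw
  have hb : ∀ v ∈ ball x s, ‖v‖ ≤ ‖x‖ + s := by
    intro v hv
    rw [mem_ball, dist_eq_norm] at hv
    have := norm_sub_norm_le v x
    linarith
  refine ⟨(h r S hr hS z (hb z hz)).1, ?_⟩
  have h1 := (convex_ball x s).norm_image_sub_le_of_norm_deriv_le (𝕜 := ℂ)
    (f := fun v => (ev S)^[n] v - (ev T)^[n] v) (C := C * r)
    (fun v _ => (it_diff S n v).sub (it_diff T n v)) (fun v hv => by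
      have e : deriv (fun v => (ev S)^[n] v - (ev T)^[n] v) v = deriv (ev S)^[n] v - deriv (ev T)^[n] v :=
        deriv_fun_sub (it_diff S n v) (it_diff T n v)
      rw [e]
      exact (h r S hr hS v (hb v hv)).2) hw hz
  have h2 : ‖(ev T)^[n] z - (ev T)^[n] w‖ ≤ ‖(ev S)^[n] z - (ev S)^[n] w‖ +
      ‖((ev S)^[n] z - (ev T)^[n] z) - ((ev S)^[n] w - (ev T)^[n] w)‖ := by
    have e : (ev T)^[n] z - (ev T)^[n] w = ((ev S)^[n] z - (ev S)^[n] w) -
        (((ev S)^[n] z - (ev T)^[n] z) - ((ev S)^[n] w - (ev T)^[n] w)) := by ring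
    rw [e]
    exact norm_sub_le _ _
  linarith

/-- The estimate near each point of `K₀`. -/
theorem Base.local_est {T : ℂ[X]} {K₀ P : Set ℂ} (H : Base T K₀ P) :
    ∃ B : ℝ, 0 < B ∧ ∀ x ∈ K₀, ∀ ε : ℝ, 0 < ε → ∃ s r₀ Bx : ℝ, 0 < s ∧ s < ε ∧ 0 < r₀ ∧ 0 < Bx ∧
      ∀ (r : ℝ) (S : ℂ[X]) (K : Set ℂ), 0 < r → r ≤ r₀ → Nr T r S → Inv S K → ar K univ ≤ 1 →
        Bx * r ^ 2 ≤ ar K univ →
        ar K (ball x s) ≤ B * s ^ 2 * ar K univ + Bx * (r * √(ar K univ)) := by
  obtain ⟨N, hN⟩ := H.exp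
  obtain ⟨c₁, hc₁, hscale⟩ := H.scale
  have hfin : {c : ℂ | (derivative T).eval c = 0}.Finite := by
    have h0 : derivative T ≠ 0 := by
      intro h
      have := H.deg
      have h2 := Polynomial.derivative_eq_zero.1 h
      omega
    exact ((derivative T).roots.toFinset.finite_toSet).subset fun c hc => by
      simp only [Finset.mem_coe, Multiset.mem_toFinset]
      exact (Polynomial.mem_roots h0).2 hc
  have hcrit : ∀ c : ℂ, ∃ σ₁ r₁ B : ℝ, (derivative T).eval c = 0 → (derivative (derivative T)).eval c ≠ 0 →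
      ev T c ∈ P → 0 < σ₁ ∧ 0 < r₁ ∧ 0 < B ∧ ∀ (r : ℝ) (S : ℂ[X]) (K : Set ℂ), 0 < r → r ≤ r₁ →
      Nr T r S → Inv S K → ar K univ ≤ 1 → B * r ^ 2 ≤ ar K univ → ∀ σ : ℝ, 0 < σ → σ ≤ σ₁ →
        ar K (ball c σ) ≤ B * (σ ^ 2 * ar K univ + r * √(ar K univ)) := by
    intro c
    by_cases h : (derivative T).eval c = 0 ∧ (derivative (derivative T)).eval c ≠ 0 ∧ ev T c ∈ P
    · obtain ⟨σ₁, r₁, B, h1, h2, h3, h4⟩ := crit_area T H.deg P H.Pfin H.TP N hN c h.1 h.2.1 h.2.2
      exact ⟨σ₁, r₁, B, fun _ _ _ => ⟨h1, h2, h3, h4⟩⟩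
    · exact ⟨1, 1, 1, fun h1 h2 h3 => absurd ⟨h1, h2, h3⟩ h⟩
  choose σc rc Bc hc using hcrit
  obtain ⟨M, hM, hMc⟩ := exists_upper hfin Bc
  refine ⟨4 / c₁ ^ 2 + 144 * M, by positivity, ?_⟩
  intro x hx ε hε
  by_cases hcase : ∀ n, (derivative T).eval ((ev T)^[n] x) ≠ 0
  · obtain ⟨s, hs, hsε, n, hn⟩ := hscale x hx hcase ε hε
    obtain ⟨C, hC, hd⟩ := diff_iter T n x (s := s)
    refine ⟨s, min 1 (c₁ / (2 * s * C)), 1, hs, hsε, by positivity, one_pos, ?_⟩
    intro r S K hr hrr hS hK hA1 hAr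
    have hr1 : r ≤ 1 := hrr.trans (min_le_left _ _)
    have hr2 : C * r ≤ c₁ / (2 * s) := by
      have : r ≤ c₁ / (2 * s * C) := hrr.trans (min_le_right _ _)
      rw [le_div_iff₀ (by positivity)] at this ⊢
      linarith
    have h1 := hK.pull (E := univ) (U := ball x s) isOpen_ball (lam := c₁ / (2 * s)) (by positivity) n
      (fun z hz w hw => by
        have h2 := (hd r S hr1 hS z hz w hw).2
        have h3 := hn z (ball_subset_closedBall hz) w (ball_subset_closedBall hw)
        have h4 : C * r * ‖z - w‖ ≤ c₁ / (2 * s) * ‖z - w‖ := by gcongr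
        have e : c₁ / s * ‖z - w‖ = 2 * (c₁ / (2 * s) * ‖z - w‖) := by
          field_simp
        linarith) (fun z _ => mem_univ _)
    have hA := ar_nonneg K univ
    have e : (c₁ / (2 * s))⁻¹ ^ 2 * ar K univ = 4 / c₁ ^ 2 * s ^ 2 * ar K univ := by
      field_simp
      ring
    rw [e] at h1
    have h2 : 0 ≤ 144 * M * s ^ 2 * ar K univ := by positivity
    have h3 : 0 ≤ 1 * (r * √(ar K univ)) := by positivity
    nlinarith
  · push Not at hcase
    classical
    set j := Nat.find hcase with hj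
    have hjc : (derivative T).eval ((ev T)^[j] x) = 0 := Nat.find_spec hcase
    have hjm : ∀ i < j, (derivative T).eval ((ev T)^[i] x) ≠ 0 := fun i hi => Nat.find_min hcase hi
    set c : ℂ := (ev T)^[j] x with hcdef
    have hcK : c ∈ K₀ := by
      have hK : ∀ n : ℕ, (ev T)^[n] x ∈ K₀ := by
        intro n
        induction n with
        | zero => simpa using hx
        | succ n ih =>
            rw [Function.iterate_succ_apply']
            exact H.fwd _ ih
      exact hK j
    obtain ⟨hvP, hc2⟩ : ev T c ∈ P ∧ (derivative (derivative T)).eval c ≠ 0 := by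
      rcases H.crit c hjc with h | ⟨ε', hε', h⟩
      · exact h
      · have := h 0 c hcK
        simp at this
        linarith
    obtain ⟨hσ, hrc, hBc, hcar⟩ := hc c hjc hc2 hvP
    have hne : deriv (ev T)^[j] x ≠ 0 := deriv_ne hjm
    obtain ⟨ρ₀, hρ₀, hbl⟩ := bilip (it_diff T j) hne
    set l : ℝ := ‖deriv (ev T)^[j] x‖ with hldef
    have hl0 : 0 < l := norm_pos_iff.2 hne
    set s : ℝ := min (ε / 2) (min ρ₀ (σc c / (3 * l))) with hs
    have hs0 : 0 < s := by positivity
    have hsε : s < ε := lt_of_le_of_lt (min_le_left _ _) (by linarith)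
    have hsρ : s ≤ ρ₀ := (min_le_right _ _).trans (min_le_left _ _)
    have hsσ : 3 * l * s ≤ σc c := by
      have : s ≤ σc c / (3 * l) := (min_le_right _ _).trans (min_le_right _ _)
      rw [le_div_iff₀ (by positivity)] at this
      linarith
    obtain ⟨C, hC, hd⟩ := diff_iter T j x (s := s)
    refine ⟨s, min (min 1 (rc c)) (min (l * s / C) (l / (4 * C))), Bc c + 16 * Bc c / l ^ 2, hs0, hsε,
      by positivity, by positivity, ?_⟩
    intro r S K hr hrr hS hK hA1 hAr
    have hr1 : r ≤ 1 := hrr.trans ((min_le_left _ _).trans (min_le_left _ _))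
    have hr2 : r ≤ rc c := hrr.trans ((min_le_left _ _).trans (min_le_right _ _))
    have hr3 : C * r ≤ l * s := by
      have : r ≤ l * s / C := hrr.trans ((min_le_right _ _).trans (min_le_left _ _))
      rw [le_div_iff₀ (by positivity)] at this
      linarith
    have hr4 : C * r ≤ l / 4 := by
      have : r ≤ l / (4 * C) := hrr.trans ((min_le_right _ _).trans (min_le_right _ _))
      rw [le_div_iff₀ (by positivity)] at this
      linarith
    have hA := ar_nonneg K univ
    have hsub : ball x s ⊆ closedBall x ρ₀ := (ball_subset_ball hsρ).trans ball_subset_closedBall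
    have h1 := hK.pull (E := ball c (3 * l * s)) (U := ball x s) isOpen_ball (lam := l / 4) (by positivity) j
      (fun z hz w hw => by
        have h2 := (hd r S hr1 hS z hz w hw).2
        have h3 := (hbl z (hsub hz) w (hsub hw)).1
        have h4 : C * r * ‖z - w‖ ≤ l / 4 * ‖z - w‖ := by gcongr
        linarith) (fun z hz => by
        have h2 := (hd r S hr1 hS z hz z hz).1
        have h3 := (hbl z (hsub hz) x (mem_closedBall_self hρ₀.le)).2
        rw [mem_ball, dist_eq_norm] at hz ⊢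
        have h4 : 2 * l * ‖z - x‖ < 2 * l * s := by gcongr
        calc ‖(ev S)^[j] z - c‖ ≤ ‖(ev S)^[j] z - (ev T)^[j] z‖ + ‖(ev T)^[j] z - c‖ :=
              norm_sub_le_norm_sub_add_norm_sub _ _ _
          _ < 3 * l * s := by linarith)
    have h5 : Bc c * r ^ 2 ≤ ar K univ := by
      refine le_trans ?_ hAr
      have : 0 ≤ 16 * Bc c / l ^ 2 * r ^ 2 := by positivity
      nlinarith
    have h6 := hcar r S K hr hr2 hS hK hA1 h5 (3 * l * s) (by positivity) hsσ
    have h7 : (l / 4)⁻¹ ^ 2 * ar K (ball c (3 * l * s)) ≤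
        (l / 4)⁻¹ ^ 2 * (Bc c * ((3 * l * s) ^ 2 * ar K univ + r * √(ar K univ))) := by gcongr
    have e : (l / 4)⁻¹ ^ 2 * (Bc c * ((3 * l * s) ^ 2 * ar K univ + r * √(ar K univ))) =
        144 * Bc c * s ^ 2 * ar K univ + 16 * Bc c / l ^ 2 * (r * √(ar K univ)) := by
      field_simp
      ring
    rw [e] at h7
    have h8 : 144 * Bc c * s ^ 2 * ar K univ ≤ 144 * M * s ^ 2 * ar K univ := by
      have := hMc c hjc
      gcongr
    have h9 : 0 ≤ 4 / c₁ ^ 2 * s ^ 2 * ar K univ := by positivity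
    have h10 : 0 ≤ Bc c * (r * √(ar K univ)) := by positivity
    nlinarith

/-- The core theorem: invariant sets near `K₀` of the polynomials at distance `r` have area at
most `C * r ^ 2`. -/
theorem Base.core {T : ℂ[X]} {K₀ P : Set ℂ} (H : Base T K₀ P) :
    ∃ (O : Set ℂ) (C r₀ : ℝ), IsOpen O ∧ K₀ ⊆ O ∧ 0 < C ∧ 0 < r₀ ∧
      ∀ (r : ℝ) (S : ℂ[X]) (K : Set ℂ), 0 < r → r ≤ r₀ → Nr T r S → Inv S K → K ⊆ O →
        ar K univ ≤ C * r ^ 2 := by
  classical
  obtain ⟨B, hB, hloc⟩ := H.local_est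
  have hpi := Real.pi_pos
  set η : ℝ := min 1 (Real.pi / (72 * B)) with hη
  have hη0 : 0 < η := by positivity
  have hη1 : η ≤ 1 := min_le_left _ _
  have hηB : 72 * B * η ≤ Real.pi := by
    have : η ≤ Real.pi / (72 * B) := min_le_right _ _
    rw [le_div_iff₀ (by positivity)] at this
    linarith
  obtain ⟨V, hKV, hVo, hV⟩ := K₀.exists_isOpen_lt_of_lt (μ := volume) (ENNReal.ofReal η)
    (by rw [H.null]; exact ENNReal.ofReal_pos.2 hη0)
  have hball : ∀ x ∈ K₀, ∃ ε : ℝ, 0 < ε ∧ ball x ε ⊆ V := fun x hx =>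
    Metric.isOpen_iff.1 hVo x (hKV hx)
  choose! εx hεx hεV using hball
  have hall : ∀ x ∈ K₀, ∃ s r₀ Bx : ℝ, 0 < s ∧ s < εx x ∧ 0 < r₀ ∧ 0 < Bx ∧
      ∀ (r : ℝ) (S : ℂ[X]) (K : Set ℂ), 0 < r → r ≤ r₀ → Nr T r S → Inv S K → ar K univ ≤ 1 →
        Bx * r ^ 2 ≤ ar K univ →
        ar K (ball x s) ≤ B * s ^ 2 * ar K univ + Bx * (r * √(ar K univ)) :=
    fun x hx => hloc x hx (εx x) (hεx x hx)
  choose! s ρ Bx hs hsε hρ hBx hest using hall
  obtain ⟨t, htK, htc⟩ := H.cpt.elim_nhds_subcover (fun x => ball x (s x / 6))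
    (fun x hx => ball_mem_nhds x (by have := hs x hx; positivity))
  obtain ⟨R, hR, hRs⟩ := exists_upper t.finite_toSet (fun a => s a / 6)
  obtain ⟨u, hut, hud, huc⟩ := Vitali.exists_disjoint_subfamily_covering_enlargement_closedBall
    (t : Set ℂ) (fun a : ℂ => a) (fun a => s a / 6) R hRs 5 (by norm_num)
  have hufin : u.Finite := t.finite_toSet.subset hut
  set u' : Finset ℂ := hufin.toFinset with hu'
  have hmem : ∀ a, a ∈ u' ↔ a ∈ u := fun a => hufin.mem_toFinset
  -- the sum of the squares of the radii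
  have hsq : ∑ a ∈ u', s a ^ 2 ≤ 36 * η / Real.pi := by
    have h1 : volume (⋃ a ∈ u', closedBall a (s a / 6)) ≤ ENNReal.ofReal η := by
      refine (measure_mono ?_).trans hV.le
      intro z hz
      simp only [mem_iUnion, exists_prop] at hz
      obtain ⟨a, ha, hza⟩ := hz
      have haK := htK a (hut ((hmem a).1 ha))
      exact hεV a haK (closedBall_subset_ball (by have := hs a haK; have := hsε a haK; linarith) hza)
    rw [measure_biUnion_finset (by
      intro a ha b hb hab
      exact hud ((hmem a).1 ha) ((hmem b).1 hb) hab) (fun a _ => measurableSet_closedBall)] at h1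
    have h2 : ∑ a ∈ u', volume (closedBall a (s a / 6)) =
        ENNReal.ofReal (∑ a ∈ u', Real.pi * (s a / 6) ^ 2) := by
      rw [ENNReal.ofReal_sum_of_nonneg (fun a _ => by positivity)]
      refine Finset.sum_congr rfl fun a ha => ?_
      have haK := htK a (hut ((hmem a).1 ha))
      have := hs a haK
      rw [Complex.volume_closedBall, ← ENNReal.ofReal_pow (by positivity), mul_comm Real.pi,
        ENNReal.ofReal_mul (by positivity)]
      congr 1
      rw [← NNReal.coe_real_pi, ENNReal.ofReal_coe_nnreal]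
    rw [h2, ENNReal.ofReal_le_ofReal_iff hη0.le] at h1
    have h3 : ∑ a ∈ u', Real.pi * (s a / 6) ^ 2 = Real.pi / 36 * ∑ a ∈ u', s a ^ 2 := by
      rw [Finset.mul_sum]
      refine Finset.sum_congr rfl fun a _ => ?_
      ring
    rw [h3] at h1
    rw [le_div_iff₀ hpi]
    linarith
  set O : Set ℂ := ⋃ x ∈ t, ball x (s x / 6) with hO
  have hOV : O ⊆ V := by
    intro z hz
    simp only [hO, mem_iUnion, exists_prop] at hz
    obtain ⟨a, ha, hza⟩ := hz
    have haK := htK a ha
    exact hεV a haK (ball_subset_ball (by have := hs a haK; have := hsε a haK; linarith) hza)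
  obtain ⟨r₀, hr₀, hr₀t⟩ := exists_lower t.finite_toSet (fun a => if a ∈ t then ρ a else 1)
    (fun a => by
      split_ifs with h
      · exact hρ a (htK a h)
      · exact one_pos)
  set M : ℝ := 1 + ∑ a ∈ t, Bx a with hM
  have hBx0 : ∀ a ∈ t, 0 ≤ Bx a := fun a ha => (hBx a (htK a ha)).le
  have hM0 : 0 < M := by
    have := Finset.sum_nonneg hBx0
    linarith
  have hBM : ∀ a ∈ t, Bx a ≤ M := by
    intro a ha
    have := Finset.single_le_sum hBx0 ha
    linarith
  refine ⟨O, M + 4 * M ^ 2, r₀, isOpen_biUnion fun _ _ => isOpen_ball, htc, by positivity, hr₀, ?_⟩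
  intro r S K hr hrr hS hK hKO
  set A : ℝ := ar K univ with hA
  have hA0 : 0 ≤ A := ar_nonneg _ _
  have hA1 : A ≤ 1 := by
    rw [hA]
    unfold ar
    rw [inter_univ]
    have h1 : volume K ≤ ENNReal.ofReal η := (measure_mono (hKO.trans hOV)).trans hV.le
    have h2 := ENNReal.toReal_mono ENNReal.ofReal_ne_top h1
    rw [ENNReal.toReal_ofReal hη0.le] at h2
    linarith
  by_cases hcase : A < M * r ^ 2
  · have : 0 ≤ 4 * M ^ 2 * r ^ 2 := by positivity
    nlinarith
  push Not at hcase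
  have hsum : A ≤ ∑ a ∈ u', ar K (ball a (s a)) := by
    have h1 : ∀ v : Finset ℂ, ar K (⋃ a ∈ v, ball a (s a)) ≤ ∑ a ∈ v, ar K (ball a (s a)) := by
      intro v
      induction v using Finset.induction_on with
      | empty => simp [ar]
      | insert a v ha ih =>
          rw [Finset.sum_insert ha, Finset.set_biUnion_insert]
          exact (hK.union _ _).trans (by linarith)
    refine le_trans ?_ (h1 u')
    have h2 : K ⊆ ⋃ a ∈ u', ball a (s a) := by
      intro z hz
      have hzO := hKO hz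
      simp only [hO, mem_iUnion, exists_prop] at hzO
      obtain ⟨a, ha, hza⟩ := hzO
      obtain ⟨b, hb, hab⟩ := huc a ha
      have hbK := htK b (hut hb)
      have h3 := hab (ball_subset_closedBall hza)
      simp only [mem_iUnion, exists_prop]
      exact ⟨b, (hmem b).2 hb, closedBall_subset_ball (by have := hs b hbK; linarith) h3⟩
    rw [hA]
    unfold ar
    rw [inter_univ, inter_eq_left.2 h2]
  have hest2 : ∀ a ∈ u', ar K (ball a (s a)) ≤ B * A * s a ^ 2 + Bx a * (r * √A) := by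
    intro a ha
    have hat : a ∈ t := hut ((hmem a).1 ha)
    have h1 := hr₀t a hat
    simp only [hat, if_true] at h1
    have h2 := hest a (htK a hat) r S K hr (hrr.trans h1) hS hK hA1 (by
      refine le_trans ?_ hcase
      have := hBM a hat
      gcongr)
    refine h2.trans (le_of_eq ?_)
    ring
  have h3 : A ≤ A / 2 + M * (r * √A) := by
    calc A ≤ ∑ a ∈ u', (B * A * s a ^ 2 + Bx a * (r * √A)) := hsum.trans (Finset.sum_le_sum hest2)
      _ = B * A * ∑ a ∈ u', s a ^ 2 + (∑ a ∈ u', Bx a) * (r * √A) := by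
          rw [Finset.sum_add_distrib, Finset.mul_sum, Finset.sum_mul]
      _ ≤ B * A * (36 * η / Real.pi) + M * (r * √A) := by
          have h4 : ∑ a ∈ u', Bx a ≤ M := by
            have h5 : u' ⊆ t := fun a ha => hut ((hmem a).1 ha)
            have := Finset.sum_le_sum_of_subset_of_nonneg h5 (fun a ha _ => hBx0 a ha)
            linarith
          gcongr
      _ ≤ A / 2 + M * (r * √A) := by
          have h4 : B * (36 * η / Real.pi) ≤ 1 / 2 := by
            rw [mul_div_assoc', div_le_div_iff₀ hpi (by norm_num)]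
            linarith
          nlinarith
  have h4 : √A * √A = A := Real.mul_self_sqrt hA0
  have hq : 0 ≤ √A := Real.sqrt_nonneg _
  have h5 : √A ≤ 2 * M * r := by
    by_contra hcon
    push Not at hcon
    have h6 : 0 < √A := lt_of_le_of_lt (by positivity) hcon
    nlinarith
  have h6 : A ≤ (2 * M * r) ^ 2 := by
    rw [← h4, sq]
    gcongr
  have h7 : 0 ≤ M * r ^ 2 := by positivity
  nlinarith

end Pool.Agent.H20.MZ
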