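import Pool.Agent.H20.MZ.NullA
import Pool.Graph.R_seed8.H713R5.QJ.TOPG
import Pool.Graph.R_seed8.H713R5.QJ.TKO0

/-! # Facts on the dynamics: landing orbits, Fatou's theorem on the sinks -/

set_option autoImplicit false

open Topology Filter Metric Set Polynomial MeasureTheory
open Pool.Agent.H713R5.QJ (ev Sk Good AT)

namespace Pool.Agent.H20.MZ

/-- residues -/
theorem resid {P : ℕ} (hP : 0 < P) {Q : ℕ → Prop} (h : ∀ j < P, ∀ᶠ k in atTop, Q (P * k + j)) :
    ∀ᶠ n in atTop, Q n := by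
  have h1 : ∀ᶠ k in atTop, ∀ j ∈ Finset.range P, Q (P * k + j) := by
    rw [Finset.eventually_all]
    intro j hj
    exact h j (Finset.mem_range.1 hj)
  obtain ⟨k₀, hk₀⟩ := eventually_atTop.1 h1
  filter_upwards [eventually_ge_atTop (P * k₀)] with n hn
  have h2 := hk₀ (n / P) ((Nat.le_div_iff_mul_le hP).2 (by rw [mul_comm]; exact hn)) (n % P)
    (Finset.mem_range.2 (Nat.mod_lt _ hP))
  rwa [Nat.div_add_mod] at h2

/-- a common lower bound -/
theorem common {Q : ℕ → ℝ → Prop} (hmono : ∀ n s t, 0 < s → s ≤ t → Q n t → Q n s)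
    (N : ℕ) (h : ∀ n < N, ∃ σ : ℝ, 0 < σ ∧ Q n σ) : ∃ σ : ℝ, 0 < σ ∧ ∀ n < N, Q n σ := by
  induction N with
  | zero => exact ⟨1, one_pos, by simp⟩
  | succ N ih =>
      obtain ⟨σ, hσ, h1⟩ := ih fun n hn => h n (by omega)
      obtain ⟨τ, hτ, h2⟩ := h N (by omega)
      refine ⟨min σ τ, lt_min hσ hτ, fun n hn => ?_⟩
      rcases Nat.lt_or_ge n N with h3 | h3
      · exact hmono n _ _ (lt_min hσ hτ) (min_le_left _ _) (h1 n h3)
      · obtain rfl : n = N := by omega
        exact hmono n _ _ (lt_min hσ hτ) (min_le_right _ _) h2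

/-- The critical point `c` is simple and lands on a repelling cycle without meeting critical points
on the way. -/
structure LandR (T : ℂ[X]) (c : ℂ) : Prop where
  simple : (derivative (derivative T)).eval c ≠ 0
  later : ∀ k : ℕ, (derivative T).eval ((ev T)^[k + 1] c) ≠ 0
  rep : ∃ M p : ℕ, 0 < p ∧ (ev T)^[p] ((ev T)^[M] c) = (ev T)^[M] c ∧
    1 < ‖deriv (ev T)^[p] ((ev T)^[M] c)‖

theorem deriv_pow {T : ℂ[X]} {p : ℕ} {y : ℂ} (hy : (ev T)^[p] y = y) (q : ℕ) :
    deriv (ev T)^[p * q] y = (deriv (ev T)^[p] y) ^ q := by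
  have hq : ∀ q : ℕ, (ev T)^[p * q] y = y := fun q => by
    rw [Function.iterate_mul]
    exact Function.iterate_fixed hy q
  induction q with
  | zero => simp
  | succ q ih =>
      have e : p * (q + 1) = p + p * q := by ring
      rw [e, deriv_add, hq q, ih, pow_succ, mul_comm]

theorem LandR.orbit {T : ℂ[X]} {c : ℂ} (h : LandR T c) : {z | ∃ k : ℕ, z = (ev T)^[k + 1] c}.Finite := by
  obtain ⟨M, p, hp, hy, -⟩ := h.rep
  refine ((Finset.range (M + p)).finite_toSet.image fun j => (ev T)^[j] c).subset ?_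
  rintro z ⟨k, rfl⟩
  have key : ∀ n : ℕ, ∃ j < M + p, (ev T)^[j] c = (ev T)^[n] c := by
    intro n
    by_cases hn : n < M + p
    · exact ⟨n, hn, rfl⟩
    · push Not at hn
      refine ⟨M + (n - M) % p, by have := Nat.mod_lt (n - M) hp; omega, ?_⟩
      have e1 : (ev T)^[p * ((n - M) / p)] ((ev T)^[M] c) = (ev T)^[M] c := by
        rw [Function.iterate_mul]
        exact Function.iterate_fixed hy _
      have e2 : n = (n - M) % p + (p * ((n - M) / p) + M) := by
        have := Nat.div_add_mod (n - M) p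
        omega
      conv_rhs => rw [e2]
      rw [Function.iterate_add_apply _ ((n - M) % p), Function.iterate_add_apply _ (p * _), e1,
        ← Function.iterate_add_apply, add_comm]
  obtain ⟨j, hj, e⟩ := key (k + 1)
  exact ⟨j, by simpa using hj, e⟩

theorem LandR.grow {T : ℂ[X]} {c : ℂ} (h : LandR T c) (k : ℕ) :
    ∀ᶠ n in atTop, 2 ≤ ‖deriv (ev T)^[n] ((ev T)^[k + 1] c)‖ := by
  obtain ⟨M, p, hp, hy, hm⟩ := h.rep
  set z : ℂ := (ev T)^[k + 1] c with hz
  have hnc : ∀ j n : ℕ, deriv (ev T)^[n] ((ev T)^[j] z) ≠ 0 := by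
    intro j n
    apply deriv_ne
    intro i _
    rw [hz, ← Function.iterate_add_apply, ← Function.iterate_add_apply]
    have e : i + (j + (k + 1)) = i + j + k + 1 := by ring
    have := h.later (i + j + k)
    rw [← e] at this
    rwa [add_assoc]
  -- the point of the cycle
  set z' : ℂ := (ev T)^[M] z with hz'
  have hz'e : z' = (ev T)^[k + 1] ((ev T)^[M] c) := by
    rw [hz', hz, ← Function.iterate_add_apply, ← Function.iterate_add_apply, add_comm]
  have hfix : (ev T)^[p] z' = z' := by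
    rw [hz'e]
    exact Pool.Agent.H713R5.QJ.KO0.fix_iter _ p _ hy _
  have hmul : deriv (ev T)^[p] z' = deriv (ev T)^[p] ((ev T)^[M] c) := by
    rw [hz'e]
    exact Pool.Agent.H713R5.QJ.KO0.deriv_iter _ p (ev_diff T) hp _ hy _
  set lam : ℂ := deriv (ev T)^[p] ((ev T)^[M] c) with hlam
  have key : ∀ᶠ n in atTop, 2 ≤ ‖deriv (ev T)^[n + M] z‖ := by
    apply resid hp
    intro j _
    have h1 : ∀ q : ℕ, deriv (ev T)^[p * q + j + M] z =
        deriv (ev T)^[j] z' * lam ^ q * deriv (ev T)^[M] z := by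
      intro q
      have hq : (ev T)^[p * q] z' = z' := by
        rw [Function.iterate_mul]
        exact Function.iterate_fixed hfix q
      rw [deriv_add, ← hz', add_comm (p * q) j, deriv_add, hq, deriv_pow hfix, hmul]
    have h2 : Tendsto (fun q : ℕ => ‖lam‖ ^ q) atTop atTop := tendsto_pow_atTop_atTop_of_one_lt hm
    have h3 : 0 < ‖deriv (ev T)^[j] z'‖ * ‖deriv (ev T)^[M] z‖ := by
      have e1 := hnc M j
      have e2 := hnc 0 M
      rw [← hz'] at e1
      exact mul_pos (norm_pos_iff.2 e1) (norm_pos_iff.2 (by simpa using e2))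
    have h4 := (h2.const_mul_atTop h3).eventually_ge_atTop 2
    filter_upwards [h4] with q hq
    rw [h1, norm_mul, norm_mul, norm_pow]
    linarith
  obtain ⟨n₀, hn₀⟩ := eventually_atTop.1 key
  filter_upwards [eventually_ge_atTop (n₀ + M)] with n hn
  have := hn₀ (n - M) (by omega)
  rwa [Nat.sub_add_cancel (by omega)] at this

/-- **Fatou's theorem**: a sink attracts a critical point. -/
theorem fatou {T : ℂ[X]} (hT : 2 ≤ T.natDegree) {P : ℕ} {y : ℂ}
    (hy : (ev T)^[P] y = y) (hlt : ‖deriv (ev T)^[P] y‖ < 1) :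
    ∃ c : ℂ, (derivative T).eval c = 0 ∧ ∃ i : ℕ,
      Tendsto (fun k : ℕ => (ev T)^[P * k + i] c) atTop (𝓝 y) := by
  by_contra hcon
  push Not at hcon
  set g : ℂ → ℂ := (ev T)^[P] with hg
  -- attraction near `y`
  obtain ⟨θ, hθ1, hθ2⟩ := exists_between hlt
  have hθ0 : 0 ≤ θ := (norm_nonneg _).trans hθ1.le
  obtain ⟨ρ, hρ, hat⟩ : ∃ ρ : ℝ, 0 < ρ ∧ ∀ w ∈ ball y ρ, ‖g w - y‖ ≤ θ * ‖w - y‖ := by
    have h1 : HasDerivAt g (deriv g y) y := (it_diff T P y).hasDerivAt
    have h2 : ∀ᶠ w in 𝓝 y, ‖g w - g y‖ ≤ θ * ‖w - y‖ := by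
      have h3 := (hasDerivAt_iff_isLittleO.1 h1).def (show 0 < θ - ‖deriv g y‖ by linarith)
      filter_upwards [h3] with w hw
      have h4 : ‖g w - g y‖ ≤ ‖g w - g y - (w - y) • deriv g y‖ + ‖(w - y) • deriv g y‖ := by
        have := norm_add_le (g w - g y - (w - y) • deriv g y) ((w - y) • deriv g y)
        rwa [sub_add_cancel] at this
      rw [norm_smul] at h4
      nlinarith [norm_nonneg (w - y)]
    obtain ⟨ρ, hρ, h3⟩ := Metric.eventually_nhds_iff_ball.1 h2
    refine ⟨ρ, hρ, fun w hw => ?_⟩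
    have := h3 w hw
    rwa [hy] at this
  have hlimw : ∀ w ∈ ball y ρ, Tendsto (fun k : ℕ => (ev T)^[P * k] w) atTop (𝓝 y) := by
    intro w hw
    have h1 : ∀ k : ℕ, (ev T)^[P * k] w ∈ ball y ρ ∧ ‖(ev T)^[P * k] w - y‖ ≤ θ ^ k * ‖w - y‖ := by
      intro k
      induction k with
      | zero => simpa using hw
      | succ k ih =>
          have e : (ev T)^[P * (k + 1)] w = g ((ev T)^[P * k] w) := by
            rw [hg, ← Function.iterate_add_apply]
            congr 1
            ring_nf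
          have h2 := hat _ ih.1
          rw [e]
          refine ⟨?_, ?_⟩
          · rw [mem_ball, dist_eq_norm]
            have h3 := ih.1
            rw [mem_ball, dist_eq_norm] at h3
            nlinarith [norm_nonneg ((ev T)^[P * k] w - y)]
          · calc ‖g ((ev T)^[P * k] w) - y‖ ≤ θ * ‖(ev T)^[P * k] w - y‖ := h2
              _ ≤ θ * (θ ^ k * ‖w - y‖) := by
                  gcongr
                  exact ih.2
              _ = θ ^ (k + 1) * ‖w - y‖ := by rw [pow_succ]; ring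
    rw [tendsto_iff_norm_sub_tendsto_zero]
    refine squeeze_zero (fun k => norm_nonneg _) (fun k => (h1 k).2) ?_
    have := (tendsto_pow_atTop_nhds_zero_of_lt_one hθ0 hθ2).mul_const ‖w - y‖
    simpa using this
  have hyn : ∀ n : ℕ, (ev T)^[P * n] y = y := fun n => by
    rw [Function.iterate_mul]
    exact Function.iterate_fixed hy n
  -- there are no critical values in the disc
  have hcv : ∀ n : ℕ, ∀ z : ℂ, deriv (ev T)^[P * n] z = 0 →
      (ev T)^[P * n] z ∉ ball ((ev T)^[P * n] y) ρ := by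
    intro n z hz hmem
    rw [hyn] at hmem
    obtain ⟨j, hj, hc⟩ := exists_crit hz
    apply hcon _ hc (P * n - j)
    refine (hlimw _ hmem).congr fun k => ?_
    rw [← Function.iterate_add_apply, ← Function.iterate_add_apply]
    congr 1
    omega
  obtain ⟨R₁, hR₁, hesc⟩ := esc_bd hT (‖y‖ + ρ)
  have hbound : ∀ n : ℕ, 1 ≤ R₁ / (ρ / 2) * ‖deriv g y‖ ^ n := by
    intro n
    obtain ⟨φ, h1', h2, h3', h4', hD0, -⟩ := branch_data (T := T) (n := P * n) (x := y) hρ (hcv n)
    rw [hyn] at h1' h2 h3' h4' hD0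
    have hyb : y ∈ ball y ρ := mem_ball_self hρ
    have hDle : ‖deriv φ y‖ ≤ R₁ / (ρ / 2) := by
      apply Complex.norm_deriv_le_of_forall_mem_sphere_norm_le (by positivity)
      · apply DifferentiableOn.diffContOnCl
        rw [closure_ball _ (by positivity)]
        intro v hv
        exact (h4' v (closedBall_subset_ball (by linarith) hv)).differentiableAt.differentiableWithinAt
      · intro v hv
        have hvb : v ∈ ball y ρ := sphere_subset_closedBall.trans (closedBall_subset_ball (by linarith)) hv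
        apply hesc (P * n)
        rw [h1' v hvb]
        rw [mem_ball, dist_eq_norm] at hvb
        have := norm_sub_norm_le v y
        linarith
    rw [(h4' y hyb).deriv, h2, norm_inv, deriv_pow hy, norm_pow, ← hg] at hDle
    have h0 := h3' y hyb
    rw [h2, deriv_pow hy, ← hg] at h0
    have h5 : 0 < ‖deriv g y‖ ^ n := by
      rw [← norm_pow]
      exact norm_pos_iff.2 h0
    rwa [inv_le_iff_one_le_mul₀ h5] at hDle
  have h1 : Tendsto (fun n : ℕ => R₁ / (ρ / 2) * ‖deriv g y‖ ^ n) atTop (𝓝 0) := by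
    have := (tendsto_pow_atTop_nhds_zero_of_lt_one (norm_nonneg (deriv g y)) hlt).const_mul (R₁ / (ρ / 2))
    simpa using this
  obtain ⟨n, hn⟩ := (h1.eventually (gt_mem_nhds (show (0 : ℝ) < 1 by norm_num))).exists
  have := hbound n
  linarith

/-- the orbit of an attracted point -/
theorem sk_tendsto {T : ℂ[X]} {P : ℕ} {z y : ℂ} (h : Sk (ev T) P z y) (j : ℕ) :
    Tendsto (fun k : ℕ => (ev T)^[P * k + j] z) atTop (𝓝 ((ev T)^[j] y)) := by
  have h1 := ((it_cont T j).tendsto y).comp h.2.2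
  refine h1.congr fun k => ?_
  change (ev T)^[j] ((ev T)^[P * k] z) = (ev T)^[P * k + j] z
  rw [← Function.iterate_add_apply, add_comm]

end Pool.Agent.H20.MZ
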