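import Pool.Agent.H20.MZ.Inst
import Pool.Agent.H20.KL.EVF

/-! # The quadratic law near the Misiurewicz polynomials -/

set_option autoImplicit false

open Topology Filter Metric Set Polynomial MeasureTheory
open Pool.Agent.H713R5.QJ (ev Good JS)

namespace Pool.Agent.H20.MZ

/-- uniform bounds for the coefficients near `T` -/
theorem near_bounds {T : ℂ[X]} (hT : 2 ≤ T.natDegree) : ∃ A σ : ℝ, 0 < A ∧ 0 < σ ∧ ∀ S : ℂ[X],
    S.natDegree = T.natDegree → (∀ j : ℕ, ‖S.coeff j - T.coeff j‖ ≤ σ) →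
    (∀ j : ℕ, ‖S.coeff j‖ ≤ A) ∧ 1 / A ≤ ‖S.leadingCoeff‖ := by
  have hlead : 0 < ‖T.leadingCoeff‖ := by
    rw [norm_pos_iff, Polynomial.leadingCoeff_ne_zero]
    intro h0
    rw [h0, natDegree_zero] at hT
    omega
  set M : ℝ := ∑ j ∈ Finset.range (T.natDegree + 1), ‖T.coeff j‖ with hM
  have hM0 : 0 ≤ M := Finset.sum_nonneg fun _ _ => norm_nonneg _
  have hMj : ∀ j : ℕ, ‖T.coeff j‖ ≤ M := by
    intro j
    by_cases hj : j < T.natDegree + 1
    · exact Finset.single_le_sum (f := fun j => ‖T.coeff j‖) (fun _ _ => norm_nonneg _)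
        (Finset.mem_range.2 hj)
    · rw [coeff_eq_zero_of_natDegree_lt (by omega), norm_zero]
      exact hM0
  refine ⟨max (M + 1) (2 / ‖T.leadingCoeff‖), min 1 (‖T.leadingCoeff‖ / 2), by positivity, by positivity,
    fun S hS hco => ⟨fun j => ?_, ?_⟩⟩
  · have h1 := norm_sub_norm_le (S.coeff j) (T.coeff j)
    have h2 := (hco j).trans (min_le_left _ _)
    have h3 := hMj j
    exact le_trans (by linarith) (le_max_left _ _)
  · have h1 : ‖T.leadingCoeff‖ / 2 ≤ ‖S.leadingCoeff‖ := by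
      have h2 := (hco T.natDegree).trans (min_le_right _ _)
      have h3 := norm_sub_norm_le (T.coeff T.natDegree) (S.coeff T.natDegree)
      rw [norm_sub_rev] at h3
      rw [Polynomial.leadingCoeff, Polynomial.leadingCoeff, hS] at *
      linarith
    refine le_trans ?_ h1
    rw [div_le_iff₀ (by positivity)]
    calc (1 : ℝ) = ‖T.leadingCoeff‖ / 2 * (2 / ‖T.leadingCoeff‖) := by field_simp
      _ ≤ ‖T.leadingCoeff‖ / 2 * max (M + 1) (2 / ‖T.leadingCoeff‖) := by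
          gcongr
          exact le_max_right _ _

/-- **The quadratic law, all sinks allowed.** -/
theorem quadG {T : ℂ[X]} (hT : 2 ≤ T.natDegree)
    (hc : ∀ c, (derivative T).eval c = 0 → Good (ev T) c ∨ LandR T c) :
    ∃ C r₀ : ℝ, 0 < C ∧ 0 < r₀ ∧ ∀ r : ℝ, 0 < r → r < r₀ → ∀ S : ℂ[X], S.natDegree = T.natDegree →
      (∀ j, ‖S.coeff j - T.coeff j‖ ≤ r) →
      volume {z | ¬ Good (ev S) z} ≤ ENNReal.ofReal (C * r ^ 2) ∧
      ∃ Q : ℂ[X], Q.natDegree = T.natDegree ∧ Q.leadingCoeff = S.leadingCoeff ∧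
        (∀ j, ‖Q.coeff j - S.coeff j‖ ≤ C * r ^ 2) ∧
        ∀ c, (derivative Q).eval c = 0 → Good (ev Q) c := by
  obtain ⟨C, r₁, hC, hr₁, h1⟩ := (kindG hT).area hT hc
  obtain ⟨A, σ, hA, hσ, hAσ⟩ := near_bounds hT
  obtain ⟨C₂, hC₂, h2⟩ := Pool.Agent.H20.JL.vtl T.natDegree A hT hA
  refine ⟨C₂ * C + C + 1, min r₁ σ, by positivity, lt_min hr₁ hσ, fun r hr hr0 S hS hco => ?_⟩
  have h3 := h1 r hr (hr0.trans_le (min_le_left _ _)) S hS hco
  obtain ⟨e1, e2⟩ := hAσ S hS fun j => (hco j).trans (hr0.le.trans (min_le_right _ _))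
  obtain ⟨-, h4⟩ := h2 S hS e1 e2
  have hr2 : 0 < r ^ 2 := by positivity
  refine ⟨h3.trans (ENNReal.ofReal_le_ofReal ?_), ?_⟩
  · have : 0 ≤ C₂ * C * r ^ 2 := by positivity
    nlinarith
  · have h5 : (volume (JS S)).toReal ≤ C * r ^ 2 := by
      have h6 : JS S ⊆ {z | ¬ Good (ev S) z} := fun z hz hg => hz (Or.inl hg)
      have h7 := ENNReal.toReal_mono ENNReal.ofReal_ne_top ((measure_mono h6).trans h3)
      rwa [ENNReal.toReal_ofReal (by positivity)] at h7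
    obtain ⟨Q, q1, q2, q3, q4⟩ := h4 ((C₂ * C + C + 1) * r ^ 2) (by
      have : C₂ * (volume (JS S)).toReal ≤ C₂ * (C * r ^ 2) := by gcongr
      nlinarith)
    exact ⟨Q, q1.trans hS, q2, fun j => (q3 j).le, q4⟩

/-- **The quadratic law, no critical point attracted by a sink.** -/
theorem quadE {T : ℂ[X]} (hT : 2 ≤ T.natDegree)
    (hc : ∀ c, (derivative T).eval c = 0 → GE T c ∨ LandR T c) :
    ∃ C r₀ : ℝ, 0 < C ∧ 0 < r₀ ∧ ∀ r : ℝ, 0 < r → r < r₀ → ∀ S : ℂ[X], S.natDegree = T.natDegree →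
      (∀ j, ‖S.coeff j - T.coeff j‖ ≤ r) →
      volume {z | ¬ GE S z} ≤ ENNReal.ofReal (C * r ^ 2) ∧
      ∃ Q : ℂ[X], Q.natDegree = T.natDegree ∧ Q.leadingCoeff = S.leadingCoeff ∧
        (∀ j, ‖Q.coeff j - S.coeff j‖ ≤ C * r ^ 2) ∧
        ∀ c, (derivative Q).eval c = 0 → GE Q c := by
  obtain ⟨C, r₁, hC, hr₁, h1⟩ := (kindE hT).area hT hc
  obtain ⟨A, σ, hA, hσ, hAσ⟩ := near_bounds hT
  obtain ⟨C₂, hC₂, h2⟩ := Pool.Agent.H20.KL.mainE T.natDegree A hT hA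
  refine ⟨C₂ * C + C + 1, min r₁ σ, by positivity, lt_min hr₁ hσ, fun r hr hr0 S hS hco => ?_⟩
  have h3 := h1 r hr (hr0.trans_le (min_le_left _ _)) S hS hco
  obtain ⟨e1, e2⟩ := hAσ S hS fun j => (hco j).trans (hr0.le.trans (min_le_right _ _))
  obtain ⟨-, h4⟩ := h2 S hS e1 e2
  have hr2 : 0 < r ^ 2 := by positivity
  refine ⟨h3.trans (ENNReal.ofReal_le_ofReal ?_), ?_⟩
  · have : 0 ≤ C₂ * C * r ^ 2 := by positivity
    nlinarith
  · have h5 : (volume {z | ¬ GE S z}).toReal ≤ C * r ^ 2 := by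
      have h7 := ENNReal.toReal_mono ENNReal.ofReal_ne_top h3
      rwa [ENNReal.toReal_ofReal (by positivity)] at h7
    obtain ⟨Q, q1, q2, q3, q4⟩ := h4 ((C₂ * C + C + 1) * r ^ 2) (by
      have : C₂ * (volume {z | ¬ GE S z}).toReal ≤ C₂ * (C * r ^ 2) := by gcongr
      refine lt_of_le_of_lt this ?_
      nlinarith)
    exact ⟨Q, q1.trans hS, q2, fun j => (q3 j).le, q4⟩

end Pool.Agent.H20.MZ
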