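import Pool.Agent.H20.MZ.Dyn
import Pool.Agent.H20.MZ.Cov

/-! # The quadratic bound of the area -/

set_option autoImplicit false

open Topology Filter Metric Set Polynomial MeasureTheory
open Pool.Agent.H713R5.QJ (ev Sk Good AT)

namespace Pool.Agent.H20.MZ

/-- A class of points (`G S z`: the point `z` is good for `S`) which is stable near `T`. -/
structure Kind (T : ℂ[X]) (G : ℂ[X] → ℂ → Prop) : Prop where
  stab : ∀ S : ℂ[X], 2 ≤ S.natDegree → ∀ z, G S z → ∃ σ : ℝ, 0 < σ ∧ ∀ S' : ℂ[X],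
    S'.natDegree = S.natDegree → (∀ j, ‖S'.coeff j - S.coeff j‖ < σ) → ∀ z' ∈ ball z σ, G S' z'
  inv : ∀ S : ℂ[X], ∀ z, G S (ev S z) → G S z
  esc : ∀ S : ℂ[X], ∀ z, Tendsto (fun k : ℕ => ‖(ev S)^[k] z‖) atTop atTop → G S z
  ret : ∃ δ : ℝ, 0 < δ ∧ ∀ z, G T z → ∀ᶠ n in atTop, ∀ x, ¬ G T x → δ ≤ ‖(ev T)^[n] z - x‖
  away : ∀ c, (derivative T).eval c = 0 → G T c → ∃ ε : ℝ, 0 < ε ∧ ∀ n : ℕ, ∀ x, ¬ G T x →
    ε ≤ ‖(ev T)^[n] c - x‖
  lim : ∀ z, G T z → ∀ m : ℕ → ℕ, Tendsto m atTop atTop →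
    Tendsto (fun j => (ev T)^[m j] z) atTop (𝓝 z) → ∃ p : ℕ, 0 < p ∧ (ev T)^[p] z = z

variable {T : ℂ[X]} {G : ℂ[X] → ℂ → Prop}

/-- uniform radius -/
theorem Kind.radius (H : Kind T G) (hT : 2 ≤ T.natDegree) : ∃ R σ : ℝ, 0 < R ∧ 0 < σ ∧ ∀ S : ℂ[X],
    S.natDegree = T.natDegree → (∀ j : ℕ, ‖S.coeff j - T.coeff j‖ < σ) →
    ∀ z : ℂ, ¬ G S z → ‖z‖ ≤ R := by
  obtain ⟨R, σ, hR, hσ, h⟩ := Pool.Agent.H713R5.QJ.USCGaux.radius T hT
  refine ⟨R, σ, hR, hσ, fun S hS hco z hz => ?_⟩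
  by_contra hcon
  push Not at hcon
  apply hz
  apply H.esc
  have hk : ∀ k : ℕ, 2 ^ k * R ≤ ‖(ev S)^[k] z‖ := by
    intro k
    induction k with
    | zero => simpa using hcon.le
    | succ k ih =>
      rw [Function.iterate_succ_apply']
      have h1 : R ≤ ‖(ev S)^[k] z‖ := by
        refine le_trans ?_ ih
        have : (1 : ℝ) ≤ 2 ^ k := one_le_pow₀ (by norm_num)
        nlinarith
      have h2 : 2 * ‖(ev S)^[k] z‖ ≤ ‖ev S ((ev S)^[k] z)‖ := h S hS hco _ h1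
      rw [pow_succ]
      linarith
  apply tendsto_atTop_mono hk
  exact (tendsto_pow_atTop_atTop_of_one_lt (by norm_num : (1 : ℝ) < 2)).atTop_mul_const hR

theorem Kind.closed (H : Kind T G) {S : ℂ[X]} (hS : 2 ≤ S.natDegree) : IsClosed {z | ¬ G S z} := by
  rw [← isOpen_compl_iff, isOpen_iff_mem_nhds]
  intro z hz
  simp only [mem_compl_iff, mem_ofPred_eq, not_not] at hz
  obtain ⟨σ, hσ, h⟩ := H.stab S hS z hz
  filter_upwards [ball_mem_nhds z hσ] with z' hz'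
  simp only [mem_compl_iff, mem_ofPred_eq, not_not]
  exact h S rfl (fun j => by simpa using hσ) z' hz'

theorem Kind.invS (H : Kind T G) (hT : 2 ≤ T.natDegree) : ∃ σ : ℝ, 0 < σ ∧ ∀ S : ℂ[X],
    S.natDegree = T.natDegree → (∀ j : ℕ, ‖S.coeff j - T.coeff j‖ < σ) → Inv S {z | ¬ G S z} := by
  obtain ⟨R, σ, hR, hσ, h⟩ := H.radius hT
  refine ⟨σ, hσ, fun S hS hco => ⟨fun z hz hg => hz (H.inv S z hg),
    (H.closed (by rw [hS]; exact hT)).measurableSet, ?_⟩⟩
  refine lt_of_le_of_lt (measure_mono (t := closedBall 0 R) fun z hz => ?_) measure_closedBall_lt_top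
  simpa using h S hS hco z hz

/-- the bad sets of the nearby polynomials are near the bad set -/
theorem Kind.usc (H : Kind T G) (hT : 2 ≤ T.natDegree) {O : Set ℂ} (hO : IsOpen O)
    (hKO : {z | ¬ G T z} ⊆ O) : ∃ σ : ℝ, 0 < σ ∧ ∀ S : ℂ[X],
    S.natDegree = T.natDegree → (∀ j : ℕ, ‖S.coeff j - T.coeff j‖ < σ) → {z | ¬ G S z} ⊆ O := by
  obtain ⟨R, σ₁, hR, hσ₁, hrad⟩ := H.radius hT
  have hcomp : IsCompact (closedBall (0 : ℂ) R \ O) := (isCompact_closedBall _ _).diff hO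
  have hg : ∀ z ∈ closedBall (0 : ℂ) R \ O, ∃ σ : ℝ, 0 < σ ∧ ∀ S' : ℂ[X],
      S'.natDegree = T.natDegree → (∀ j, ‖S'.coeff j - T.coeff j‖ < σ) → ∀ z' ∈ ball z σ, G S' z' := by
    intro z hz
    apply H.stab T hT
    by_contra hcon
    exact hz.2 (hKO hcon)
  choose! σ hσ hst using hg
  obtain ⟨t, ht, htc⟩ := hcomp.elim_nhds_subcover (fun z => ball z (σ z))
    (fun z hz => ball_mem_nhds z (hσ z hz))
  obtain ⟨δ, hδ, hδt⟩ := exists_lower t.finite_toSet (fun z => if 0 < σ z then σ z else 1) (fun z => by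
    split_ifs with h
    · exact h
    · exact one_pos)
  refine ⟨min σ₁ δ, lt_min hσ₁ hδ, fun S hS hco z hz => ?_⟩
  have h1 : ‖z‖ ≤ R := hrad S hS (fun j => (hco j).trans_le (min_le_left _ _)) z hz
  by_contra hzO
  have h2 := htc ⟨by simpa using h1, hzO⟩
  simp only [mem_iUnion, exists_prop] at h2
  obtain ⟨w, hw, hzw⟩ := h2
  have hwt := ht w hw
  have h3 := hδt w hw
  simp only [hσ w hwt, if_true] at h3
  exact hz (hst w hwt S hS (fun j => (hco j).trans_le ((min_le_right _ _).trans h3)) z hzw)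

/-- the forward orbits of the bad critical points -/
def PS (T : ℂ[X]) (G : ℂ[X] → ℂ → Prop) : Set ℂ :=
  {z | ∃ c, (derivative T).eval c = 0 ∧ ¬ G T c ∧ ∃ k : ℕ, z = (ev T)^[k + 1] c}

theorem Kind.full (H : Kind T G) (hT : 2 ≤ T.natDegree)
    (hc : ∀ c, (derivative T).eval c = 0 → G T c ∨ LandR T c) : Full T {z | ¬ G T z} (PS T G) where
  deg := hT
  cpt := by
    obtain ⟨R, σ, hR, hσ, h⟩ := H.radius hT
    refine Metric.isCompact_of_isClosed_isBounded (H.closed hT) ?_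
    refine isBounded_closedBall.subset (t := closedBall 0 R) fun z hz => ?_
    simpa using h T rfl (fun j => by simpa using hσ) z hz
  fwd := fun z hz hg => hz (H.inv T z hg)
  Pfin := by
    have h1 : PS T G ⊆ ⋃ c ∈ {c : ℂ | (derivative T).eval c = 0},
        {z | ¬ G T c ∧ ∃ k : ℕ, z = (ev T)^[k + 1] c} := by
      rintro z ⟨c, h1, h2, h3⟩
      simp only [mem_iUnion, exists_prop]
      exact ⟨c, h1, h2, h3⟩
    refine ((crit_fin hT).biUnion fun c h2 => ?_).subset h1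
    rcases hc c h2 with h3 | h3
    · have : {z | ¬ G T c ∧ ∃ k : ℕ, z = (ev T)^[k + 1] c} = ∅ := by
        ext z
        simp [h3]
      rw [this]
      exact finite_empty
    · exact h3.orbit.subset fun z hz => hz.2
  TP := by
    rintro z ⟨c, h1, h2, k, rfl⟩
    refine ⟨c, h1, h2, k + 1, ?_⟩
    rw [← Function.iterate_succ_apply' (ev T)]
  exp := by
    have hfin : (PS T G).Finite := by
      have h1 : PS T G ⊆ ⋃ c ∈ {c : ℂ | (derivative T).eval c = 0},
          {z | ¬ G T c ∧ ∃ k : ℕ, z = (ev T)^[k + 1] c} := by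
        rintro z ⟨c, h1, h2, h3⟩
        simp only [mem_iUnion, exists_prop]
        exact ⟨c, h1, h2, h3⟩
      refine ((crit_fin hT).biUnion fun c h2 => ?_).subset h1
      rcases hc c h2 with h3 | h3
      · have : {z | ¬ G T c ∧ ∃ k : ℕ, z = (ev T)^[k + 1] c} = ∅ := by
          ext z
          simp [h3]
        rw [this]
        exact finite_empty
      · exact h3.orbit.subset fun z hz => hz.2
    have h2 : ∀ᶠ n in atTop, ∀ z ∈ PS T G, 2 ≤ ‖deriv (ev T)^[n] z‖ := by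
      rw [eventually_all_finite hfin]
      rintro z ⟨c, h1, h2, k, rfl⟩
      rcases hc c h1 with h3 | h3
      · exact absurd h3 h2
      · exact h3.grow k
    exact h2.exists
  crit := by
    intro c h1
    by_cases hg : G T c
    · obtain ⟨ε, hε, h⟩ := H.away c h1 hg
      exact Or.inr ⟨ε, hε, fun n x hx => h n x hx⟩
    · rcases hc c h1 with h3 | h3
      · exact absurd h3 hg
      · exact Or.inl ⟨⟨c, h1, hg, 0, by simp⟩, h3.simple⟩
  ret := by
    obtain ⟨δ, hδ, h⟩ := H.ret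
    refine ⟨δ, hδ, fun z hz hg => hz ?_⟩
    filter_upwards [h z hg] with n hn
    rintro ⟨x, hx, h1⟩
    have := hn x hx
    linarith
  lim := fun z hz => H.lim z (not_not.1 hz)

/-- The quadratic bound. -/
theorem Kind.area (H : Kind T G) (hT : 2 ≤ T.natDegree)
    (hc : ∀ c, (derivative T).eval c = 0 → G T c ∨ LandR T c) :
    ∃ C r₀ : ℝ, 0 < C ∧ 0 < r₀ ∧ ∀ r : ℝ, 0 < r → r < r₀ → ∀ S : ℂ[X], S.natDegree = T.natDegree →
      (∀ j, ‖S.coeff j - T.coeff j‖ ≤ r) → volume {z | ¬ G S z} ≤ ENNReal.ofReal (C * r ^ 2) := by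
  obtain ⟨O, C, r₁, hO, hKO, hC, hr₁, hcore⟩ := (H.full hT hc).base.core
  obtain ⟨σ₁, hσ₁, h1⟩ := H.invS hT
  obtain ⟨σ₂, hσ₂, h2⟩ := H.usc hT hO hKO
  refine ⟨C, min r₁ (min σ₁ σ₂), hC, by positivity, fun r hr hr0 S hS hco => ?_⟩
  have e1 : r ≤ r₁ := hr0.le.trans (min_le_left _ _)
  have e2 : r < σ₁ := hr0.trans_le ((min_le_right _ _).trans (min_le_left _ _))
  have e3 : r < σ₂ := hr0.trans_le ((min_le_right _ _).trans (min_le_right _ _))
  have hI := h1 S hS fun j => (hco j).trans_lt e2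
  have h3 := hcore r S _ hr e1 ⟨hS, hco⟩ hI (h2 S hS fun j => (hco j).trans_lt e3)
  unfold ar at h3
  rw [inter_univ] at h3
  rw [← ENNReal.ofReal_toReal hI.fin.ne]
  exact ENNReal.ofReal_le_ofReal h3

/-! ### The two classes -/

/-- the escaping points -/
def GE (S : ℂ[X]) (z : ℂ) : Prop := Tendsto (fun k : ℕ => ‖(ev S)^[k] z‖) atTop atTop

theorem ge_large {S : ℂ[X]} {R : ℝ} (hR : 0 < R) (h : ∀ w : ℂ, R ≤ ‖w‖ → 2 * ‖w‖ ≤ ‖S.eval w‖)
    {z : ℂ} (hz : R ≤ ‖z‖) : GE S z := by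
  have hk' : ∀ i : ℕ, 2 ^ i * R ≤ ‖(ev S)^[i] z‖ := by
    intro i
    induction i with
    | zero => simpa using hz
    | succ i ih =>
      rw [Function.iterate_succ_apply']
      have h7 : R ≤ ‖(ev S)^[i] z‖ := by
        refine le_trans ?_ ih
        have : (1 : ℝ) ≤ 2 ^ i := one_le_pow₀ (by norm_num)
        nlinarith
      have h8 : 2 * ‖(ev S)^[i] z‖ ≤ ‖ev S ((ev S)^[i] z)‖ := h _ h7
      rw [pow_succ]
      linarith
  apply tendsto_atTop_mono hk'
  exact (tendsto_pow_atTop_atTop_of_one_lt (by norm_num : (1 : ℝ) < 2)).atTop_mul_const hR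

theorem far_bad {K : Set ℂ} {R : ℝ} (hR : ∀ z ∈ K, ‖z‖ ≤ R) {u : ℕ → ℂ}
    (hu : Tendsto (fun k => ‖u k‖) atTop atTop) : ∀ᶠ n in atTop, ∀ x ∈ K, 1 ≤ ‖u n - x‖ := by
  filter_upwards [hu.eventually_ge_atTop (R + 1)] with n hn x hx
  have h1 := norm_sub_norm_le (u n) x
  have h2 := hR x hx
  linarith

/-- orbits which are eventually far from a closed set and never meet it -/
theorem away_of {K : Set ℂ} (hK : IsClosed K) {u : ℕ → ℂ} (hu : ∀ n, u n ∉ K) {δ : ℝ} (hδ : 0 < δ)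
    (h : ∀ᶠ n in atTop, ∀ x ∈ K, δ ≤ ‖u n - x‖) : ∃ ε : ℝ, 0 < ε ∧ ∀ n : ℕ, ∀ x ∈ K, ε ≤ ‖u n - x‖ := by
  obtain ⟨N, hN⟩ := eventually_atTop.1 h
  obtain ⟨σ, hσ, h1⟩ := common (Q := fun n s => ∀ x ∈ K, s ≤ ‖u n - x‖)
    (fun n s t _ hst h x hx => hst.trans (h x hx)) N (fun n _ => by
      obtain ⟨s, hs, hs2⟩ := Metric.isOpen_iff.1 hK.isOpen_compl (u n) (hu n)
      refine ⟨s, hs, fun x hx => ?_⟩
      by_contra hcon
      push Not at hcon
      exact hs2 (show x ∈ ball (u n) s by rw [mem_ball, dist_eq_norm, norm_sub_rev]; exact hcon) hx)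
  refine ⟨min σ δ, lt_min hσ hδ, fun n x hx => ?_⟩
  rcases Nat.lt_or_ge n N with h2 | h2
  · exact (min_le_left _ _).trans (h1 n h2 x hx)
  · exact (min_le_right _ _).trans (hN n h2 x hx)

theorem ge_step (S : ℂ[X]) (z : ℂ) : GE S (ev S z) ↔ GE S z := by
  unfold GE
  have e : (fun k : ℕ => ‖(ev S)^[k] (ev S z)‖) = fun k : ℕ => ‖(ev S)^[k + 1] z‖ := by
    funext k
    rw [← Function.iterate_succ_apply]
  rw [e]
  exact tendsto_add_atTop_iff_nat (f := fun k : ℕ => ‖(ev S)^[k] z‖) 1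

theorem ge_iter (S : ℂ[X]) (z : ℂ) (k : ℕ) : GE S ((ev S)^[k] z) ↔ GE S z := by
  induction k with
  | zero => rfl
  | succ k ih => rw [Function.iterate_succ_apply', ge_step, ih]

theorem ge_stab (S : ℂ[X]) (hS : 2 ≤ S.natDegree) (z : ℂ) (hz : GE S z) : ∃ σ : ℝ, 0 < σ ∧
    ∀ S' : ℂ[X], S'.natDegree = S.natDegree → (∀ j, ‖S'.coeff j - S.coeff j‖ < σ) →
      ∀ z' ∈ ball z σ, GE S' z' := by
  obtain ⟨R, σ, hR, hσ, h⟩ := Pool.Agent.H713R5.QJ.USCGaux.radius S hS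
  obtain ⟨k, hk⟩ := (hz.eventually_gt_atTop (R + 1)).exists
  obtain ⟨C, hC, hn⟩ := near_iter S k (‖z‖ + 1)
  have hcz : ∀ᶠ z' in 𝓝 z, R + 1 < ‖(ev S)^[k] z'‖ :=
    (it_cont S k).norm.continuousAt.eventually (lt_mem_nhds hk)
  obtain ⟨ρ, hρ, hball⟩ := Metric.eventually_nhds_iff_ball.1 hcz
  refine ⟨min (min 1 ρ) (min σ (1 / C)), by positivity, fun S' hS' hco z' hz' => ?_⟩
  have e1 : min (min 1 ρ) (min σ (1 / C)) ≤ 1 := (min_le_left _ _).trans (min_le_left _ _)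
  have e2 : min (min 1 ρ) (min σ (1 / C)) ≤ ρ := (min_le_left _ _).trans (min_le_right _ _)
  have e3 : min (min 1 ρ) (min σ (1 / C)) ≤ σ := (min_le_right _ _).trans (min_le_left _ _)
  have e4 : min (min 1 ρ) (min σ (1 / C)) ≤ 1 / C := (min_le_right _ _).trans (min_le_right _ _)
  have h1 := hball z' (ball_subset_ball e2 hz')
  have hz'n : ‖z'‖ ≤ ‖z‖ + 1 := by
    have h2 := ball_subset_ball e1 hz'
    rw [mem_ball, dist_eq_norm] at h2
    have := norm_sub_norm_le z' z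
    linarith
  have h2 := hn _ S' e1 ⟨hS', fun j => (hco j).le⟩ z' hz'n
  have h3 : C * min (min 1 ρ) (min σ (1 / C)) ≤ 1 := by
    calc C * min (min 1 ρ) (min σ (1 / C)) ≤ C * (1 / C) := by gcongr
      _ = 1 := by field_simp
  have h4 : R ≤ ‖(ev S')^[k] z'‖ := by
    have h5 := norm_sub_norm_le ((ev S)^[k] z') ((ev S')^[k] z')
    rw [norm_sub_rev] at h5
    linarith
  exact (ge_iter S' z' k).1 (ge_large hR (h S' hS' fun j => (hco j).trans_le e3) h4)

theorem ge_closed {S : ℂ[X]} (hS : 2 ≤ S.natDegree) : IsClosed {z | ¬ GE S z} := by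
  rw [← isOpen_compl_iff, isOpen_iff_mem_nhds]
  intro z hz
  simp only [mem_compl_iff, mem_ofPred_eq, not_not] at hz
  obtain ⟨σ, hσ, h⟩ := ge_stab S hS z hz
  filter_upwards [ball_mem_nhds z hσ] with z' hz'
  simp only [mem_compl_iff, mem_ofPred_eq, not_not]
  exact h S rfl (fun j => by simpa using hσ) z' hz'

/-- the points which are not good for any class containing the escaping points are bounded -/
theorem bad_bd (hT : 2 ≤ T.natDegree) (hesc : ∀ z, GE T z → G T z) : ∃ R : ℝ, 0 < R ∧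
    ∀ z ∈ {z | ¬ G T z}, ‖z‖ ≤ R := by
  obtain ⟨R, σ, hR, hσ, h⟩ := Pool.Agent.H713R5.QJ.USCGaux.radius T hT
  refine ⟨R, hR, fun z hz => ?_⟩
  by_contra hcon
  push Not at hcon
  exact hz (hesc z (ge_large hR (h T rfl fun j => by simpa using hσ) hcon.le))

theorem kindE (hT : 2 ≤ T.natDegree) : Kind T GE where
  stab := ge_stab
  inv := fun S z h => (ge_step S z).1 h
  esc := fun S z h => h
  ret := by
    obtain ⟨R, hR, hb⟩ := bad_bd (G := GE) hT fun z hz => hz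
    exact ⟨1, one_pos, fun z hz => far_bad hb hz⟩
  away := by
    intro c _ hc
    obtain ⟨R, hR, hb⟩ := bad_bd (G := GE) hT fun z hz => hz
    exact away_of (ge_closed hT) (fun n h => h ((ge_iter T c n).2 hc)) one_pos (far_bad hb hc)
  lim := by
    intro z hz m hm hlim
    exact absurd hlim.norm (not_tendsto_nhds_of_tendsto_atTop (hz.comp hm) _)

/-- the good points -/
def GG (S : ℂ[X]) (z : ℂ) : Prop := Good (ev S) z

theorem gg_step (S : ℂ[X]) (z : ℂ) : GG S (ev S z) ↔ GG S z := by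
  unfold GG Good
  refine or_congr (ge_step S z) (exists_congr fun P => and_congr_right fun hP => ?_)
  exact (Pool.Agent.H713R5.QJ.ko0_holds (ev S) P (ev_diff S) hP).2.2.1 z

theorem gg_iter (S : ℂ[X]) (z : ℂ) (k : ℕ) : GG S ((ev S)^[k] z) ↔ GG S z := by
  induction k with
  | zero => rfl
  | succ k ih => rw [Function.iterate_succ_apply', gg_step, ih]

theorem gg_stab (S : ℂ[X]) (hS : 2 ≤ S.natDegree) (z : ℂ) (hz : GG S z) : ∃ σ : ℝ, 0 < σ ∧
    ∀ S' : ℂ[X], S'.natDegree = S.natDegree → (∀ j, ‖S'.coeff j - S.coeff j‖ < σ) →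
      ∀ z' ∈ ball z σ, GG S' z' :=
  Pool.Agent.H713R5.QJ.opg_holds S z hS hz

theorem gg_closed {S : ℂ[X]} (hS : 2 ≤ S.natDegree) : IsClosed {z | ¬ GG S z} := by
  rw [← isOpen_compl_iff, isOpen_iff_mem_nhds]
  intro z hz
  simp only [mem_compl_iff, mem_ofPred_eq, not_not] at hz
  obtain ⟨σ, hσ, h⟩ := gg_stab S hS z hz
  filter_upwards [ball_mem_nhds z hσ] with z' hz'
  simp only [mem_compl_iff, mem_ofPred_eq, not_not]
  exact h S rfl (fun j => by simpa using hσ) z' hz'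

theorem sk_gg {P : ℕ} (hP : 0 < P) {u y : ℂ} (h : Sk (ev T) P u y) (j : ℕ) : GG T ((ev T)^[j] y) := by
  rw [gg_iter]
  exact Or.inr ⟨P, hP, y, (Pool.Agent.H713R5.QJ.ko0_holds (ev T) P (ev_diff T) hP).2.2.2.2 y h.1 h.2.1⟩

/-- orbits of attracted points are eventually at a distance from the bad set -/
theorem sk_far {P : ℕ} (hP : 0 < P) {u y : ℂ} (h : Sk (ev T) P u y) {K : Set ℂ} {δ : ℝ} (hδ : 0 < δ)
    (hy : ∀ j < P, ∀ x ∈ K, δ ≤ ‖(ev T)^[j] y - x‖) :
    ∀ᶠ n in atTop, ∀ x ∈ K, δ / 2 ≤ ‖(ev T)^[n] u - x‖ := by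
  apply resid hP
  intro j hj
  filter_upwards [(sk_tendsto h j).eventually (ball_mem_nhds _ (half_pos hδ))] with k hk x hx
  have h1 := hy j hj x hx
  rw [dist_eq_norm] at hk
  have h2 := norm_sub_le_norm_sub_add_norm_sub ((ev T)^[j] y) ((ev T)^[P * k + j] u) x
  rw [norm_sub_rev ((ev T)^[j] y) ((ev T)^[P * k + j] u)] at h2
  linarith

theorem gg_far (hT : 2 ≤ T.natDegree) {u : ℂ} (hu : GG T u) : ∃ δ : ℝ, 0 < δ ∧
    ∀ᶠ n in atTop, ∀ x ∈ {z | ¬ GG T z}, δ ≤ ‖(ev T)^[n] u - x‖ := by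
  rcases hu with h | ⟨P, hP, y, h⟩
  · obtain ⟨R, hR, hb⟩ := bad_bd (G := GG) hT fun z hz => Or.inl hz
    exact ⟨1, one_pos, far_bad hb h⟩
  · obtain ⟨σ, hσ, h1⟩ := common (Q := fun n s => ∀ x ∈ {z | ¬ GG T z}, s ≤ ‖(ev T)^[n] y - x‖)
      (fun n s t _ hst h x hx => hst.trans (h x hx)) P (fun n _ => by
        obtain ⟨s, hs, hs2⟩ := gg_stab T hT _ (sk_gg hP h n)
        refine ⟨s, hs, fun x hx => ?_⟩
        by_contra hcon
        push Not at hcon
        exact hx (hs2 T rfl (fun j => by simpa using hs) x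
          (by rw [mem_ball, dist_eq_norm, norm_sub_rev]; exact hcon)))
    exact ⟨σ / 2, half_pos hσ, sk_far hP h hσ h1⟩

theorem gg_away (hT : 2 ≤ T.natDegree) {c : ℂ} (hc : GG T c) : ∃ ε : ℝ, 0 < ε ∧ ∀ n : ℕ, ∀ x,
    ¬ GG T x → ε ≤ ‖(ev T)^[n] c - x‖ := by
  obtain ⟨δ, hδ, h⟩ := gg_far hT hc
  exact away_of (gg_closed hT) (fun n h => h ((gg_iter T c n).2 hc)) hδ h

theorem kindG (hT : 2 ≤ T.natDegree) : Kind T GG where
  stab := gg_stab
  inv := fun S z h => (gg_step S z).1 h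
  esc := fun S z h => Or.inl h
  ret := by
    obtain ⟨R, hR, hb⟩ := bad_bd (G := GG) hT fun z hz => Or.inl hz
    -- a common distance for the good critical points
    have h1 : ∀ c : ℂ, ∃ ε : ℝ, 0 < ε ∧ (GG T c → ∀ n : ℕ, ∀ x, ¬ GG T x → ε ≤ ‖(ev T)^[n] c - x‖) := by
      intro c
      by_cases hc : GG T c
      · obtain ⟨ε, hε, h⟩ := gg_away hT hc
        exact ⟨ε, hε, fun _ => h⟩
      · exact ⟨1, one_pos, fun h => absurd h hc⟩
    choose ε hε h2 using h1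
    obtain ⟨δ, hδ, h3⟩ := exists_lower (crit_fin hT) ε hε
    refine ⟨min 1 (δ / 2), by positivity, ?_⟩
    intro z hz
    rcases hz with h | ⟨P, hP, y, h⟩
    · filter_upwards [far_bad hb h] with n hn x hx
      exact (min_le_left _ _).trans (hn x hx)
    · obtain ⟨c, hc, i, hci⟩ := fatou hT h.1 h.2.1
      have hcj : ∀ j : ℕ, Tendsto (fun k : ℕ => (ev T)^[j + (P * k + i)] c) atTop (𝓝 ((ev T)^[j] y)) := by
        intro j
        have := ((it_cont T j).tendsto y).comp hci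
        refine this.congr fun k => ?_
        change (ev T)^[j] ((ev T)^[P * k + i] c) = _
        rw [← Function.iterate_add_apply]
      have hcG : GG T c := by
        rw [← gg_iter T c i]
        refine Or.inr ⟨P, hP, y, h.1, h.2.1, ?_⟩
        refine hci.congr fun k => ?_
        rw [Function.iterate_add_apply]
      have h4 := sk_far hP h (K := {z | ¬ GG T z}) hδ (fun j _ x hx => by
        refine ge_of_tendsto' ((hcj j).sub_const x).norm fun k => ?_
        exact (h3 c hc).trans (h2 c hcG _ x hx))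
      filter_upwards [h4] with n hn x hx
      exact (min_le_right _ _).trans (hn x hx)
  away := fun c _ hc => gg_away hT hc
  lim := by
    intro z hz m hm hlim
    rcases hz with h | ⟨P, hP, y, h⟩
    · exact absurd hlim.norm (not_tendsto_nhds_of_tendsto_atTop (h.comp hm) _)
    · refine ⟨P, hP, ?_⟩
      have h1 : Tendsto (fun n : ℕ => (ev T)^[n + P] z - (ev T)^[n] z) atTop (𝓝 0) := by
        rw [Metric.tendsto_nhds]
        intro η hη
        apply resid hP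
        intro j hj
        have e1 := sk_tendsto h j
        have e2 := e1.comp (tendsto_add_atTop_nat 1)
        have e3 := e2.sub e1
        rw [sub_self] at e3
        filter_upwards [Metric.tendsto_nhds.1 e3 η hη] with k hk
        have e4 : P * k + j + P = P * (k + 1) + j := by ring
        rw [e4]
        exact hk
      have h2 := (h1.comp hm).add hlim
      have h3 : Tendsto (fun j => (ev T)^[P] ((ev T)^[m j] z)) atTop (𝓝 ((ev T)^[P] z)) :=
        ((it_cont T P).tendsto z).comp hlim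
      have h4 : Tendsto (fun j => (ev T)^[P] ((ev T)^[m j] z)) atTop (𝓝 (0 + z)) := by
        refine h2.congr fun j => ?_
        change (ev T)^[m j + P] z - (ev T)^[m j] z + (ev T)^[m j] z = _
        rw [sub_add_cancel, ← Function.iterate_add_apply, add_comm]
      rw [zero_add] at h4
      exact tendsto_nhds_unique h3 h4

end Pool.Agent.H20.MZ
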