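import Pool.Agent.H20.MZ.NullB
import Pool.Graph.R_seed8.Helper114.MontelSol
import Pool.Graph.R_seed8.H713R5.QJ.TUSCG

/-! # The set `K₀` has no interior -/

set_option autoImplicit false

open Topology Filter Metric Set Polynomial MeasureTheory
open Pool.Agent.H713R5.QJ (ev)

namespace Pool.Agent.H20.MZ

/-- Convergence to the identity propagates in a bounded sequence of holomorphic functions. -/
theorem vit {G : ℕ → ℂ → ℂ} {a : ℂ} {ρ ρ' s B : ℝ} (hs : 0 < s) (hρ' : 0 < ρ') (hρ : ρ' < ρ)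
    (hG : ∀ k, DifferentiableOn ℂ (G k) (ball a ρ)) (hb : ∀ k, ∀ z ∈ ball a ρ, ‖G k z‖ ≤ B)
    (hlim : ∀ z ∈ ball a s, Tendsto (fun k => G k z) atTop (𝓝 z)) {η : ℝ} (hη : 0 < η) :
    ∀ᶠ k in atTop, ∀ z ∈ ball a ρ', ‖G k z - z‖ < η := by
  by_contra hcon
  rw [Filter.not_eventually] at hcon
  have hne : (atTop ⊓ 𝓟 {k : ℕ | ¬ ∀ z ∈ ball a ρ', ‖G k z - z‖ < η}).NeBot :=
    Filter.frequently_mem_iff_neBot.1 hcon
  obtain ⟨𝒰, h𝒰⟩ := Ultrafilter.exists_le (atTop ⊓ 𝓟 {k : ℕ | ¬ ∀ z ∈ ball a ρ', ‖G k z - z‖ < η})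
  obtain ⟨Φ, hΦ, hlu⟩ := Pool.Agent.Helper114.Montel.montel isOpen_ball G hG B hb 𝒰
  have hρ0 : 0 < ρ := hρ'.trans hρ
  have hid : ∀ z ∈ ball a ρ, z ∈ ball a s → Φ z = z := by
    intro z hz hz2
    have h1 : Tendsto (fun k => G k z) 𝒰 (𝓝 (Φ z)) := hlu.tendsto_at hz
    have h2 : Tendsto (fun k => G k z) 𝒰 (𝓝 z) := (hlim z hz2).mono_left (h𝒰.trans inf_le_left)
    exact tendsto_nhds_unique h1 h2
  have heq : EqOn Φ (fun z => z) (ball a ρ) := by
    apply AnalyticOnNhd.eqOn_of_preconnected_of_eventuallyEq (z₀ := a) (hΦ.analyticOnNhd isOpen_ball)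
      (differentiableOn_id.analyticOnNhd isOpen_ball) (convex_ball a ρ).isPreconnected (mem_ball_self hρ0)
    filter_upwards [ball_mem_nhds a hρ0, ball_mem_nhds a hs] with z h1 h2
    exact hid z h1 h2
  have hK := (tendstoLocallyUniformlyOn_iff_forall_isCompact isOpen_ball).1 hlu (closedBall a ρ')
    (closedBall_subset_ball hρ) (isCompact_closedBall a ρ')
  have h1 := Metric.tendstoUniformlyOn_iff.1 hK η hη
  have h2 : ∀ᶠ k in (𝒰 : Filter ℕ), ¬ ∀ z ∈ ball a ρ', ‖G k z - z‖ < η := by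
    have : {k : ℕ | ¬ ∀ z ∈ ball a ρ', ‖G k z - z‖ < η} ∈ (𝒰 : Filter ℕ) :=
      h𝒰 (mem_inf_of_right (mem_principal_self _))
    exact this
  obtain ⟨k, h3, h4⟩ := (h1.and h2).exists
  apply h4
  intro z hz
  have h5 := h3 z (ball_subset_closedBall hz)
  rw [heq (ball_subset_ball hρ.le hz), dist_comm, dist_eq_norm] at h5
  exact h5

/-- The preimage of a fixed disc under an iterate is bounded. -/
theorem esc_bd {T : ℂ[X]} (hT : 2 ≤ T.natDegree) (R : ℝ) : ∃ R₁ : ℝ, 0 < R₁ ∧ ∀ n : ℕ, ∀ z : ℂ,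
    ‖(ev T)^[n] z‖ ≤ R → ‖z‖ ≤ R₁ := by
  obtain ⟨R₀, σ, hR₀, hσ, h⟩ := Pool.Agent.H713R5.QJ.USCGaux.radius T hT
  have h1 : ∀ w : ℂ, R₀ ≤ ‖w‖ → 2 * ‖w‖ ≤ ‖ev T w‖ := h T rfl (fun j => by simpa using hσ)
  refine ⟨max R₀ R, by positivity, ?_⟩
  intro n z hz
  by_contra hcon
  push Not at hcon
  have h2 : ∀ k : ℕ, max R₀ R < ‖(ev T)^[k] z‖ := by
    intro k
    induction k with
    | zero => simpa using hcon
    | succ k ih =>
        rw [Function.iterate_succ_apply']
        have := h1 _ ((le_max_left _ _).trans ih.le)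
        have h3 := norm_nonneg ((ev T)^[k] z)
        linarith
  have := h2 n
  have := le_max_right R₀ R
  linarith

/-- The periodic points form a countable set. -/
theorem per_countable {T : ℂ[X]} (hT : 2 ≤ T.natDegree) :
    {z : ℂ | ∃ p : ℕ, 0 < p ∧ (ev T)^[p] z = z}.Countable := by
  have e : {z : ℂ | ∃ p : ℕ, 0 < p ∧ (ev T)^[p] z = z} = ⋃ p : ℕ, {z : ℂ | 0 < p ∧ (ev T)^[p] z = z} := by
    ext z
    simp
  rw [e]
  refine countable_iUnion fun p => ?_
  by_cases hp : 0 < p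
  · have h0 : itp T p - X ≠ 0 := by
      intro h
      have h1 : (itp T p).natDegree = 1 := by
        rw [sub_eq_zero.1 h]
        exact natDegree_X
      have h2 : (itp T p).natDegree = T.natDegree ^ p * (X : ℂ[X]).natDegree :=
        natDegree_iterate_comp p
      rw [natDegree_X, mul_one, h1] at h2
      have h3 : 1 < T.natDegree ^ p := Nat.one_lt_pow (by omega) (by omega)
      omega
    refine (((itp T p - X).roots.toFinset.finite_toSet).subset fun z hz => ?_).countable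
    simp only [Finset.mem_coe, Multiset.mem_toFinset]
    rw [Polynomial.mem_roots h0, IsRoot.def, eval_sub, eval_X, itp_ev, hz.2, sub_self]
  · have : {z : ℂ | 0 < p ∧ (ev T)^[p] z = z} = ∅ := by
      ext z
      simp [hp]
    rw [this]
    exact countable_empty

/-- A large disc around a point with a small derivative is mapped into a bounded disc. -/
theorem branch_big {T : ℂ[X]} {n : ℕ} {x : ℂ} {δ : ℝ} (hδ : 0 < δ)
    (hcv : ∀ z : ℂ, deriv (ev T)^[n] z = 0 → (ev T)^[n] z ∉ ball ((ev T)^[n] x) δ)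
    (hd : ‖deriv (ev T)^[n] x‖ ≤ 2) :
    ∀ z ∈ ball x (Real.exp (-4) * δ / 4), ‖(ev T)^[n] z - (ev T)^[n] x‖ < δ := by
  obtain ⟨φ, h1', h2, h3', h4', hD0, hK⟩ := branch_data hδ hcv
  set y : ℂ := (ev T)^[n] x with hy
  set g : ℂ → ℂ := (ev T)^[n] with hg
  have hhalf : ball y (δ / 2) ⊆ ball y δ := ball_subset_ball (by linarith)
  have hyd : y ∈ ball y δ := mem_ball_self hδ
  have hD : 1 / 2 ≤ ‖deriv φ y‖ := by
    rw [(h4' y hyd).deriv, norm_inv, h2]
    have h0 := norm_pos_iff.2 (h3' y hyd)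
    rw [h2] at h0
    rw [one_div]
    exact inv_anti₀ h0 hd
  have hinv : ∀ w ∈ ball y (δ / 2), Real.exp (-4) / 2 * ‖deriv g (φ w)‖ ≤ 1 := by
    intro w hw
    have e1 := (hK w hw).1
    rw [(h4' w (hhalf hw)).deriv, norm_inv] at e1
    have e2 : 0 < ‖deriv g (φ w)‖ := norm_pos_iff.2 (h3' w (hhalf hw))
    have e3 : Real.exp (-4) / 2 ≤ Real.exp (-4) * ‖deriv φ y‖ := by
      have := Real.exp_pos (-4)
      nlinarith
    calc Real.exp (-4) / 2 * ‖deriv g (φ w)‖ ≤ ‖deriv g (φ w)‖⁻¹ * ‖deriv g (φ w)‖ := by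
          gcongr
          exact e3.trans e1
      _ = 1 := inv_mul_cancel₀ e2.ne'
  have hcov := cover (g := g) (φ := φ) (it_diff T n) (x := x) (y := y) (ρ := δ / 2)
    (κ := Real.exp (-4) / 2) (by positivity) (by positivity) h2 (fun w hw => h1' w (hhalf hw))
    (fun w hw => h4' w (hhalf hw)) (fun w hw => ⟨h3' w (hhalf hw), hinv w hw⟩)
  intro z hz
  have e : Real.exp (-4) * δ / 4 = Real.exp (-4) / 2 * (δ / 2) := by ring
  rw [e] at hz
  have := (hcov z hz).1
  rw [mem_ball, dist_eq_norm] at this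
  linarith

/-- `K₀` has no interior. -/
theorem Full.int_empty {T : ℂ[X]} {K₀ P : Set ℂ} (H : Full T K₀ P) : interior K₀ = ∅ := by
  classical
  by_contra hint
  rw [← ne_eq, ← nonempty_iff_ne_empty] at hint
  have Hp := H.toPre
  obtain ⟨δ₁, hδ₁, hl⟩ := Hp.lands
  obtain ⟨δ₂, hδ₂, hfree⟩ := Hp.free
  set δ : ℝ := min δ₁ δ₂ with hδ
  have hδ0 : 0 < δ := by positivity
  have hδ1 : δ ≤ δ₁ := min_le_left _ _
  have hδ2 : δ ≤ δ₂ := min_le_right _ _
  obtain ⟨R₀, hR₀⟩ := H.cpt.isBounded.exists_norm_le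
  obtain ⟨R₁, hR₁, hesc⟩ := esc_bd H.deg (R₀ + δ)
  -- a point of the interior which does not land on `P`
  obtain ⟨x, hxi, hxP⟩ : ∃ x ∈ interior K₀, ∀ n : ℕ, (ev T)^[n] x ∉ P := by
    have hc : (⋃ n : ℕ, (ev T)^[n] ⁻¹' P).Countable :=
      countable_iUnion fun n => (pre_fin H.deg H.Pfin n).countable
    obtain ⟨x, h1, h2⟩ := (hc.dense_compl ℂ).inter_open_nonempty _ isOpen_interior hint
    refine ⟨x, h1, fun n hn => h2 ?_⟩
    exact mem_iUnion.2 ⟨n, hn⟩
  obtain ⟨ε₀, hε₀, hball⟩ := Metric.isOpen_iff.1 isOpen_interior x hxi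
  have hballK : ball x ε₀ ⊆ K₀ := hball.trans interior_subset
  have hfreq : ∃ᶠ n in atTop, ∀ p ∈ P, δ ≤ ‖(ev T)^[n] x - p‖ := by
    intro hcon
    obtain ⟨n, hn⟩ := hl x (by
      filter_upwards [hcon] with n hn
      push Not at hn
      obtain ⟨p, hp, h⟩ := hn
      exact ⟨p, hp, h.trans_le hδ1⟩)
    exact hxP n hn
  have hbd : ∀ n : ℕ, ∀ z ∈ ball x ε₀, ‖(ev T)^[n] z‖ ≤ R₀ := fun n z hz =>
    hR₀ _ (Hp.iter n z (hballK hz))
  -- the limit along an ultrafilter
  have hne : (atTop ⊓ 𝓟 {n : ℕ | ∀ p ∈ P, δ ≤ ‖(ev T)^[n] x - p‖}).NeBot :=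
    Filter.frequently_mem_iff_neBot.1 hfreq
  obtain ⟨𝒰, h𝒰⟩ := Ultrafilter.exists_le (atTop ⊓ 𝓟 {n : ℕ | ∀ p ∈ P, δ ≤ ‖(ev T)^[n] x - p‖})
  obtain ⟨Φ, hΦ, hlu⟩ := Pool.Agent.Helper114.Montel.montel isOpen_ball (fun n => (ev T)^[n])
    (fun n => (it_diff T n).differentiableOn) R₀ hbd 𝒰
  have hK := (tendstoLocallyUniformlyOn_iff_forall_isCompact isOpen_ball).1 hlu
    (closedBall x (ε₀ / 2)) (closedBall_subset_ball (by linarith)) (isCompact_closedBall _ _)
  have h𝒰good : ∀ᶠ n in (𝒰 : Filter ℕ), ∀ p ∈ P, δ ≤ ‖(ev T)^[n] x - p‖ := by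
    have : {n : ℕ | ∀ p ∈ P, δ ≤ ‖(ev T)^[n] x - p‖} ∈ (𝒰 : Filter ℕ) :=
      h𝒰 (mem_inf_of_right (mem_principal_self _))
    exact this
  have hseq : ∀ k : ℕ, ∃ n m : ℕ, k ≤ m ∧ (∀ p ∈ P, δ ≤ ‖(ev T)^[n] x - p‖) ∧
      (∀ z ∈ closedBall x (ε₀ / 2), ‖(ev T)^[n] z - Φ z‖ < 1 / ((k : ℝ) + 1)) ∧
      ∀ z ∈ closedBall x (ε₀ / 2), ‖(ev T)^[m + n] z - Φ z‖ < 1 / ((k : ℝ) + 1) := by
    intro k
    have h1 := Metric.tendstoUniformlyOn_iff.1 hK (1 / ((k : ℝ) + 1)) (by positivity)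
    have h1' : ∀ᶠ n in (𝒰 : Filter ℕ), ∀ z ∈ closedBall x (ε₀ / 2),
        ‖(ev T)^[n] z - Φ z‖ < 1 / ((k : ℝ) + 1) := by
      filter_upwards [h1] with n hn z hz
      have := hn z hz
      rwa [dist_comm, dist_eq_norm] at this
    obtain ⟨n, hn1, hn2⟩ := (h1'.and h𝒰good).exists
    have h3 : ∀ᶠ n' in (𝒰 : Filter ℕ), k + n ≤ n' :=
      (h𝒰.trans inf_le_left) (eventually_ge_atTop (k + n))
    obtain ⟨n', hn'1, hn'2⟩ := (h1'.and h3).exists
    refine ⟨n, n' - n, by omega, hn2, hn1, ?_⟩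
    have e : n' - n + n = n' := by omega
    rw [e]
    exact hn'1
  choose n m hkm hgood hn1 hn2 using hseq
  have hm : Tendsto m atTop atTop := tendsto_atTop_mono hkm tendsto_id
  have hlim0 : Tendsto (fun k : ℕ => 1 / ((k : ℝ) + 1)) atTop (𝓝 0) :=
    tendsto_one_div_add_atTop_nhds_zero_nat
  set y₀ : ℂ := Φ x with hy₀
  have hxc : x ∈ closedBall x (ε₀ / 2) := mem_closedBall_self (by positivity)
  -- the iterates cover a fixed disc
  set c : ℝ := min (δ / 2) (ε₀ * δ / (4 * Real.exp 4 * R₁)) with hc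
  have hc0 : 0 < c := by positivity
  have hcovr : ∀ k : ℕ, ∀ w ∈ ball ((ev T)^[n k] x) c, ∃ z ∈ closedBall x (ε₀ / 2),
      (ev T)^[n k] z = w := by
    intro k w hw
    obtain ⟨φ, h1', h2, h3', h4', hD0, hKo⟩ := branch_data (T := T) (n := n k) (x := x) hδ0
      (fun z hz => hfree _ (Hp.iter (n k) x (hballK (mem_ball_self hε₀))) δ hδ2 (hgood k) (n k) z hz)
    set y : ℂ := (ev T)^[n k] x with hy
    have hyK : ‖y‖ ≤ R₀ := hbd (n k) x (mem_ball_self hε₀)
    have hφb : ∀ v ∈ ball y δ, ‖φ v‖ ≤ R₁ := by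
      intro v hv
      apply hesc (n k)
      rw [h1' v hv]
      rw [mem_ball, dist_eq_norm] at hv
      have := norm_sub_norm_le v y
      linarith
    have hDle : ‖deriv φ y‖ ≤ R₁ / (δ / 2) := by
      apply Complex.norm_deriv_le_of_forall_mem_sphere_norm_le (by positivity)
      · apply DifferentiableOn.diffContOnCl
        rw [closure_ball _ (by positivity)]
        intro v hv
        exact (h4' v (closedBall_subset_ball (by linarith) hv)).differentiableAt.differentiableWithinAt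
      · intro v hv
        exact hφb v (sphere_subset_closedBall.trans (closedBall_subset_ball (by linarith)) hv)
    have hcd : c ≤ δ / 2 := min_le_left _ _
    have hwd : w ∈ ball y (δ / 2) := ball_subset_ball hcd hw
    refine ⟨φ w, ?_, h1' w (ball_subset_ball (by linarith) hwd)⟩
    have h5 := (convex_ball y (δ / 2)).norm_image_sub_le_of_norm_deriv_le (𝕜 := ℂ) (f := φ)
      (C := Real.exp 4 * (R₁ / (δ / 2))) (fun v hv => (h4' v (ball_subset_ball (by linarith) hv)).differentiableAt)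
      (fun v hv => (hKo v hv).2.trans (by gcongr)) (mem_ball_self (by positivity)) hwd
    rw [h2] at h5
    rw [mem_closedBall, dist_eq_norm]
    refine h5.trans ?_
    rw [mem_ball, dist_eq_norm] at hw
    have hcR : c ≤ ε₀ * δ / (4 * Real.exp 4 * R₁) := min_le_right _ _
    calc Real.exp 4 * (R₁ / (δ / 2)) * ‖w - y‖ ≤
        Real.exp 4 * (R₁ / (δ / 2)) * (ε₀ * δ / (4 * Real.exp 4 * R₁)) := by
          gcongr
          linarith
      _ = ε₀ / 2 := by
          field_simp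
          ring
  -- the set of convergence
  set W : Set ℂ := {z | ∃ ε : ℝ, 0 < ε ∧ ∀ η : ℝ, 0 < η → ∀ᶠ k in atTop, ∀ v ∈ ball z ε,
    ‖(ev T)^[m k] v - v‖ < η} with hW
  have hWo : IsOpen W := by
    rw [isOpen_iff_mem_nhds]
    rintro z ⟨ε, hε, h⟩
    filter_upwards [ball_mem_nhds z (half_pos hε)] with z' hz'
    refine ⟨ε / 2, half_pos hε, fun η hη => ?_⟩
    filter_upwards [h η hη] with k hk v hv
    apply hk
    rw [mem_ball] at hz' hv ⊢
    have := dist_triangle v z' z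
    linarith
  have hWt : ∀ z ∈ W, ∃ ε : ℝ, 0 < ε ∧ ∀ v ∈ ball z ε, Tendsto (fun k => (ev T)^[m k] v) atTop (𝓝 v) := by
    rintro z ⟨ε, hε, h⟩
    refine ⟨ε, hε, fun v hv => ?_⟩
    rw [Metric.tendsto_nhds]
    intro η hη
    filter_upwards [h η hη] with k hk
    rw [dist_eq_norm]
    exact hk v hv
  have hWK : W ⊆ K₀ := by
    intro z hz
    obtain ⟨ε, hε, h⟩ := hWt z hz
    by_contra hzK
    have ho : IsOpen (ball z ε ∩ K₀ᶜ) := isOpen_ball.inter H.cpt.isClosed.isOpen_compl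
    obtain ⟨v, hv1, hv2⟩ := ((per_countable H.deg).dense_compl ℂ).inter_open_nonempty _ ho
      ⟨z, mem_ball_self hε, hzK⟩
    exact hv2 (H.lim v hv1.2 m hm (h v hv1.1))
  have hWne : y₀ ∈ W := by
    refine ⟨c / 2, by positivity, fun η hη => ?_⟩
    filter_upwards [hlim0.eventually (gt_mem_nhds (show (0 : ℝ) < min (c / 2) (η / 2) by positivity))]
      with k hk v hv
    have hk1 : 1 / ((k : ℝ) + 1) < c / 2 := hk.trans_le (min_le_left _ _)
    have hk2 : 1 / ((k : ℝ) + 1) < η / 2 := hk.trans_le (min_le_right _ _)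
    obtain ⟨z, hz, rfl⟩ := hcovr k v (by
      rw [mem_ball] at hv ⊢
      have h1 := hn1 k x hxc
      rw [← dist_eq_norm, dist_comm] at h1
      have := dist_triangle v y₀ ((ev T)^[n k] x)
      linarith)
    rw [← Function.iterate_add_apply]
    have h1 := hn1 k z hz
    have h2 := hn2 k z hz
    rw [norm_sub_rev] at h1
    have := norm_sub_le_norm_sub_add_norm_sub ((ev T)^[m k + n k] z) (Φ z) ((ev T)^[n k] z)
    linarith
  have hy₀P : y₀ ∉ P := by
    intro hP
    obtain ⟨k, hk⟩ := (hlim0.eventually (gt_mem_nhds hδ0)).exists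
    have h1 := hgood k _ hP
    have h2 := hn1 k x hxc
    linarith
  -- the closure
  have hcl : closure W ∩ Pᶜ ⊆ W := by
    rintro ζ ⟨hζ, hζP⟩
    have hζK : ζ ∈ K₀ := (closure_minimal hWK H.cpt.isClosed) hζ
    obtain ⟨ρ₁, hρ₁, hρP⟩ := exists_lower H.Pfin (fun p => if p = ζ then 1 else ‖ζ - p‖) (fun p => by
      by_cases h : p = ζ
      · simp [h]
      · simp only [h, if_false]
        rw [norm_pos_iff, sub_ne_zero]
        exact fun e => h e.symm)
    set ρ : ℝ := min ρ₁ δ₂ with hρ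
    have hρ0 : 0 < ρ := by positivity
    have hfr : ∀ (n : ℕ) (z : ℂ), deriv (ev T)^[n] z = 0 → (ev T)^[n] z ∉ ball ζ ρ := by
      apply hfree ζ hζK ρ (min_le_right _ _)
      intro p hp
      have h1 := hρP p hp
      have h2 : p ≠ ζ := by
        rintro rfl
        exact hζP hp
      simp only [h2, if_false] at h1
      exact (min_le_left _ _).trans h1
    set s₀ : ℝ := Real.exp (-4) * (ρ / 2) / 4 with hs₀
    have hs₀0 : 0 < s₀ := by positivity
    obtain ⟨w, hwW, hwζ⟩ := Metric.mem_closure_iff.1 hζ (min (ρ / 4) (s₀ / 4)) (by positivity)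
    have hwζ1 : dist ζ w < ρ / 4 := hwζ.trans_le (min_le_left _ _)
    have hwζ2 : dist ζ w < s₀ / 4 := hwζ.trans_le (min_le_right _ _)
    obtain ⟨ε, hε, hw⟩ := hwW
    -- for large indices
    have hev : ∀ᶠ k in atTop, ∀ z ∈ ball w s₀, ‖(ev T)^[m k] z‖ ≤ ‖w‖ + ρ := by
      filter_upwards [hw (min (ρ / 4) (ε / 2)) (by positivity)] with k hk
      have hkw := hk w (mem_ball_self hε)
      have hkw1 : ‖(ev T)^[m k] w - w‖ < ρ / 4 := hkw.trans_le (min_le_left _ _)
      have hd : ‖deriv (ev T)^[m k] w‖ ≤ 2 := by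
        have h1 : ‖deriv (fun v => (ev T)^[m k] v - v) w‖ ≤ (ε / 2) / (ε / 2) := by
          apply Complex.norm_deriv_le_of_forall_mem_sphere_norm_le (by positivity)
          · exact ((it_diff T (m k)).sub differentiable_id).diffContOnCl
          · intro v hv
            have := hk v (sphere_subset_closedBall.trans (closedBall_subset_ball (by linarith)) hv)
            exact (this.trans_le (min_le_right _ _)).le
        have e : deriv (fun v => (ev T)^[m k] v - v) w = deriv (ev T)^[m k] w - 1 := by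
          exact ((it_diff T (m k) w).hasDerivAt.sub (hasDerivAt_id w)).deriv
        rw [e, div_self (by positivity)] at h1
        have h2 := norm_sub_norm_le (deriv (ev T)^[m k] w) 1
        rw [norm_one] at h2
        linarith
      intro z hz
      have hbb := branch_big (T := T) (n := m k) (x := w) (δ := ρ / 2) (by positivity) (fun v hv hv2 => by
        apply hfr (m k) v hv
        rw [mem_ball] at hv2 ⊢
        have h1 := dist_triangle ((ev T)^[m k] v) ((ev T)^[m k] w) ζ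
        have h2 := dist_triangle ((ev T)^[m k] w) w ζ
        rw [dist_comm w ζ] at h2
        rw [← dist_eq_norm] at hkw1
        linarith) hd z hz
      have h1 := norm_sub_norm_le ((ev T)^[m k] z) ((ev T)^[m k] w)
      have h2 := norm_sub_norm_le ((ev T)^[m k] w) w
      linarith
    obtain ⟨k₀, hk₀⟩ := eventually_atTop.1 hev
    have hwt : ∀ v ∈ ball w ε, Tendsto (fun k => (ev T)^[m k] v) atTop (𝓝 v) := by
      intro v hv
      rw [Metric.tendsto_nhds]
      intro η hη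
      filter_upwards [hw η hη] with k hk
      rw [dist_eq_norm]
      exact hk v hv
    refine ⟨s₀ / 4, by positivity, fun η hη => ?_⟩
    have hv := vit (G := fun k => (ev T)^[m (k + k₀)]) (a := w) (ρ := s₀) (ρ' := s₀ / 2) (s := ε)
      (B := ‖w‖ + ρ) hε (by positivity) (by linarith) (fun k => (it_diff T _).differentiableOn)
      (fun k z hz => hk₀ (k + k₀) (by omega) z hz)
      (fun z hz => (hwt z hz).comp (tendsto_add_atTop_nat k₀)) hη
    obtain ⟨k₁, hk₁⟩ := eventually_atTop.1 hv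
    filter_upwards [eventually_ge_atTop (k₁ + k₀)] with k hk v hv2
    have h3 := hk₁ (k - k₀) (by omega) v (by
      rw [mem_ball] at hv2 ⊢
      have := dist_triangle v ζ w
      linarith)
    have e : k - k₀ + k₀ = k := by omega
    rw [e] at h3
    exact h3
  have hconn : IsPreconnected (Pᶜ : Set ℂ) :=
    (H.Pfin.countable.isPathConnected_compl_of_one_lt_rank (by simp)).isConnected.isPreconnected
  have hall : Pᶜ ⊆ W := hconn.subset_of_closure_inter_subset hWo ⟨y₀, hy₀P, hWne⟩ hcl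
  have hbdd : Bornology.IsBounded (univ : Set ℂ) := by
    rw [← union_compl_self P]
    exact H.Pfin.isBounded.union (H.cpt.isBounded.subset (hall.trans hWK))
  exact NormedSpace.unbounded_univ ℝ ℂ hbdd

/-- `K₀` has measure zero. -/
theorem Full.base {T : ℂ[X]} {K₀ P : Set ℂ} (H : Full T K₀ P) : Base T K₀ P :=
  { H.toPre with null := H.toPre.null H.int_empty }

end Pool.Agent.H20.MZ
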