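import Pool.Agent.H20.MZ.Scale

/-! # A set `K₀` without interior has measure zero -/

set_option autoImplicit false

open Topology Filter Metric Set Polynomial MeasureTheory
open Pool.Agent.H713R5.QJ (ev)

namespace Pool.Agent.H20.MZ

/-- In addition, the points whose orbits accumulate at themselves are in `K₀` or periodic. -/
structure Full (T : ℂ[X]) (K₀ P : Set ℂ) : Prop extends Pre T K₀ P where
  lim : ∀ z : ℂ, z ∉ K₀ → ∀ m : ℕ → ℕ, Tendsto m atTop atTop →
    Tendsto (fun j => (ev T)^[m j] z) atTop (𝓝 z) → ∃ p : ℕ, 0 < p ∧ (ev T)^[p] z = z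

theorem Pre.iter {T : ℂ[X]} {K₀ P : Set ℂ} (H : Pre T K₀ P) (n : ℕ) : ∀ z ∈ K₀, (ev T)^[n] z ∈ K₀ := by
  induction n with
  | zero => intro z hz; simpa using hz
  | succ n ih =>
      intro z hz
      rw [Function.iterate_succ_apply']
      exact H.fwd _ (ih z hz)

theorem pre_fin {T : ℂ[X]} (hT : 2 ≤ T.natDegree) {F : Set ℂ} (hF : F.Finite) (n : ℕ) :
    ((ev T)^[n] ⁻¹' F).Finite := by
  induction n with
  | zero => simpa using hF
  | succ n ih =>
      rw [Function.iterate_succ, preimage_comp]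
      refine ih.preimage' fun w _ => ?_
      have h0 : T - C w ≠ 0 := by
        intro h
        have : (T - C w).natDegree = T.natDegree := natDegree_sub_C
        rw [h] at this
        simp at this
        omega
      refine ((T - C w).roots.toFinset.finite_toSet).subset fun z hz => ?_
      simp only [Finset.mem_coe, Multiset.mem_toFinset]
      rw [Polynomial.mem_roots h0, IsRoot.def, eval_sub, eval_C, sub_eq_zero]
      exact hz

theorem crit_fin {T : ℂ[X]} (hT : 2 ≤ T.natDegree) : {c : ℂ | (derivative T).eval c = 0}.Finite := by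
  have h0 : derivative T ≠ 0 := by
    intro h
    have h2 := Polynomial.derivative_eq_zero.1 h
    omega
  exact ((derivative T).roots.toFinset.finite_toSet).subset fun c hc => by
    simp only [Finset.mem_coe, Multiset.mem_toFinset]
    exact (Polynomial.mem_roots h0).2 hc

/-- An open subset of `K₀` exists if the measure is positive. -/
theorem Pre.null {T : ℂ[X]} {K₀ P : Set ℂ} (H : Pre T K₀ P) (hint : interior K₀ = ∅) :
    volume K₀ = 0 := by
  by_contra hvol
  obtain ⟨δ₁, hδ₁, hl⟩ := H.lands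
  obtain ⟨δ₂, hδ₂, hfree⟩ := H.free
  obtain ⟨δ₃, hδ₃, hret⟩ := H.ret
  set δ : ℝ := min δ₁ (min δ₂ δ₃) with hδ
  have hδ0 : 0 < δ := by positivity
  have hδ1 : δ ≤ δ₁ := min_le_left _ _
  have hδ2 : δ ≤ δ₂ := (min_le_right _ _).trans (min_le_left _ _)
  have hδ3 : δ ≤ δ₃ := (min_le_right _ _).trans (min_le_right _ _)
  set c' : ℝ := Real.exp (-8) * δ / 4 with hc'
  have hc'0 : 0 < c' := by positivity
  -- a good density point
  obtain ⟨x, hx, hxd, hxP⟩ : ∃ x ∈ K₀, Tendsto (fun r => volume (K₀ ∩ closedBall x r) /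
      volume (closedBall x r)) (𝓝[>] 0) (𝓝 1) ∧ ∀ n : ℕ, (ev T)^[n] x ∉ P := by
    have h1 := Besicovitch.ae_tendsto_measure_inter_div (volume : Measure ℂ) K₀
    have h2 : ∀ᵐ x ∂(volume : Measure ℂ).restrict K₀, ∀ n : ℕ, (ev T)^[n] x ∉ P := by
      rw [ae_all_iff]
      intro n
      have h3 : volume ((ev T)^[n] ⁻¹' P) = 0 := (pre_fin H.deg H.Pfin n).measure_zero _
      have h4 : ∀ᵐ x ∂(volume : Measure ℂ), x ∉ (ev T)^[n] ⁻¹' P := measure_eq_zero_iff_ae_notMem.1 h3
      exact ae_restrict_of_ae h4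
    have h3 : ∀ᵐ x ∂(volume : Measure ℂ).restrict K₀, x ∈ K₀ :=
      ae_restrict_mem H.cpt.isClosed.measurableSet
    have h4 : (ae ((volume : Measure ℂ).restrict K₀)).NeBot := by
      rw [ae_neBot]
      intro h
      rw [Measure.restrict_eq_zero] at h
      exact hvol h
    obtain ⟨x, e1, e2, e3⟩ := (h1.and (h2.and h3)).exists
    exact ⟨x, e3, e1, e2⟩
  have hfreq : ∃ᶠ n in atTop, ∀ p ∈ P, δ ≤ ‖(ev T)^[n] x - p‖ := by
    intro hcon
    obtain ⟨n, hn⟩ := hl x (by
      filter_upwards [hcon] with n hn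
      push Not at hn
      obtain ⟨p, hp, h⟩ := hn
      exact ⟨p, hp, h.trans_le hδ1⟩)
    exact hxP n hn
  -- discs about points of `K₀` in which `K₀` is almost full
  have hfull : ∀ η : ℝ, 0 < η → ∃ y ∈ K₀, volume (ball y c' \ K₀) ≤ ENNReal.ofReal η := by
    intro η hη
    set θ : ℝ := 16 * η / (Real.pi * δ ^ 2) with hθ
    have hθ0 : 0 < θ := by positivity
    obtain ⟨ε, hε, hεx⟩ : ∃ ε : ℝ, 0 < ε ∧ ∀ r : ℝ, 0 < r → r < ε →
        volume (ball x r \ K₀) ≤ ENNReal.ofReal (θ * (Real.pi * r ^ 2)) := by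
      have h1 : Tendsto (fun r => (volume (K₀ ∩ closedBall x r) / volume (closedBall x r)).toReal)
          (𝓝[>] 0) (𝓝 1) := by
        have := (ENNReal.tendsto_toReal ENNReal.one_ne_top).comp hxd
        rw [ENNReal.toReal_one] at this
        exact this
      have h2 := h1.eventually (lt_mem_nhds (show 1 - θ < 1 by linarith))
      obtain ⟨ε, hε, h3⟩ := mem_nhdsGT_iff_exists_Ioo_subset.1 h2
      refine ⟨ε, hε, fun r hr hrε => ?_⟩
      have h4 : 1 - θ < (volume (K₀ ∩ closedBall x r) / volume (closedBall x r)).toReal := h3 ⟨hr, hrε⟩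
      have hB : volume (closedBall x r) = ENNReal.ofReal (Real.pi * r ^ 2) := by
        rw [Complex.volume_closedBall, ← ENNReal.ofReal_pow hr.le, mul_comm Real.pi,
          ENNReal.ofReal_mul (by positivity)]
        congr 1
        rw [← NNReal.coe_real_pi, ENNReal.ofReal_coe_nnreal]
      have hpr : 0 < Real.pi * r ^ 2 := by positivity
      rw [ENNReal.toReal_div, hB, ENNReal.toReal_ofReal hpr.le, lt_div_iff₀ hpr] at h4
      have hfin : volume (K₀ ∩ closedBall x r) ≠ ⊤ :=
        (lt_of_le_of_lt (measure_mono inter_subset_right) (by rw [hB]; exact ENNReal.ofReal_lt_top)).ne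
      have h5 : volume (closedBall x r \ K₀) = volume (closedBall x r) - volume (K₀ ∩ closedBall x r) := by
        rw [← sdiff_inter_self_eq_sdiff (s := closedBall x r) (t := K₀)]
        exact measure_sdiff inter_subset_right (H.cpt.isClosed.measurableSet.inter
          measurableSet_closedBall).nullMeasurableSet hfin
      have h6 : volume (ball x r \ K₀) ≤ volume (closedBall x r \ K₀) :=
        measure_mono (sdiff_subset_sdiff_left ball_subset_closedBall)
      refine h6.trans ?_
      rw [h5, hB]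
      rw [tsub_le_iff_right, ← ENNReal.ofReal_toReal hfin, ← ENNReal.ofReal_add (by positivity)
        ENNReal.toReal_nonneg]
      apply ENNReal.ofReal_le_ofReal
      linarith
    -- a good time with small scale
    have hex : ∃ n : ℕ, (∀ p ∈ P, δ ≤ ‖(ev T)^[n] x - p‖) ∧ ∃ s : ℝ, 0 < s ∧ s < ε ∧
        (∀ z ∈ ball x s, ‖deriv (ev T)^[n] z‖ ≤ δ / (4 * s)) ∧
        ∀ w ∈ ball ((ev T)^[n] x) c', ∃ z ∈ ball x s, (ev T)^[n] z = w := by
      by_contra hcon
      push Not at hcon
      have hall : ball x ε ⊆ K₀ := by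
        intro z hz
        apply hret
        refine hfreq.mono fun n hn => ?_
        obtain ⟨s, hs, hs1, hs2, hs3, hs4⟩ := branch_scale (n := n) (x := x) hδ0
          (fun v hv => hfree _ (H.iter n x hx) δ hδ2 hn n v hv)
        have hsε : ε ≤ s := by
          by_contra h
          push Not at h
          obtain ⟨w, hw, hw2⟩ := hcon n hn s hs h hs3
          obtain ⟨z', hz', hz2⟩ := hs4 w hw
          exact hw2 z' hz' hz2
        exact ⟨(ev T)^[n] x, H.iter n x hx, (hs1 z (ball_subset_ball (by linarith) hz)).trans_le hδ3⟩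
      have h1 : ball x ε ⊆ interior K₀ := interior_maximal hall isOpen_ball
      rw [hint] at h1
      exact h1 (mem_ball_self hε)
    obtain ⟨n, -, s, hs, hsε, hs3, hs4⟩ := hex
    refine ⟨(ev T)^[n] x, H.iter n x hx, ?_⟩
    have h1 : ball ((ev T)^[n] x) c' \ K₀ ⊆ (ev T)^[n] '' (ball x s \ K₀) := by
      rintro w ⟨hw, hwK⟩
      obtain ⟨z, hz, rfl⟩ := hs4 w hw
      exact ⟨z, ⟨hz, fun h => hwK (H.iter n z h)⟩, rfl⟩
    refine (measure_mono h1).trans ((area_image (it_diff T n)
      (measurableSet_ball.diff H.cpt.isClosed.measurableSet) fun z hz => hs3 z hz.1).trans ?_)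
    calc ENNReal.ofReal ((δ / (4 * s)) ^ 2) * volume (ball x s \ K₀)
        ≤ ENNReal.ofReal ((δ / (4 * s)) ^ 2) * ENNReal.ofReal (θ * (Real.pi * s ^ 2)) := by
          gcongr
          exact hεx s hs hsε
      _ = ENNReal.ofReal η := by
          rw [← ENNReal.ofReal_mul (by positivity)]
          congr 1
          rw [hθ]
          field_simp
          ring
  -- compactness
  have hseq : ∀ k : ℕ, ∃ y ∈ K₀, volume (ball y c' \ K₀) ≤ ENNReal.ofReal (1 / ((k : ℝ) + 1)) :=
    fun k => hfull _ (by positivity)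
  choose y hyK hyv using hseq
  obtain ⟨y₀, hy₀, φ, hφ, hlim⟩ := H.cpt.tendsto_subseq hyK
  have h1 : volume (ball y₀ (c' / 2) \ K₀) = 0 := by
    have h2 : ∀ᶠ k in atTop, volume (ball y₀ (c' / 2) \ K₀) ≤ ENNReal.ofReal (1 / ((φ k : ℝ) + 1)) := by
      filter_upwards [hlim.eventually (ball_mem_nhds y₀ (show 0 < c' / 2 by positivity))] with k hk
      refine (measure_mono (sdiff_subset_sdiff_left ?_)).trans (hyv (φ k))
      apply ball_subset_ball'
      change dist (y (φ k)) y₀ < c' / 2 at hk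
      rw [dist_comm]
      linarith
    have h3 : Tendsto (fun k => ENNReal.ofReal (1 / ((φ k : ℝ) + 1))) atTop (𝓝 0) := by
      have h4 : Tendsto (fun k : ℕ => 1 / ((φ k : ℝ) + 1)) atTop (𝓝 0) :=
        tendsto_one_div_add_atTop_nhds_zero_nat.comp hφ.tendsto_atTop
      have := ENNReal.tendsto_ofReal h4
      simpa using this
    exact le_antisymm (ge_of_tendsto h3 h2) zero_le
  have h2 : ball y₀ (c' / 2) \ K₀ = ∅ :=
    ((isOpen_ball.sdiff H.cpt.isClosed).measure_eq_zero_iff (volume : Measure ℂ)).1 h1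
  have h3 : ball y₀ (c' / 2) ⊆ interior K₀ :=
    interior_maximal (sdiff_eq_empty.1 h2) isOpen_ball
  rw [hint] at h3
  exact h3 (mem_ball_self (by positivity))

end Pool.Agent.H20.MZ
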