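import Mathlib

/-! # Passage along a repelling orbit of a perturbed map -/

set_option autoImplicit false

open Topology Filter Metric Set

namespace Pool.Agent.H20.MZ

/-- `h` is within `ρ` of a map with the orbit `a` and the derivatives `b` along it -/
structure Shadow (h : ℂ → ℂ) (a b : ℕ → ℂ) (L ρ : ℝ) : Prop where
  diff : Differentiable ℂ h
  orb : ∀ k, ‖h (a k) - a (k + 1)‖ ≤ ρ
  der : ∀ k z, ‖z - a k‖ ≤ 1 → ‖deriv h z - b k‖ ≤ L * ‖z - a k‖ + ρ
  two : ∀ k, 2 ≤ ‖b k‖

variable {h : ℂ → ℂ} {a b : ℕ → ℂ} {L ρ : ℝ}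

theorem Shadow.step (H : Shadow h a b L ρ) (hL : 0 ≤ L) (k : ℕ) {D : ℝ} (hD : D ≤ 1) {z w : ℂ}
    (hz : ‖z - a k‖ ≤ D) (hw : ‖w - a k‖ ≤ D) :
    ‖(h z - h w) - b k * (z - w)‖ ≤ (L * D + ρ) * ‖z - w‖ := by
  have hd : ∀ x : ℂ, HasDerivAt (fun y => h y - b k * y) (deriv h x - b k) x := by
    intro x
    have h1 := (H.diff x).hasDerivAt.sub ((hasDerivAt_id x).const_mul (b k))
    rw [mul_one] at h1
    exact h1
  have h1 := (convex_closedBall (a k) D).norm_image_sub_le_of_norm_hasDerivWithin_le (𝕜 := ℂ)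
    (f := fun y => h y - b k * y) (f' := fun x => deriv h x - b k) (C := L * D + ρ)
    (fun x _ => (hd x).hasDerivWithinAt) (fun x hx => by
      have hx' : ‖x - a k‖ ≤ D := by simpa [dist_eq_norm] using hx
      have h2 := H.der k x (hx'.trans hD)
      have h3 := mul_le_mul_of_nonneg_left hx' hL
      linarith) (x := w) (y := z) (by simpa [dist_eq_norm] using hw)
    (by simpa [dist_eq_norm] using hz)
  have e : (h z - h w) - b k * (z - w) = (fun y => h y - b k * y) z - (fun y => h y - b k * y) w := by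
    simp only
    ring
  rw [e]
  exact h1

theorem exp_low {x : ℝ} (h0 : 0 ≤ x) (h1 : x ≤ 1) : Real.exp (-x) ≤ 1 - x / 2 := by
  have h2 : (1 : ℝ) / (1 + x) ≤ 1 - x / 2 := by
    rw [div_le_iff₀ (by linarith)]
    nlinarith
  have h3 : Real.exp (-x) ≤ 1 / (1 + x) := by
    rw [Real.exp_neg, inv_eq_one_div]
    apply one_div_le_one_div_of_le (by linarith)
    linarith [Real.add_one_le_exp x]
  exact h3.trans h2

theorem exp_up {x : ℝ} (h0 : 0 ≤ x) : 1 + x / 2 ≤ Real.exp x := by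
  linarith [Real.add_one_le_exp x]

theorem Shadow.low (H : Shadow h a b L ρ) (hL : 0 ≤ L) (hρ : 0 ≤ ρ) (k : ℕ) {D : ℝ} (hD : D ≤ 1)
    (hD0 : 0 ≤ D)
    (hs : L * D + ρ ≤ 1) {z w : ℂ} (hz : ‖z - a k‖ ≤ D) (hw : ‖w - a k‖ ≤ D) :
    ‖b k‖ * Real.exp (-(L * D + ρ)) * ‖z - w‖ ≤ ‖h z - h w‖ := by
  have h1 := H.step hL k hD hz hw
  have h2 : ‖b k * (z - w)‖ - ‖h z - h w‖ ≤ ‖(h z - h w) - b k * (z - w)‖ := by
    rw [norm_sub_rev (h z - h w)]
    exact norm_sub_norm_le _ _
  rw [norm_mul] at h2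
  have h3 := exp_low (x := L * D + ρ) (by positivity) hs
  have h4 := H.two k
  have h5 : (L * D + ρ) ≤ ‖b k‖ * ((L * D + ρ) / 2) := by
    have : 0 ≤ (L * D + ρ) / 2 := by positivity
    nlinarith
  have h6 : ‖b k‖ * Real.exp (-(L * D + ρ)) ≤ ‖b k‖ - (L * D + ρ) := by
    have := mul_le_mul_of_nonneg_left h3 (norm_nonneg (b k))
    linarith
  have h7 := mul_le_mul_of_nonneg_right h6 (norm_nonneg (z - w))
  linarith

theorem Shadow.up (H : Shadow h a b L ρ) (hL : 0 ≤ L) (hρ : 0 ≤ ρ) (k : ℕ) {z : ℂ}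
    (hz : ‖z - a k‖ ≤ 1) :
    ‖h z - a (k + 1)‖ ≤ ‖b k‖ * Real.exp (L * ‖z - a k‖ + ρ) * ‖z - a k‖ + ρ := by
  have h1 := H.step hL k hz (z := z) (w := a k) le_rfl (by simp)
  have h2 : ‖h z - h (a k)‖ ≤ ‖(h z - h (a k)) - b k * (z - a k)‖ + ‖b k * (z - a k)‖ := by
    have := norm_add_le ((h z - h (a k)) - b k * (z - a k)) (b k * (z - a k))
    simpa using this
  rw [norm_mul] at h2
  have h3 : ‖h z - a (k + 1)‖ ≤ ‖h z - h (a k)‖ + ‖h (a k) - a (k + 1)‖ :=
    norm_sub_le_norm_sub_add_norm_sub _ _ _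
  have h4 := H.orb k
  have h5 := exp_up (x := L * ‖z - a k‖ + ρ) (by positivity)
  have h6 := H.two k
  have h7 : (L * ‖z - a k‖ + ρ) + ‖b k‖ ≤ ‖b k‖ * Real.exp (L * ‖z - a k‖ + ρ) := by
    have h8 := mul_le_mul_of_nonneg_left h5 (norm_nonneg (b k))
    have h9 : 0 ≤ (L * ‖z - a k‖ + ρ) / 2 := by positivity
    nlinarith
  have h8 := mul_le_mul_of_nonneg_right h7 (norm_nonneg (z - a k))
  linarith

theorem Shadow.three (H : Shadow h a b L ρ) (hL : 0 ≤ L) (k : ℕ) {z : ℂ}
    (hz : ‖z - a k‖ ≤ 1) (hs : L * ‖z - a k‖ + ρ ≤ 1 / 2) :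
    3 / 2 * ‖z - a k‖ ≤ ‖h z - a (k + 1)‖ + ρ := by
  have h1 := H.step hL k hz (z := z) (w := a k) le_rfl (by simp)
  have h2 : ‖b k * (z - a k)‖ - ‖h z - h (a k)‖ ≤ ‖(h z - h (a k)) - b k * (z - a k)‖ := by
    rw [norm_sub_rev (h z - h (a k))]
    exact norm_sub_norm_le _ _
  rw [norm_mul] at h2
  have h3 : ‖h z - h (a k)‖ ≤ ‖h z - a (k + 1)‖ + ‖a (k + 1) - h (a k)‖ :=
    norm_sub_le_norm_sub_add_norm_sub _ _ _
  have h4 := H.orb k
  rw [norm_sub_rev] at h4
  have h6 := H.two k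
  have h7 := mul_le_mul_of_nonneg_right hs (norm_nonneg (z - a k))
  have h8 := mul_le_mul_of_nonneg_right h6 (norm_nonneg (z - a k))
  linarith

/-- Passage along a repelling orbit. -/
theorem rep (L : ℝ) (hL : 0 ≤ L) : ∃ δ c : ℝ, 0 < δ ∧ δ ≤ 1 ∧ 0 < c ∧ ∀ (h : ℂ → ℂ) (a b : ℕ → ℂ) (ρ s : ℝ),
    Shadow h a b L ρ → 0 ≤ ρ → ρ ≤ s → 0 < s → s < δ →
    ∃ m : ℕ, ∀ z ∈ closedBall (a 0) s, ∀ w ∈ closedBall (a 0) s,
      c / s * ‖z - w‖ ≤ ‖h^[m] z - h^[m] w‖ := by
  have hL1 : 0 < 100 * (L + 1) := by positivity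
  set δ : ℝ := 1 / (100 * (L + 1)) with hδ
  have hδ0 : 0 < δ := by positivity
  have hδ1 : δ * (100 * (L + 1)) = 1 := by rw [hδ]; field_simp
  have hδ2 : 100 * δ ≤ 1 := by nlinarith
  have hLδ : 100 * (L * δ) ≤ 1 := by nlinarith
  have hLδ0 : 0 ≤ L * δ := by positivity
  refine ⟨δ, δ / 6, hδ0, by linarith, by positivity, ?_⟩
  intro h a b ρ s H hρ hρs hs hsδ
  set d : ℕ → ℂ → ℝ := fun k z => ‖h^[k] z - a k‖ with hd
  have hd0 : ∀ k z, 0 ≤ d k z := fun k z => norm_nonneg _
  set D : ℕ → ℝ := fun k => ∏ j ∈ Finset.range k, ‖b j‖ with hDdef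
  have hD2 : ∀ k, (2 : ℝ) ^ k ≤ D k := by
    intro k
    induction k with
    | zero => simp [hDdef]
    | succ k ih =>
        have e : D (k + 1) = D k * ‖b k‖ := Finset.prod_range_succ _ _
        rw [e, pow_succ]
        exact mul_le_mul ih (H.two k) (by norm_num) (by positivity)
  have hDp : ∀ k, 0 < D k := fun k => lt_of_lt_of_le (by positivity) (hD2 k)
  -- growth of pairs
  have hpair : ∀ (n : ℕ) (z w : ℂ), (∀ k < n, d k z < δ ∧ d k w < δ) →
      D n * Real.exp (-∑ j ∈ Finset.range n, (L * (d j z + d j w) + ρ)) * ‖z - w‖ ≤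
        ‖h^[n] z - h^[n] w‖ := by
    intro n z w
    induction n with
    | zero => intro _; simp [hDdef]
    | succ n ih =>
        intro hn
        have h1 := ih fun k hk => hn k (by omega)
        obtain ⟨h2, h3⟩ := hn n (by omega)
        have h4 := hd0 n z
        have h5 := hd0 n w
        have h6 := H.low hL hρ n (D := d n z + d n w) (by linarith) (by positivity)
          (by nlinarith) (z := h^[n] z) (w := h^[n] w) (by show d n z ≤ _; linarith)
          (by show d n w ≤ _; linarith)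
        rw [Function.iterate_succ_apply', Function.iterate_succ_apply', Finset.sum_range_succ, neg_add,
          Real.exp_add]
        have e : D (n + 1) = D n * ‖b n‖ := Finset.prod_range_succ _ _
        rw [e]
        refine le_trans ?_ h6
        have h7 := mul_le_mul_of_nonneg_left h1
          (show 0 ≤ ‖b n‖ * Real.exp (-(L * (d n z + d n w) + ρ)) by positivity)
        calc _ = ‖b n‖ * Real.exp (-(L * (d n z + d n w) + ρ)) * (D n *
              Real.exp (-∑ j ∈ Finset.range n, (L * (d j z + d j w) + ρ)) * ‖z - w‖) := by ring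
          _ ≤ _ := h7
  have hpair2 : ∀ (n : ℕ) (z w : ℂ), (∀ k < n, d k z < δ ∧ d k w < δ) →
      (3 / 2) ^ n * ‖z - w‖ ≤ ‖h^[n] z - h^[n] w‖ := by
    intro n z w
    induction n with
    | zero => intro _; simp
    | succ n ih =>
        intro hn
        have h1 := ih fun k hk => hn k (by omega)
        obtain ⟨h2, h3⟩ := hn n (by omega)
        have h6 := H.step hL n (D := δ) (by linarith) (z := h^[n] z) (w := h^[n] w) h2.le h3.le
        rw [Function.iterate_succ_apply', Function.iterate_succ_apply']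
        have h7 : ‖b n * (h^[n] z - h^[n] w)‖ - ‖h (h^[n] z) - h (h^[n] w)‖ ≤
            ‖(h (h^[n] z) - h (h^[n] w)) - b n * (h^[n] z - h^[n] w)‖ := by
          rw [norm_sub_rev (h (h^[n] z) - h (h^[n] w))]
          exact norm_sub_norm_le _ _
        rw [norm_mul] at h7
        have h8 := mul_le_mul_of_nonneg_right (H.two n) (norm_nonneg (h^[n] z - h^[n] w))
        have h9 : (L * δ + ρ) * ‖h^[n] z - h^[n] w‖ ≤ 1 / 2 * ‖h^[n] z - h^[n] w‖ := by
          apply mul_le_mul_of_nonneg_right _ (norm_nonneg _)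
          linarith
        rw [pow_succ]
        nlinarith
  -- the time of exit
  have hex : ∃ k : ℕ, ∃ z ∈ closedBall (a 0) s, δ ≤ d k z := by
    by_contra hcon
    push Not at hcon
    obtain ⟨n, hn⟩ := pow_unbounded_of_one_lt (2 * δ / s) (by norm_num : (1 : ℝ) < 3 / 2)
    have hz : a 0 ∈ closedBall (a 0) s := mem_closedBall_self hs.le
    have hw : a 0 + (s : ℂ) ∈ closedBall (a 0) s := by
      simp [dist_eq_norm, abs_of_pos hs]
    have h1 := hpair2 n (a 0 + s) (a 0) fun k _ => ⟨hcon k _ hw, hcon k _ hz⟩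
    have h2 : ‖a 0 + (s : ℂ) - a 0‖ = s := by
      rw [add_sub_cancel_left, Complex.norm_real, Real.norm_of_nonneg hs.le]
    rw [h2] at h1
    have h3 : ‖h^[n] (a 0 + s) - h^[n] (a 0)‖ ≤ d n (a 0 + s) + d n (a 0) := by
      have := norm_sub_le (h^[n] (a 0 + s) - a n) (h^[n] (a 0) - a n)
      simpa using this
    have h4 := hcon n _ hw
    have h5 := hcon n _ hz
    rw [div_lt_iff₀ hs] at hn
    linarith
  classical
  obtain ⟨zs, hzs, hzsd⟩ := Nat.find_spec hex
  set m := Nat.find hex with hm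
  have hmin : ∀ k < m, ∀ z ∈ closedBall (a 0) s, d k z < δ := by
    intro k hk z hz
    have h1 := Nat.find_min hex hk
    push Not at h1
    exact h1 z hz
  have hm0 : m ≠ 0 := by
    intro h0
    rw [h0] at hzsd
    have h1 : d 0 zs ≤ s := by simpa [hd, dist_eq_norm] using hzs
    linarith
  obtain ⟨n, hn⟩ := Nat.exists_eq_succ_of_ne_zero hm0
  have hmn : m = n + 1 := hn
  -- `ρ n` is small
  have hρn : ρ * n ≤ 4 * δ := by
    have hz : a 0 ∈ closedBall (a 0) s := mem_closedBall_self hs.le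
    have hw : a 0 + (s : ℂ) ∈ closedBall (a 0) s := by
      simp [dist_eq_norm, abs_of_pos hs]
    have h1 := hpair2 n (a 0 + s) (a 0) fun k hk => ⟨hmin k (by omega) _ hw, hmin k (by omega) _ hz⟩
    have h2 : ‖a 0 + (s : ℂ) - a 0‖ = s := by
      rw [add_sub_cancel_left, Complex.norm_real, Real.norm_of_nonneg hs.le]
    rw [h2] at h1
    have h3 : ‖h^[n] (a 0 + s) - h^[n] (a 0)‖ ≤ d n (a 0 + s) + d n (a 0) := by
      have := norm_sub_le (h^[n] (a 0 + s) - a n) (h^[n] (a 0) - a n)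
      simpa using this
    have h4 := hmin n (by omega) _ hw
    have h5 := hmin n (by omega) _ hz
    have h6 : (1 : ℝ) + n * (1 / 2) ≤ (1 + 1 / 2) ^ n := one_add_mul_le_pow (by norm_num) n
    have h7 : (1 + (1 : ℝ) / 2) = 3 / 2 := by norm_num
    rw [h7] at h6
    have h8 : (1 + (n : ℝ) * (1 / 2)) * s ≤ 2 * δ := by nlinarith
    have h9 : (0 : ℝ) ≤ n := Nat.cast_nonneg n
    nlinarith
  -- the sums of the distances
  have hsum : ∀ z ∈ closedBall (a 0) s, ∀ j ≤ n, ∑ k ∈ Finset.range j, d k z ≤ 2 * d j z + 2 * j * ρ := by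
    intro z hz j
    induction j with
    | zero => intro _; simpa using hd0 0 z
    | succ j ih =>
        intro hj
        have h1 := ih (by omega)
        have h2 := hmin j (by omega) z hz
        have h3 := H.three hL j (z := h^[j] z) (by show d j z ≤ 1; linarith)
          (by
            show L * d j z + ρ ≤ 1 / 2
            have := mul_le_mul_of_nonneg_left h2.le hL
            linarith)
        have h4 : 3 / 2 * d j z ≤ d (j + 1) z + ρ := by
          have e : d (j + 1) z = ‖h (h^[j] z) - a (j + 1)‖ := by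
            simp only [hd, Function.iterate_succ_apply']
          rw [e]
          exact h3
        rw [Finset.sum_range_succ]
        push_cast
        linarith
  have hX : ∀ z ∈ closedBall (a 0) s, ∑ k ∈ Finset.range (n + 1), (L * d k z + ρ) ≤ 1 / 4 := by
    intro z hz
    have h1 := hsum z hz n le_rfl
    have h2 := hmin n (by omega) z hz
    rw [Finset.sum_add_distrib, ← Finset.mul_sum, Finset.sum_range_succ, Finset.sum_const,
      Finset.card_range, nsmul_eq_mul]
    have h3 : ∑ k ∈ Finset.range n, d k z + d n z ≤ 11 * δ := by nlinarith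
    have h4 := mul_le_mul_of_nonneg_left h3 hL
    push_cast
    nlinarith
  refine ⟨m, ?_⟩
  -- the upper bound for the distance at the exit
  have hup : ∀ j ≤ n + 1, d j zs ≤ D j * Real.exp (∑ k ∈ Finset.range j, (L * d k zs + ρ)) *
      (s + ρ * (1 - (1 / 2) ^ j)) := by
    intro j
    induction j with
    | zero =>
        intro _
        have h1 : d 0 zs ≤ s := by simpa [hd, dist_eq_norm] using hzs
        simpa [hDdef] using h1
    | succ j ih =>
        intro hj
        have h1 := ih (by omega)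
        have h2 := hmin j (by omega) zs hzs
        have h3 := H.up hL hρ j (z := h^[j] zs) (by show d j zs ≤ 1; linarith)
        have e : d (j + 1) zs = ‖h (h^[j] zs) - a (j + 1)‖ := by
          simp only [hd, Function.iterate_succ_apply']
        rw [e]
        refine h3.trans ?_
        show ‖b j‖ * Real.exp (L * d j zs + ρ) * d j zs + ρ ≤ _
        rw [Finset.sum_range_succ, Real.exp_add (∑ k ∈ Finset.range j, (L * d k zs + ρ))]
        have e2 : D (j + 1) = D j * ‖b j‖ := Finset.prod_range_succ _ _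
        rw [e2]
        have h4 := mul_le_mul_of_nonneg_left h1
          (show 0 ≤ ‖b j‖ * Real.exp (L * d j zs + ρ) by positivity)
        have h5 : (0 : ℝ) ≤ ∑ k ∈ Finset.range j, (L * d k zs + ρ) :=
          Finset.sum_nonneg fun k _ => by have := hd0 k zs; positivity
        have h6 : 1 ≤ Real.exp (∑ k ∈ Finset.range j, (L * d k zs + ρ)) := Real.one_le_exp h5
        have h7 : 1 ≤ Real.exp (L * d j zs + ρ) := Real.one_le_exp (by have := hd0 j zs; positivity)
        have h8 : (2 : ℝ) ^ (j + 1) ≤ D j * ‖b j‖ := by rw [← e2]; exact hD2 (j + 1)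
        have h9 : (1 : ℝ) ≤ D j * ‖b j‖ * (1 / 2) ^ (j + 1) := by
          have := mul_le_mul_of_nonneg_right h8 (show (0 : ℝ) ≤ (1 / 2) ^ (j + 1) by positivity)
          rw [← mul_pow] at this
          norm_num at this ⊢
          exact this
        have h10 : 1 ≤ D j * ‖b j‖ * (1 / 2) ^ (j + 1) *
            (Real.exp (∑ k ∈ Finset.range j, (L * d k zs + ρ)) * Real.exp (L * d j zs + ρ)) := by
          have h11 : 1 ≤ Real.exp (∑ k ∈ Finset.range j, (L * d k zs + ρ)) *
              Real.exp (L * d j zs + ρ) := one_le_mul_of_one_le_of_one_le h6 h7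
          exact one_le_mul_of_one_le_of_one_le h9 h11
        have h11 := mul_le_mul_of_nonneg_left h10 hρ
        have e3 : (1 : ℝ) - (1 / 2) ^ (j + 1) = (1 - (1 / 2) ^ j) + (1 / 2) ^ (j + 1) := by
          rw [pow_succ]; ring
        rw [e3]
        calc _ ≤ ‖b j‖ * Real.exp (L * d j zs + ρ) * (D j *
              Real.exp (∑ k ∈ Finset.range j, (L * d k zs + ρ)) * (s + ρ * (1 - (1 / 2) ^ j))) +
              ρ * (D j * ‖b j‖ * (1 / 2) ^ (j + 1) *
            (Real.exp (∑ k ∈ Finset.range j, (L * d k zs + ρ)) * Real.exp (L * d j zs + ρ))) := by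
                linarith
          _ = _ := by ring
  have hfin := hup (n + 1) le_rfl
  rw [hmn] at hzsd
  have h1 : δ ≤ D (n + 1) * Real.exp (1 / 4) * (2 * s) := by
    refine hzsd.trans (hfin.trans ?_)
    have h2 : Real.exp (∑ k ∈ Finset.range (n + 1), (L * d k zs + ρ)) ≤ Real.exp (1 / 4) :=
      Real.exp_le_exp.2 (hX zs hzs)
    have h3 : s + ρ * (1 - (1 / 2) ^ (n + 1)) ≤ 2 * s := by
      have : ρ * (1 - (1 / 2) ^ (n + 1)) ≤ ρ * 1 := by
        apply mul_le_mul_of_nonneg_left _ hρ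
        have : (0 : ℝ) < (1 / 2) ^ (n + 1) := by positivity
        linarith
      linarith
    have h4 : 0 ≤ s + ρ * (1 - (1 / 2) ^ (n + 1)) := by
      have : (1 / 2 : ℝ) ^ (n + 1) ≤ 1 := pow_le_one₀ (by norm_num) (by norm_num)
      have : 0 ≤ ρ * (1 - (1 / 2) ^ (n + 1)) := mul_nonneg hρ (by linarith)
      linarith
    have h5 := (hDp (n + 1)).le
    gcongr
  intro z hz w hw
  have h2 := hpair (n + 1) z w fun k hk => ⟨hmin k (by omega) z hz, hmin k (by omega) w hw⟩
  have h3 : ∑ j ∈ Finset.range (n + 1), (L * (d j z + d j w) + ρ) ≤ 1 / 2 := by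
    have h4 := hX z hz
    have h5 := hX w hw
    have h6 : ∑ j ∈ Finset.range (n + 1), (L * (d j z + d j w) + ρ) ≤
        ∑ j ∈ Finset.range (n + 1), (L * d j z + ρ) + ∑ j ∈ Finset.range (n + 1), (L * d j w + ρ) := by
      rw [← Finset.sum_add_distrib]
      refine Finset.sum_le_sum fun j _ => ?_
      linarith
    linarith
  have h4 : Real.exp (-(1 / 2)) ≤ Real.exp (-∑ j ∈ Finset.range (n + 1), (L * (d j z + d j w) + ρ)) :=
    Real.exp_le_exp.2 (by linarith)
  rw [hmn]
  refine le_trans ?_ h2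
  apply mul_le_mul_of_nonneg_right _ (norm_nonneg _)
  refine le_trans ?_ (mul_le_mul_of_nonneg_left h4 (hDp (n + 1)).le)
  rw [div_le_iff₀ hs]
  have h5 : Real.exp (1 / 4) * Real.exp (1 / 2) ≤ 3 := by
    rw [← Real.exp_add]
    have h6 : Real.exp (1 / 4 + 1 / 2) ≤ Real.exp 1 := Real.exp_le_exp.2 (by norm_num)
    linarith [Real.exp_one_lt_d9]
  have h6 : Real.exp (1 / 2) * Real.exp (-(1 / 2)) = 1 := by
    rw [← Real.exp_add]; simp
  have h7 : D (n + 1) * Real.exp (1 / 4) * (2 * s) ≤ 6 * (D (n + 1) * Real.exp (-(1 / 2)) * s) := by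
    have h8 : Real.exp (1 / 4) ≤ 3 * Real.exp (-(1 / 2)) := by
      have := mul_le_mul_of_nonneg_right h5 (Real.exp_pos (-(1 / 2))).le
      rw [mul_assoc, h6, mul_one] at this
      exact this
    have h9 := mul_le_mul_of_nonneg_left h8 (mul_nonneg (hDp (n + 1)).le hs.le)
    nlinarith
  linarith

end Pool.Agent.H20.MZ
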