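import Pool.Agent.H20.MZ.Base
import Pool.Agent.H20.MZ.Rep

/-! # Area near a repelling orbit -/

set_option autoImplicit false

open Topology Filter Metric Set Polynomial MeasureTheory
open Pool.Agent.H713R5.QJ (ev)

namespace Pool.Agent.H20.MZ

/-- the area of the part of `K` in `E` -/
noncomputable def ar (K E : Set ℂ) : ℝ := (volume (K ∩ E)).toReal

theorem ar_nonneg (K E : Set ℂ) : 0 ≤ ar K E := ENNReal.toReal_nonneg

/-- a measurable forward invariant set of finite area -/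
structure Inv (S : ℂ[X]) (K : Set ℂ) : Prop where
  maps : ∀ z ∈ K, ev S z ∈ K
  meas : MeasurableSet K
  fin : volume K < ⊤

theorem Inv.iter {S : ℂ[X]} {K : Set ℂ} (h : Inv S K) (n : ℕ) : ∀ z ∈ K, (ev S)^[n] z ∈ K := by
  induction n with
  | zero => intro z hz; simpa using hz
  | succ n ih =>
      intro z hz
      rw [Function.iterate_succ_apply']
      exact h.maps _ (ih z hz)

theorem Inv.lt {S : ℂ[X]} {K : Set ℂ} (h : Inv S K) (E : Set ℂ) : volume (K ∩ E) < ⊤ :=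
  lt_of_le_of_lt (measure_mono inter_subset_left) h.fin

theorem Inv.mono {S : ℂ[X]} {K : Set ℂ} (h : Inv S K) {E F : Set ℂ} (hEF : E ⊆ F) :
    ar K E ≤ ar K F :=
  ENNReal.toReal_mono (h.lt F).ne (measure_mono (inter_subset_inter_right _ hEF))

theorem Inv.union {S : ℂ[X]} {K : Set ℂ} (h : Inv S K) (E F : Set ℂ) :
    ar K (E ∪ F) ≤ ar K E + ar K F := by
  unfold ar
  rw [← ENNReal.toReal_add (h.lt E).ne (h.lt F).ne, inter_union_distrib_left]
  exact ENNReal.toReal_mono (ENNReal.add_lt_top.2 ⟨h.lt E, h.lt F⟩).ne (measure_union_le _ _)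

theorem Inv.le_univ {S : ℂ[X]} {K : Set ℂ} (h : Inv S K) (E : Set ℂ) : ar K E ≤ ar K univ :=
  h.mono (subset_univ _)

theorem ar_ball (K : Set ℂ) (x : ℂ) {s : ℝ} (hs : 0 ≤ s) : ar K (ball x s) ≤ Real.pi * s ^ 2 := by
  unfold ar
  have h1 : volume (K ∩ ball x s) ≤ volume (ball x s) := measure_mono inter_subset_right
  rw [Complex.volume_ball] at h1
  have h2 := ENNReal.toReal_mono (ENNReal.mul_lt_top (ENNReal.pow_lt_top ENNReal.ofReal_lt_top)
    ENNReal.coe_lt_top).ne h1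
  refine h2.trans (le_of_eq ?_)
  rw [ENNReal.toReal_mul, ENNReal.toReal_pow, ENNReal.toReal_ofReal hs]
  simp
  ring

/-- pulling back by an iterate which expands distances -/
theorem Inv.pull {S : ℂ[X]} {K : Set ℂ} (h : Inv S K) {U E : Set ℂ} (hU : IsOpen U) {lam : ℝ}
    (hlam : 0 < lam) (m : ℕ) (hx : ∀ z ∈ U, ∀ w ∈ U, lam * ‖z - w‖ ≤ ‖(ev S)^[m] z - (ev S)^[m] w‖)
    (hE : ∀ z ∈ U, (ev S)^[m] z ∈ E) : ar K U ≤ lam⁻¹ ^ 2 * ar K E := by
  have h1 := area_le (it_diff S m) hU hlam hx (h.meas.inter hU.measurableSet) inter_subset_right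
  have h2 : volume ((ev S)^[m] '' (K ∩ U)) ≤ volume (K ∩ E) := by
    apply measure_mono
    rintro _ ⟨z, hz, rfl⟩
    exact ⟨h.iter m z hz.1, hE z hz.2⟩
  have h3 : volume (K ∩ U) ≤ ENNReal.ofReal (lam⁻¹ ^ 2) * volume (K ∩ E) :=
    h1.trans (by gcongr)
  unfold ar
  have h4 := ENNReal.toReal_mono (ENNReal.mul_lt_top ENNReal.ofReal_lt_top (h.lt E)).ne h3
  rwa [ENNReal.toReal_mul, ENNReal.toReal_ofReal (by positivity)] at h4

/-- The iterates of nearby polynomials shadow the orbits in a finite expanding set. -/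
theorem shadow (T : ℂ[X]) (P : Set ℂ) (hP : P.Finite) (hTP : ∀ p ∈ P, ev T p ∈ P) (N : ℕ)
    (hN : ∀ p ∈ P, 2 ≤ ‖deriv (ev T)^[N] p‖) :
    ∃ L C : ℝ, 0 < L ∧ 0 < C ∧ ∀ (r : ℝ) (S : ℂ[X]), r ≤ 1 → Nr T r S → ∀ p ∈ P,
      Shadow (ev S)^[N] (fun k => ((ev T)^[N])^[k] p)
        (fun k => deriv (ev T)^[N] (((ev T)^[N])^[k] p)) L (C * r) := by
  obtain ⟨R, hR⟩ := hP.isBounded.exists_norm_le
  obtain ⟨C, hC, hn⟩ := near_iter_deriv T N (R + 1)
  have hdg : Differentiable ℂ (deriv (ev T)^[N]) := by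
    intro x
    exact ((it_diff T N).analyticAt x).deriv.differentiableAt
  obtain ⟨L, hL, hl⟩ := lip _ hdg (R + 1)
  refine ⟨L, C, hL, hC, ?_⟩
  intro r S hr hS p hp
  have hPi : ∀ k, ((ev T)^[N])^[k] p ∈ P := by
    have h1 : ∀ k : ℕ, ∀ q ∈ P, (ev T)^[k] q ∈ P := by
      intro k
      induction k with
      | zero => intro q hq; simpa using hq
      | succ k ih =>
          intro q hq
          rw [Function.iterate_succ_apply']
          exact hTP _ (ih q hq)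
    intro k
    rw [← Function.iterate_mul]
    exact h1 _ p hp
  refine ⟨it_diff S N, ?_, ?_, ?_⟩
  · intro k
    have h2 := (hn r S hr hS (((ev T)^[N])^[k] p) (by linarith [hR _ (hPi k)])).1
    rw [Function.iterate_succ_apply']
    exact h2
  · intro k z hz
    have h1 := hR _ (hPi k)
    have h2 : ‖z‖ ≤ R + 1 := by
      have := norm_sub_norm_le z (((ev T)^[N])^[k] p)
      linarith
    have h3 := (hn r S hr hS z h2).2
    have h4 := hl z (((ev T)^[N])^[k] p) h2 (by linarith)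
    calc _ ≤ ‖deriv (ev S)^[N] z - deriv (ev T)^[N] z‖ +
          ‖deriv (ev T)^[N] z - deriv (ev T)^[N] (((ev T)^[N])^[k] p)‖ :=
          norm_sub_le_norm_sub_add_norm_sub _ _ _
      _ ≤ _ := by linarith
  · intro k
    exact hN _ (hPi k)

/-- Passage along the orbits of a finite set `P` of expanding points. -/
theorem passage (T : ℂ[X]) (P : Set ℂ) (hP : P.Finite) (hTP : ∀ p ∈ P, ev T p ∈ P) (N : ℕ)
    (hN : ∀ p ∈ P, 2 ≤ ‖deriv (ev T)^[N] p‖) :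
    ∃ δ c C : ℝ, 0 < δ ∧ 0 < c ∧ 0 < C ∧ ∀ (r : ℝ) (S : ℂ[X]), r ≤ 1 → Nr T r S → ∀ p ∈ P, ∀ s : ℝ,
      C * r ≤ s → 0 < s → s < δ → ∃ m : ℕ, ∀ z ∈ closedBall p s, ∀ w ∈ closedBall p s,
        c / s * ‖z - w‖ ≤ ‖(ev S)^[m] z - (ev S)^[m] w‖ := by
  obtain ⟨L, C, hL, hC, hsh⟩ := shadow T P hP hTP N hN
  obtain ⟨δ, c, hδ, hδ1, hc, h⟩ := rep L hL.le
  refine ⟨δ, c, C, hδ, hc, hC, ?_⟩
  intro r S hr hS p hp s hrs hs hsδ
  have hr0 := hS.nonneg
  obtain ⟨m, hm⟩ := h _ _ _ (C * r) s (hsh r S hr hS p hp) (by positivity) hrs hs hsδ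
  refine ⟨N * m, ?_⟩
  rw [Function.iterate_mul]
  exact hm

/-- Area near the expanding points. -/
theorem passage_area (T : ℂ[X]) (P : Set ℂ) (hP : P.Finite) (hTP : ∀ p ∈ P, ev T p ∈ P) (N : ℕ)
    (hN : ∀ p ∈ P, 2 ≤ ‖deriv (ev T)^[N] p‖) :
    ∃ δ B C : ℝ, 0 < δ ∧ 0 < B ∧ 0 < C ∧ ∀ (r : ℝ) (S : ℂ[X]) (K : Set ℂ), r ≤ 1 → Nr T r S →
      Inv S K → ∀ p ∈ P, ∀ s : ℝ, C * r ≤ s → 0 < s → s < δ →
        ar K (ball p s) ≤ B * s ^ 2 * ar K univ := by
  obtain ⟨δ, c, C, hδ, hc, hC, h⟩ := passage T P hP hTP N hN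
  refine ⟨δ, (1 / c) ^ 2, C, hδ, by positivity, hC, ?_⟩
  intro r S K hr hS hK p hp s hrs hs hsδ
  obtain ⟨m, hm⟩ := h r S hr hS p hp s hrs hs hsδ
  have h1 := hK.pull (E := univ) isOpen_ball (lam := c / s) (by positivity) m
    (fun z hz w hw => hm z (ball_subset_closedBall hz) w (ball_subset_closedBall hw))
    (U := ball p s) (fun z _ => mem_univ _)
  refine h1.trans (le_of_eq ?_)
  rw [inv_div, div_pow, one_div, inv_pow]
  ring

end Pool.Agent.H20.MZ
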