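import Pool.Agent.H20.MZ.Pas
import Pool.Agent.H20.MZ.Branch

/-! # Good scales at the points which are not precritical -/

set_option autoImplicit false

open Topology Filter Metric Set Polynomial MeasureTheory
open Pool.Agent.H713R5.QJ (ev)

namespace Pool.Agent.H20.MZ

/-- The assumptions on the polynomial `T`: `K₀` is a compact forward invariant set, `P` is a
finite expanding set, the critical points are simple and mapped into `P`, or their orbits stay away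
from `K₀`. -/
structure Pre (T : ℂ[X]) (K₀ P : Set ℂ) : Prop where
  deg : 2 ≤ T.natDegree
  cpt : IsCompact K₀
  fwd : ∀ z ∈ K₀, ev T z ∈ K₀
  Pfin : P.Finite
  TP : ∀ p ∈ P, ev T p ∈ P
  exp : ∃ N : ℕ, ∀ p ∈ P, 2 ≤ ‖deriv (ev T)^[N] p‖
  crit : ∀ c : ℂ, (derivative T).eval c = 0 →
    (ev T c ∈ P ∧ (derivative (derivative T)).eval c ≠ 0) ∨
      ∃ ε : ℝ, 0 < ε ∧ ∀ n : ℕ, ∀ x ∈ K₀, ε ≤ ‖(ev T)^[n] c - x‖
  ret : ∃ δ : ℝ, 0 < δ ∧ ∀ z : ℂ, (∃ᶠ n in atTop, ∃ x ∈ K₀, ‖(ev T)^[n] z - x‖ < δ) → z ∈ K₀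

/-- The set `K₀` has measure zero. -/
structure Base (T : ℂ[X]) (K₀ P : Set ℂ) : Prop extends Pre T K₀ P where
  null : volume K₀ = 0

theorem deriv_add (T : ℂ[X]) (m n : ℕ) (z : ℂ) :
    deriv (ev T)^[m + n] z = deriv (ev T)^[m] ((ev T)^[n] z) * deriv (ev T)^[n] z := by
  have e : (ev T)^[m + n] = (ev T)^[m] ∘ (ev T)^[n] := Function.iterate_add _ _ _
  rw [e]
  exact deriv_comp z (it_diff T m _) (it_diff T n z)

theorem deriv_one (T : ℂ[X]) (z : ℂ) : deriv (ev T)^[1] z = (derivative T).eval z := by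
  rw [Function.iterate_one]
  exact T.deriv

theorem deriv_succ (T : ℂ[X]) (n : ℕ) (z : ℂ) :
    deriv (ev T)^[n + 1] z = (derivative T).eval ((ev T)^[n] z) * deriv (ev T)^[n] z := by
  rw [add_comm, deriv_add, deriv_one]

theorem deriv_ne {T : ℂ[X]} {n : ℕ} {z : ℂ} (h : ∀ j < n, (derivative T).eval ((ev T)^[j] z) ≠ 0) :
    deriv (ev T)^[n] z ≠ 0 := by
  induction n with
  | zero => simp
  | succ n ih =>
      rw [deriv_succ]
      exact mul_ne_zero (h n (by omega)) (ih fun j hj => h j (by omega))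

theorem exists_crit {T : ℂ[X]} {n : ℕ} {z : ℂ} (h : deriv (ev T)^[n] z = 0) :
    ∃ j < n, (derivative T).eval ((ev T)^[j] z) = 0 := by
  by_contra hcon
  push Not at hcon
  exact deriv_ne hcon h

/-- the iterate as a polynomial -/
noncomputable def itp (T : ℂ[X]) (n : ℕ) : ℂ[X] := T.comp^[n] X

theorem itp_ev (T : ℂ[X]) (n : ℕ) (z : ℂ) : (itp T n).eval z = (ev T)^[n] z := by
  unfold itp
  rw [Polynomial.iterate_comp_eval, Polynomial.eval_X]
  rfl

theorem itp_deriv (T : ℂ[X]) (n : ℕ) (z : ℂ) : (derivative (itp T n)).eval z = deriv (ev T)^[n] z := by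
  have e : (ev T)^[n] = fun z => (itp T n).eval z := by
    funext z
    exact (itp_ev T n z).symm
  rw [e]
  exact ((itp T n).deriv).symm

/-- local bounds for an entire function where the derivative does not vanish -/
theorem bilip {g : ℂ → ℂ} (hg : Differentiable ℂ g) {x : ℂ} (hx : deriv g x ≠ 0) :
    ∃ ρ : ℝ, 0 < ρ ∧ ∀ z ∈ closedBall x ρ, ∀ w ∈ closedBall x ρ,
      ‖deriv g x‖ / 2 * ‖z - w‖ ≤ ‖g z - g w‖ ∧ ‖g z - g w‖ ≤ 2 * ‖deriv g x‖ * ‖z - w‖ := by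
  have hl : 0 < ‖deriv g x‖ := norm_pos_iff.2 hx
  have hst : HasStrictDerivAt g (deriv g x) x := (hg.analyticAt x).hasStrictDerivAt
  have h1 := hst.isLittleO.def (show 0 < ‖deriv g x‖ / 2 by positivity)
  rw [nhds_prod_eq] at h1
  obtain ⟨ρ, hρ, h2⟩ := (Metric.nhds_basis_closedBall.prod_self).eventually_iff.1 h1
  refine ⟨ρ, hρ, ?_⟩
  intro z hz w hw
  have h3 := h2 (x := (z, w)) (mk_mem_prod hz hw)
  simp only [ContinuousLinearMap.toSpanSingleton_apply, smul_eq_mul] at h3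
  have h4 : ‖(z - w) * deriv g x‖ = ‖deriv g x‖ * ‖z - w‖ := by rw [norm_mul, mul_comm]
  have h5 : ‖(z - w) * deriv g x‖ - ‖g z - g w‖ ≤ ‖g z - g w - (z - w) * deriv g x‖ := by
    rw [norm_sub_rev (g z - g w)]
    exact norm_sub_norm_le _ _
  have h6 : ‖g z - g w‖ - ‖(z - w) * deriv g x‖ ≤ ‖g z - g w - (z - w) * deriv g x‖ :=
    norm_sub_norm_le _ _
  rw [h4] at h5 h6
  constructor
  · linarith
  · nlinarith [norm_nonneg (z - w)]

/-- An orbit which stays near the expanding set lands on it. -/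
theorem Pre.lands {T : ℂ[X]} {K₀ P : Set ℂ} (H : Pre T K₀ P) :
    ∃ δ : ℝ, 0 < δ ∧ ∀ x : ℂ, (∀ᶠ n in atTop, ∃ p ∈ P, ‖(ev T)^[n] x - p‖ < δ) →
      ∃ n : ℕ, (ev T)^[n] x ∈ P := by
  obtain ⟨N, hN⟩ := H.exp
  obtain ⟨L, C, hL, hC, hsh⟩ := shadow T P H.Pfin H.TP N hN
  obtain ⟨R, hR⟩ := H.Pfin.isBounded.exists_norm_le
  obtain ⟨L₁, hL₁, hl⟩ := lip _ (ev_diff T) (R + 1)
  -- the points of `P` are separated
  obtain ⟨σ, hσ, hsep⟩ : ∃ σ : ℝ, 0 < σ ∧ ∀ p ∈ P, ∀ q ∈ P, ‖p - q‖ < σ → p = q := by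
    have h1 : {t : ℝ | ∃ p ∈ P, ∃ q ∈ P, p ≠ q ∧ t = ‖p - q‖}.Finite := by
      refine ((H.Pfin.prod H.Pfin).image fun x : ℂ × ℂ => ‖x.1 - x.2‖).subset ?_
      rintro t ⟨p, hp, q, hq, -, rfl⟩
      exact ⟨(p, q), ⟨hp, hq⟩, rfl⟩
    have h2 : (0 : ℝ) ∉ {t : ℝ | ∃ p ∈ P, ∃ q ∈ P, p ≠ q ∧ t = ‖p - q‖} := by
      rintro ⟨p, -, q, -, hne, h⟩
      exact hne (sub_eq_zero.1 (norm_eq_zero.1 h.symm))
    obtain ⟨σ, hσ, h3⟩ := Metric.isOpen_iff.1 h1.isClosed.isOpen_compl 0 h2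
    refine ⟨σ, hσ, fun p hp q hq hpq => ?_⟩
    by_contra hne
    exact h3 (show ‖p - q‖ ∈ ball (0 : ℝ) σ by simpa using hpq) ⟨p, hp, q, hq, hne, rfl⟩
  set δ : ℝ := min (min 1 (1 / (2 * L))) (σ / (L₁ + 2)) with hδ
  have hδ0 : 0 < δ := by positivity
  have hδ1 : δ ≤ 1 := (min_le_left _ _).trans (min_le_left _ _)
  have hδL : L * δ ≤ 1 / 2 := by
    have : δ ≤ 1 / (2 * L) := (min_le_left _ _).trans (min_le_right _ _)
    rw [le_div_iff₀ (by positivity)] at this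
    linarith
  have hδσ : (L₁ + 1) * δ < σ := by
    have : δ ≤ σ / (L₁ + 2) := min_le_right _ _
    rw [le_div_iff₀ (by positivity)] at this
    linarith
  refine ⟨δ, hδ0, ?_⟩
  intro x hx
  obtain ⟨n₀, hn₀⟩ := eventually_atTop.1 hx
  obtain ⟨p, hp, hxp⟩ := hn₀ n₀ le_rfl
  have hPi : ∀ k : ℕ, (ev T)^[k] p ∈ P := by
    intro k
    induction k with
    | zero => simpa using hp
    | succ k ih =>
        rw [Function.iterate_succ_apply']
        exact H.TP _ ih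
  set y : ℂ := (ev T)^[n₀] x with hy
  have hk : ∀ k : ℕ, ‖(ev T)^[k] y - (ev T)^[k] p‖ < δ := by
    intro k
    induction k with
    | zero => simpa using hxp
    | succ k ih =>
        obtain ⟨q, hq, h1⟩ := hn₀ (k + 1 + n₀) (by omega)
        rw [Function.iterate_add_apply, ← hy] at h1
        have h2 : ‖(ev T)^[k + 1] y - (ev T)^[k + 1] p‖ ≤ L₁ * ‖(ev T)^[k] y - (ev T)^[k] p‖ := by
          rw [Function.iterate_succ_apply', Function.iterate_succ_apply']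
          have e1 := hR _ (hPi k)
          refine hl _ _ ?_ (by linarith)
          have := norm_sub_norm_le ((ev T)^[k] y) ((ev T)^[k] p)
          linarith
        have h3 : ‖q - (ev T)^[k + 1] p‖ < σ := by
          have h4 : ‖q - (ev T)^[k + 1] p‖ ≤ ‖q - (ev T)^[k + 1] y‖ +
              ‖(ev T)^[k + 1] y - (ev T)^[k + 1] p‖ := norm_sub_le_norm_sub_add_norm_sub _ _ _
          rw [norm_sub_rev q ((ev T)^[k + 1] y)] at h4
          have h5 : L₁ * ‖(ev T)^[k] y - (ev T)^[k] p‖ ≤ L₁ * δ := by gcongr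
          linarith
        rw [← hsep _ hq _ (hPi (k + 1)) h3]
        exact h1
  refine ⟨n₀, ?_⟩
  rw [← hy]
  have hS := hsh 0 T (by norm_num) (Nr.self T le_rfl) p hp
  have hgr : ∀ k : ℕ, (3 / 2 : ℝ) ^ k * ‖y - p‖ ≤ ‖((ev T)^[N])^[k] y - ((ev T)^[N])^[k] p‖ := by
    intro k
    induction k with
    | zero => simp
    | succ k ih =>
        have h1 : ‖((ev T)^[N])^[k] y - ((ev T)^[N])^[k] p‖ < δ := by
          rw [← Function.iterate_mul]
          exact hk _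
        have h2 := hS.three hL.le k (z := ((ev T)^[N])^[k] y) (by linarith) (by
          have := mul_le_mul_of_nonneg_left h1.le hL.le
          simp only [mul_zero, add_zero]
          linarith)
        simp only [mul_zero, add_zero] at h2
        rw [Function.iterate_succ_apply' _ k y, pow_succ]
        nlinarith
  by_contra hne
  have hyp : 0 < ‖y - p‖ := by
    rw [norm_pos_iff, sub_ne_zero]
    rintro rfl
    exact hne hp
  obtain ⟨k, hk2⟩ := pow_unbounded_of_one_lt (δ / ‖y - p‖) (by norm_num : (1 : ℝ) < 3 / 2)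
  rw [div_lt_iff₀ hyp] at hk2
  have h1 := hgr k
  have h2 : ‖((ev T)^[N])^[k] y - ((ev T)^[N])^[k] p‖ < δ := by
    rw [← Function.iterate_mul]
    exact hk _
  linarith

theorem exists_lower {s : Set ℂ} (hs : s.Finite) (ε : ℂ → ℝ) (hε : ∀ c, 0 < ε c) :
    ∃ δ : ℝ, 0 < δ ∧ ∀ c ∈ s, δ ≤ ε c := by
  induction s, hs using Set.Finite.induction_on with
  | empty => exact ⟨1, one_pos, by simp⟩
  | insert _ _ ih =>
      rename_i a s _ _
      obtain ⟨δ, hδ, h⟩ := ih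
      refine ⟨min δ (ε a), lt_min hδ (hε a), ?_⟩
      rintro c (rfl | hc)
      · exact min_le_right _ _
      · exact (min_le_left _ _).trans (h c hc)

/-- Discs about the points of `K₀` away from `P` contain no critical values of the iterates. -/
theorem Pre.free {T : ℂ[X]} {K₀ P : Set ℂ} (H : Pre T K₀ P) :
    ∃ δ : ℝ, 0 < δ ∧ ∀ y ∈ K₀, ∀ ρ : ℝ, ρ ≤ δ → (∀ p ∈ P, ρ ≤ ‖y - p‖) → ∀ n : ℕ, ∀ z : ℂ,
      deriv (ev T)^[n] z = 0 → (ev T)^[n] z ∉ ball y ρ := by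
  have hfin : {c : ℂ | (derivative T).eval c = 0}.Finite := by
    have h0 : derivative T ≠ 0 := by
      intro h
      have := H.deg
      have h2 := Polynomial.derivative_eq_zero.1 h
      omega
    exact ((derivative T).roots.toFinset.finite_toSet).subset fun c hc => by
      simp only [Finset.mem_coe, Multiset.mem_toFinset]
      exact (Polynomial.mem_roots h0).2 hc
  have h1 : ∃ δ : ℝ, 0 < δ ∧ ∀ c ∈ {c : ℂ | (derivative T).eval c = 0},
      ev T c ∈ P ∨ ∀ n : ℕ, ∀ x ∈ K₀, δ ≤ ‖(ev T)^[n] c - x‖ := by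
    have h2 : ∀ c : ℂ, ∃ ε : ℝ, 0 < ε ∧ ((derivative T).eval c = 0 →
        ev T c ∈ P ∨ ∀ n : ℕ, ∀ x ∈ K₀, ε ≤ ‖(ev T)^[n] c - x‖) := by
      intro c
      by_cases hc : (derivative T).eval c = 0
      · rcases H.crit c hc with h2 | ⟨ε, hε, h2⟩
        · exact ⟨1, one_pos, fun _ => Or.inl h2.1⟩
        · exact ⟨ε, hε, fun _ => Or.inr h2⟩
      · exact ⟨1, one_pos, fun h => absurd h hc⟩
    choose ε hε h3 using h2
    obtain ⟨δ, hδ, h4⟩ := exists_lower hfin ε hε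
    refine ⟨δ, hδ, fun c hc => ?_⟩
    rcases h3 c hc with h5 | h5
    · exact Or.inl h5
    · exact Or.inr fun n x hx => (h4 c hc).trans (h5 n x hx)
  obtain ⟨δ, hδ, h⟩ := h1
  refine ⟨δ, hδ, ?_⟩
  intro y hy ρ hρ hP n z hz hmem
  obtain ⟨j, hj, hc⟩ := exists_crit hz
  have hPk : ∀ k : ℕ, ∀ q ∈ P, (ev T)^[k] q ∈ P := by
    intro k
    induction k with
    | zero => intro q hq; simpa using hq
    | succ k ih =>
        intro q hq
        rw [Function.iterate_succ_apply']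
        exact H.TP _ (ih q hq)
  rw [mem_ball, dist_eq_norm] at hmem
  obtain ⟨k, rfl⟩ : ∃ k, n = k + 1 + j := ⟨n - 1 - j, by omega⟩
  rw [Function.iterate_add_apply] at hmem
  rcases h _ hc with h2 | h2
  · have h3 : (ev T)^[k + 1] ((ev T)^[j] z) ∈ P := by
      rw [Function.iterate_succ_apply]
      exact hPk k _ h2
    have h4 := hP _ h3
    rw [norm_sub_rev] at h4
    linarith
  · have h4 := h2 (k + 1) y hy
    linarith

/-- The inverse branch at a point whose image is the centre of a disc without critical values, with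
distortion bounds. -/
theorem branch_data {T : ℂ[X]} {n : ℕ} {x : ℂ} {δ : ℝ} (hδ : 0 < δ)
    (hcv : ∀ z : ℂ, deriv (ev T)^[n] z = 0 → (ev T)^[n] z ∉ ball ((ev T)^[n] x) δ) :
    ∃ φ : ℂ → ℂ, (∀ w ∈ ball ((ev T)^[n] x) δ, (ev T)^[n] (φ w) = w) ∧ φ ((ev T)^[n] x) = x ∧
      (∀ w ∈ ball ((ev T)^[n] x) δ, deriv (ev T)^[n] (φ w) ≠ 0) ∧
      (∀ w ∈ ball ((ev T)^[n] x) δ, HasDerivAt φ (deriv (ev T)^[n] (φ w))⁻¹ w) ∧
      0 < ‖deriv φ ((ev T)^[n] x)‖ ∧
      ∀ w ∈ ball ((ev T)^[n] x) (δ / 2),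
        Real.exp (-4) * ‖deriv φ ((ev T)^[n] x)‖ ≤ ‖deriv φ w‖ ∧
        ‖deriv φ w‖ ≤ Real.exp 4 * ‖deriv φ ((ev T)^[n] x)‖ := by
  set y : ℂ := (ev T)^[n] x with hy
  set g : ℂ → ℂ := (ev T)^[n] with hg
  obtain ⟨φ, h1, h2, h3, h4⟩ := inv_branch (itp T n) (y := y) (ρ := δ)
    (fun z hz => by
      rw [itp_deriv] at hz
      rw [itp_ev]
      exact hcv z hz) (x := x) (by rw [itp_ev]; exact mem_ball_self hδ)
  rw [itp_ev] at h2
  have h1' : ∀ w ∈ ball y δ, g (φ w) = w := fun w hw => by rw [hg, ← itp_ev]; exact h1 w hw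
  have h3' : ∀ w ∈ ball y δ, deriv g (φ w) ≠ 0 := fun w hw => by
    have := h3 w hw
    rwa [itp_deriv] at this
  have h4' : ∀ w ∈ ball y δ, HasDerivAt φ (deriv g (φ w))⁻¹ w := fun w hw => by
    have := h4 w hw
    rwa [itp_deriv] at this
  have hdiff : DifferentiableOn ℂ φ (ball y δ) := fun w hw => (h4' w hw).differentiableAt.differentiableWithinAt
  have hinj : InjOn φ (ball y δ) := by
    intro a ha b hb hab
    rw [← h1' a ha, ← h1' b hb, hab]
  obtain ⟨hD, hK⟩ := Pool.Agent.Q222.XF.t_KOE φ y δ hδ hdiff hinj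
  exact ⟨φ, h1', h2, h3', h4', norm_pos_iff.2 hD, hK⟩

/-- The scale given by an inverse branch. -/
theorem branch_scale {T : ℂ[X]} {n : ℕ} {x : ℂ} {δ : ℝ} (hδ : 0 < δ)
    (hcv : ∀ z : ℂ, deriv (ev T)^[n] z = 0 → (ev T)^[n] z ∉ ball ((ev T)^[n] x) δ) :
    ∃ s : ℝ, 0 < s ∧ (∀ z ∈ ball x (2 * s), ‖(ev T)^[n] z - (ev T)^[n] x‖ < δ) ∧
      (∀ z ∈ closedBall x s, ∀ w ∈ closedBall x s,
        Real.exp (-8) * δ / 4 / s * ‖z - w‖ ≤ ‖(ev T)^[n] z - (ev T)^[n] w‖) ∧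
      (∀ z ∈ ball x s, ‖deriv (ev T)^[n] z‖ ≤ δ / (4 * s)) ∧
      ∀ w ∈ ball ((ev T)^[n] x) (Real.exp (-8) * δ / 4), ∃ z ∈ ball x s, (ev T)^[n] z = w := by
  obtain ⟨φ, h1', h2, h3', h4', hD0, hK⟩ := branch_data hδ hcv
  set y : ℂ := (ev T)^[n] x with hy
  set g : ℂ → ℂ := (ev T)^[n] with hg
  set D : ℝ := ‖deriv φ y‖ with hDdef
  set κ : ℝ := Real.exp (-4) * D with hκ
  have hκ0 : 0 < κ := by positivity
  have hhalf : ball y (δ / 2) ⊆ ball y δ := ball_subset_ball (by linarith)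
  have hinv : ∀ w ∈ ball y (δ / 2), κ * ‖deriv g (φ w)‖ ≤ 1 := by
    intro w hw
    have e1 := (hK w hw).1
    rw [(h4' w (hhalf hw)).deriv, norm_inv] at e1
    have e2 : 0 < ‖deriv g (φ w)‖ := norm_pos_iff.2 (h3' w (hhalf hw))
    calc κ * ‖deriv g (φ w)‖ ≤ ‖deriv g (φ w)‖⁻¹ * ‖deriv g (φ w)‖ := by gcongr
      _ = 1 := inv_mul_cancel₀ e2.ne'
  have hcov := cover (g := g) (φ := φ) (it_diff T n) (x := x) (y := y) (ρ := δ / 2) (κ := κ)
    (by positivity) hκ0 h2 (fun w hw => h1' w (hhalf hw)) (fun w hw => h4' w (hhalf hw))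
    (fun w hw => ⟨h3' w (hhalf hw), hinv w hw⟩)
  set s : ℝ := κ * δ / 4 with hs
  have hs0 : 0 < s := by positivity
  have hsub : closedBall x s ⊆ ball x (κ * (δ / 2)) :=
    closedBall_subset_ball (by rw [hs]; nlinarith [mul_pos hκ0 hδ])
  have hy2 : y ∈ ball y (δ / 2) := mem_ball_self (by positivity)
  have hphi : ∀ v ∈ ball y (δ / 2), ∀ w ∈ ball y (δ / 2), ‖φ v - φ w‖ ≤ Real.exp 4 * D * ‖v - w‖ :=
    fun v hv w hw => (convex_ball y (δ / 2)).norm_image_sub_le_of_norm_deriv_le (𝕜 := ℂ) (f := φ)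
      (C := Real.exp 4 * D) (fun v hv => (h4' v (hhalf hv)).differentiableAt)
      (fun v hv => (hK v hv).2) hw hv
  have e2 : Real.exp (-4) * Real.exp 4 = 1 := by rw [← Real.exp_add]; simp
  have e8 : Real.exp (-8) = Real.exp (-4) * Real.exp (-4) := by rw [← Real.exp_add]; norm_num
  refine ⟨s, hs0, ?_, ?_, ?_, ?_⟩
  · intro z hz
    have e : 2 * s = κ * (δ / 2) := by rw [hs]; ring
    rw [e] at hz
    have := (hcov z hz).1
    rw [mem_ball, dist_eq_norm] at this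
    linarith
  · intro z hz w hw
    obtain ⟨z1, z2⟩ := hcov z (hsub hz)
    obtain ⟨w1, w2⟩ := hcov w (hsub hw)
    have h5 := hphi _ z1 _ w1
    rw [z2, w2] at h5
    have e1 : Real.exp (-8) * δ / 4 / s = Real.exp (-4) / D := by
      rw [hs, hκ, e8]
      field_simp
    rw [e1]
    calc Real.exp (-4) / D * ‖z - w‖ ≤ Real.exp (-4) / D * (Real.exp 4 * D * ‖g z - g w‖) := by gcongr
      _ = (Real.exp (-4) * Real.exp 4) * ‖g z - g w‖ := by field_simp
      _ = ‖g z - g w‖ := by rw [e2, one_mul]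
  · intro z hz
    obtain ⟨z1, z2⟩ := hcov z (hsub (ball_subset_closedBall hz))
    have h5 := hinv _ z1
    rw [z2] at h5
    rw [le_div_iff₀ (by positivity), hs]
    have : ‖deriv g z‖ * (4 * (κ * δ / 4)) = κ * ‖deriv g z‖ * δ := by ring
    rw [this]
    nlinarith
  · intro w hw
    have hw2 : w ∈ ball y (δ / 2) := by
      refine ball_subset_ball ?_ hw
      have : Real.exp (-8) ≤ 1 := Real.exp_le_one_iff.2 (by norm_num)
      nlinarith
    refine ⟨φ w, ?_, h1' w (hhalf hw2)⟩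
    rw [mem_ball, dist_eq_norm] at hw ⊢
    have h5 := hphi w hw2 y hy2
    rw [h2] at h5
    refine lt_of_le_of_lt h5 ?_
    calc Real.exp 4 * D * ‖w - y‖ < Real.exp 4 * D * (Real.exp (-8) * δ / 4) := by gcongr
      _ = (Real.exp (-4) * Real.exp 4) * (Real.exp (-4) * D * δ / 4) := by rw [e8]; ring
      _ = s := by rw [e2, one_mul, hs]

/-- Good scales. -/
theorem Base.scale {T : ℂ[X]} {K₀ P : Set ℂ} (H : Base T K₀ P) :
    ∃ c₁ : ℝ, 0 < c₁ ∧ ∀ x ∈ K₀, (∀ n, (derivative T).eval ((ev T)^[n] x) ≠ 0) → ∀ ε : ℝ, 0 < ε →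
      ∃ s : ℝ, 0 < s ∧ s < ε ∧ ∃ n : ℕ, ∀ z ∈ closedBall x s, ∀ w ∈ closedBall x s,
        c₁ / s * ‖z - w‖ ≤ ‖(ev T)^[n] z - (ev T)^[n] w‖ := by
  obtain ⟨N, hN⟩ := H.exp
  obtain ⟨δ₄, c₄, C₄, hδ₄, hc₄, hC₄, hpas⟩ := passage T P H.Pfin H.TP N hN
  obtain ⟨δ₁, hδ₁, hl⟩ := H.lands
  obtain ⟨δ₂, hδ₂, hfree⟩ := H.free
  obtain ⟨δ₃, hδ₃, hret⟩ := H.ret
  set δ : ℝ := min δ₁ (min δ₂ δ₃) with hδ
  have hδ0 : 0 < δ := by positivity
  have hδ1 : δ ≤ δ₁ := min_le_left _ _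
  have hδ2 : δ ≤ δ₂ := (min_le_right _ _).trans (min_le_left _ _)
  have hδ3 : δ ≤ δ₃ := (min_le_right _ _).trans (min_le_right _ _)
  refine ⟨min (c₄ / 4) (Real.exp (-8) * δ / 4), by positivity, ?_⟩
  intro x hx hcr ε hε
  have hK : ∀ n : ℕ, (ev T)^[n] x ∈ K₀ := by
    intro n
    induction n with
    | zero => simpa using hx
    | succ n ih =>
        rw [Function.iterate_succ_apply']
        exact H.fwd _ ih
  by_cases hcase : ∃ M : ℕ, (ev T)^[M] x ∈ P
  · obtain ⟨M, hM⟩ := hcase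
    have hne : deriv (ev T)^[M] x ≠ 0 := deriv_ne fun j _ => hcr j
    obtain ⟨ρ₀, hρ₀, hbl⟩ := bilip (it_diff T M) hne
    set l : ℝ := ‖deriv (ev T)^[M] x‖ with hldef
    have hl0 : 0 < l := norm_pos_iff.2 hne
    set s : ℝ := min (ε / 2) (min ρ₀ (δ₄ / (4 * l))) with hs
    have hs0 : 0 < s := by positivity
    have hsε : s < ε := lt_of_le_of_lt (min_le_left _ _) (by linarith)
    have hsρ : s ≤ ρ₀ := (min_le_right _ _).trans (min_le_left _ _)
    have hsδ : 2 * l * s < δ₄ := by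
      have : s ≤ δ₄ / (4 * l) := (min_le_right _ _).trans (min_le_right _ _)
      rw [le_div_iff₀ (by positivity)] at this
      linarith
    obtain ⟨m, hm⟩ := hpas 0 T (by norm_num) (Nr.self T le_rfl) _ hM (2 * l * s) (by
      rw [mul_zero]; positivity) (by positivity) hsδ
    refine ⟨s, hs0, hsε, m + M, ?_⟩
    have hxs : x ∈ closedBall x ρ₀ := mem_closedBall_self hρ₀.le
    have hin : ∀ z ∈ closedBall x s, (ev T)^[M] z ∈ closedBall ((ev T)^[M] x) (2 * l * s) := by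
      intro z hz
      rw [mem_closedBall, dist_eq_norm] at hz ⊢
      have := (hbl z (by rw [mem_closedBall, dist_eq_norm]; exact hz.trans hsρ) x hxs).2
      exact this.trans (by gcongr)
    intro z hz w hw
    rw [Function.iterate_add_apply, Function.iterate_add_apply]
    have h1 := hm _ (hin z hz) _ (hin w hw)
    have h2 := (hbl z (closedBall_subset_closedBall hsρ hz) w (closedBall_subset_closedBall hsρ hw)).1
    calc min (c₄ / 4) (Real.exp (-8) * δ / 4) / s * ‖z - w‖ ≤ c₄ / 4 / s * ‖z - w‖ := by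
          gcongr
          exact min_le_left _ _
      _ = c₄ / (2 * l * s) * (l / 2 * ‖z - w‖) := by
          field_simp
          ring
      _ ≤ c₄ / (2 * l * s) * ‖(ev T)^[M] z - (ev T)^[M] w‖ := by gcongr
      _ ≤ _ := h1
  · push Not at hcase
    have hfreq : ∃ᶠ n in atTop, ∀ p ∈ P, δ ≤ ‖(ev T)^[n] x - p‖ := by
      intro hcon
      obtain ⟨n, hn⟩ := hl x (by
        filter_upwards [hcon] with n hn
        push Not at hn
        obtain ⟨p, hp, h⟩ := hn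
        exact ⟨p, hp, h.trans_le hδ1⟩)
      exact hcase n hn
    by_contra hcon
    push Not at hcon
    have hall : ball x ε ⊆ K₀ := by
      intro z hz
      apply hret
      refine hfreq.mono fun n hn => ?_
      obtain ⟨s, hs, hs1, hs2, -, -⟩ := branch_scale (n := n) (x := x) hδ0
        (fun v hv => hfree _ (hK n) δ hδ2 hn n v hv)
      have hsε : ε ≤ s := by
        by_contra h
        push Not at h
        obtain ⟨u, hu, v, hv, huv⟩ := hcon s hs h n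
        have h5 := hs2 u hu v hv
        have h6 : min (c₄ / 4) (Real.exp (-8) * δ / 4) / s * ‖u - v‖ ≤
            Real.exp (-8) * δ / 4 / s * ‖u - v‖ := by
          gcongr
          exact min_le_right _ _
        linarith
      refine ⟨(ev T)^[n] x, hK n, ?_⟩
      exact (hs1 z (ball_subset_ball (by linarith) hz)).trans_le hδ3
    have h0 := measure_mono_null hall H.null
    have h1 : 0 < volume (ball x ε) := Metric.measure_ball_pos _ _ hε
    exact absurd h0 h1.ne'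

end Pool.Agent.H20.MZ
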